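import Pool.Agent.Q175.AX.Yd

/-! AXI-BT: the bound of `W` (helper175). -/

set_option autoImplicit false

open MeasureTheory Set Metric Filter Topology
open scoped ContDiff
open H459R3.NS Pool.Agent.W268.NS Pool.Agent.Q67.VD

namespace Pool.Agent.Q175.AX

open Pool.Agent.Q85.CC Pool.Agent.Q85.CL Pool.Agent.TH305.AX Pool.Agent.Q67.AXI

/-- The dissipation in the smaller cylinder. -/
lemma dis_sub {T E c R H r h : ℝ} {u : ℝ → V → V} {p : ℝ → V → ℝ} (hu : AxL T E c R H u p)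
    (hr0 : 0 ≤ r) (hr : r ≤ R) (hh : h ≤ H) {a b : ℝ} (ha : 0 < a) (hab : a ≤ b) (hb : b < T) :
    IntegrableOn (fun t => ∫ x in Co c r h, W221.NS.gsq (u t) x) (Icc a b) ∧
    ∫ t in a..b, (∫ x in Co c r h, W221.NS.gsq (u t) x)
      ≤ ∫ z in Ioo 0 T ×ˢ Co c R H, W221.NS.gsq (u z.1) z.2 := by
  have hd := hu.dis
  have hsub : Ioo 0 T ×ˢ Co c r h ⊆ Ioo 0 T ×ˢ Co c R H :=
    prod_mono_right (Co_mono hr0 hr hh)
  have hd2 : IntegrableOn (fun z : ℝ × V => W221.NS.gsq (u z.1) z.2) (Ioo 0 T ×ˢ Co c r h) :=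
    hd.mono_set hsub
  have hd3 : Integrable (fun z : ℝ × V => W221.NS.gsq (u z.1) z.2)
      ((volume.restrict (Ioo 0 T)).prod (volume.restrict (Co c r h))) := by
    rw [Measure.prod_restrict]
    exact hd2
  have h1 := hd3.integral_prod_left
  have h2 := integral_prod _ hd3
  have hsub2 : Icc a b ⊆ Ioo 0 T := fun t ht => ⟨ha.trans_le ht.1, ht.2.trans_lt hb⟩
  have h3 : IntegrableOn (fun t => ∫ x in Co c r h, W221.NS.gsq (u t) x) (Ioo 0 T) := h1
  refine ⟨h3.mono_set hsub2, ?_⟩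
  rw [intervalIntegral.integral_of_le hab]
  have h4 : ∫ t in Ioc a b, (∫ x in Co c r h, W221.NS.gsq (u t) x)
      ≤ ∫ t in Ioo 0 T, (∫ x in Co c r h, W221.NS.gsq (u t) x) :=
    setIntegral_mono_set h3 (Eventually.of_forall fun t => integral_nonneg fun x => gsq_nn _ x)
      (Eventually.of_forall fun t ht => hsub2 (Ioc_subset_Icc_self ht))
  refine h4.trans ?_
  have h5 : ∫ t in Ioo 0 T, (∫ x in Co c r h, W221.NS.gsq (u t) x)
      = ∫ z in Ioo 0 T ×ˢ Co c r h, W221.NS.gsq (u z.1) z.2 := by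
    rw [← h2, Measure.prod_restrict]
    rfl
  rw [h5]
  exact setIntegral_mono_set hd (Eventually.of_forall fun z => gsq_nn _ _)
    (Eventually.of_forall hsub)

theorem stmBt (hAlg : StmAlg) (hJnt : StmJnt) (hDt : StmDt) (hU : StmU) (hYd : StmYd)
    (hSm : StmSm) : StmBt := by
  intro T E c R H K r h r1 h1 T₁ C' α' u p φ hu hK hr1 hr1r hrR hr2 hh1 hh1h hhH hh hT1 hTT hC'
    hα1 hα2 hφ hb hcirc
  have hr0 : 0 < r := hr1.trans hr1r
  have hrle : r ≤ 1 := by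
    have := hr2.trans exp2_lt.le
    nlinarith
  obtain ⟨C, M₀, hC, hM₀, hYd⟩ := hYd T E c R H K r h r1 h1 T₁ C' α' u p φ hu hK hr1 hr1r hrR hr2
    hh1 hh1h hhH hh hT1 hTT hC' hα1 hα2 hφ hb hcirc
  obtain ⟨CU, hCU, hU⟩ := hU K c r h r1 h1 hK hr1 hr1r hrle hh1 hh1h hh
  have hsubC : Cy c r1 h1 ⊆ Co c r h := fun x hx =>
    ⟨hx.1.trans_lt (pow_lt_pow_left₀ hr1r hr1.le (by norm_num)), hx.2.trans_lt hh1h⟩
  have hcond : ∀ t ∈ Ico T₁ T, ∀ x ∈ Cy c r1 h1, |circ (u t) x| ≤ C' ∧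
      ((sg x = r1 ^ 2 ∨ |x 2 - c| = h1) → |WW (u t) x| ≤ K) := by
    intro t ht x hx
    have ht' : t ∈ Ioo 0 T := ⟨hT1.trans_le ht.1, ht.2⟩
    refine ⟨?_, fun hbx => ?_⟩
    · by_cases hs : sg x = 0
      · obtain ⟨-, -, -, hal⟩ := hAlg (u t) (slice_V hu.smooth_u ht') (hu.axi t ht')
        obtain ⟨-, -, -, -, -, -, -, -, hcW, -⟩ := hal x
        rw [hcW, hs, zero_mul, abs_zero]
        exact hC'
      · have hxC := hsubC hx
        have hsp : 0 < sg x := lt_of_le_of_ne (sg_nn x) (Ne.symm hs)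
        obtain ⟨l1, l2, l3⟩ := log_ge hsp (hxC.1.le.trans hr2)
        refine (hcirc t ht x hxC hs).trans ?_
        exact mul_le_of_le_one_right hC' (Real.rpow_le_one_of_one_le_of_nonpos
          (by linarith) (by linarith))
    · have hxo : x ∈ Out c r h r1 h1 := by
        refine ⟨Co_sub_Cy _ _ _ (hsubC hx), ?_⟩
        rcases hbx with h2 | h2
        · exact Or.inl h2.ge
        · exact Or.inr h2.ge
      exact (hb t ht x hxo).2.2.1
  obtain ⟨CS, hCS, hSm⟩ := hSm T E c R H r1 h1 T₁ K C' u p hu hr1 (hr1r.trans hrR) hh1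
    (hh1h.trans hhH) hT1 hTT hcond
  obtain ⟨Dis, hDis⟩ : ∃ Dis : ℝ, Dis = ∫ z in Ioo 0 T ×ˢ Co c R H, W221.NS.gsq (u z.1) z.2 :=
    ⟨_, rfl⟩
  have hDis0 : 0 ≤ Dis := by rw [hDis]; exact integral_nonneg fun z => gsq_nn _ _
  obtain ⟨Y0, hY0⟩ : ∃ Y0 : ℝ, Y0 = (∫ x, φ x ^ 2 * JJ (u T₁) x ^ 2)
      + ∫ x, φ x ^ 2 * OO (u T₁) x ^ 2 := ⟨_, rfl⟩
  have hY00 : 0 ≤ Y0 := by
    rw [hY0]
    exact add_nonneg (integral_nonneg fun x => by positivity)
      (integral_nonneg fun x => by positivity)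
  have hT0 : 0 < T := hT1.trans hTT
  obtain ⟨A3, hA3⟩ : ∃ A3 : ℝ, A3 = Y0 + C * (T + Dis) := ⟨_, rfl⟩
  have hA30 : 0 ≤ A3 := by rw [hA3]; positivity
  obtain ⟨A5, hA5⟩ : ∃ A5 : ℝ, A5 = CU * (T + A3) + 1 := ⟨_, rfl⟩
  have hA51 : 1 ≤ A5 := by
    rw [hA5]
    have : 0 ≤ CU * (T + A3) := by positivity
    linarith
  obtain ⟨K', hK'⟩ : ∃ K' : ℝ, K' = M₀ + K + (CS * A5) ^ (16 / 9 : ℝ) := ⟨_, rfl⟩
  have hpw0 : 0 ≤ (CS * A5) ^ (16 / 9 : ℝ) := Real.rpow_nonneg (by positivity) _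
  refine ⟨K', by rw [hK']; linarith, ?_⟩
  intro ts hts xs hxs
  obtain ⟨-, jW, jJ, jO⟩ := hJnt T u hu.smooth_u
  -- the maximum
  have hsubT : Icc T₁ ts ⊆ Ioo 0 T := fun t ht => ⟨hT1.trans_le ht.1, ht.2.trans_lt hts.2⟩
  have hcomp : IsCompact (Icc T₁ ts ×ˢ Cy c r h) := isCompact_Icc.prod (Cy_compact hr0.le)
  have hcont : ContinuousOn (fun z : ℝ × V => |WW (u z.1) z.2|) (Icc T₁ ts ×ˢ Cy c r h) :=
    (jW.continuousOn.mono (prod_mono hsubT (subset_univ _))).abs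
  obtain ⟨z0, hz0, hmax⟩ := hcomp.exists_isMaxOn
    ⟨(ts, xs), ⟨⟨hts.1, le_rfl⟩, Co_sub_Cy _ _ _ hxs⟩⟩ hcont
  obtain ⟨M', hM'⟩ : ∃ M' : ℝ, M' = |WW (u z0.1) z0.2| := ⟨_, rfl⟩
  have hmax' : ∀ t ∈ Icc T₁ ts, ∀ x ∈ Cy c r h, |WW (u t) x| ≤ M' := by
    intro t ht x hx
    rw [hM']
    exact hmax (show (t, x) ∈ Icc T₁ ts ×ˢ Cy c r h from ⟨ht, hx⟩)
  obtain ⟨M, hM⟩ : ∃ M : ℝ, M = max M₀ M' := ⟨_, rfl⟩
  have hMM₀ : M₀ ≤ M := by rw [hM]; exact le_max_left _ _
  have hMM' : M' ≤ M := by rw [hM]; exact le_max_right _ _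
  suffices hMK : M ≤ K' from
    ((hmax' ts ⟨hts.1, le_rfl⟩ xs (Co_sub_Cy _ _ _ hxs)).trans hMM').trans hMK
  have hM3 : 3 ≤ M := hM₀.trans hMM₀
  have hMp : 0 < M := by linarith
  obtain ⟨l, hl1, hl2, hYd⟩ := hYd M hMM₀
  obtain ⟨g7, hg7⟩ : ∃ g7 : ℝ, g7 = M ^ (7 / 16 : ℝ) := ⟨_, rfl⟩
  have hg71 : 1 ≤ g7 := by rw [hg7]; exact Real.one_le_rpow (by linarith) (by norm_num)
  have hl0 : 0 < l := (Real.rpow_pos_of_pos hMp _).trans_le hl1
  have hlinv : 1 / l ≤ M ^ (1 / 16 : ℝ) := by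
    have h2 : 1 / l ≤ 1 / M ^ (-(1 / 16) : ℝ) :=
      one_div_le_one_div_of_le (Real.rpow_pos_of_pos hMp _) hl1
    have h3 : 1 / M ^ (-(1 / 16) : ℝ) = M ^ (1 / 16 : ℝ) := by
      rw [Real.rpow_neg hMp.le]
      exact (one_div _).trans (inv_inv _)
    rwa [h3] at h2
  -- integrated energy inequality
  obtain ⟨G, hG⟩ : ∃ G : ℝ → ℝ, G = fun t => ∫ x in Co c r h, W221.NS.gsq (u t) x := ⟨_, rfl⟩
  obtain ⟨D, hD⟩ : ∃ D : ℝ → ℝ, D = fun t => GD (fun x => φ x * OO (u t) x) := ⟨_, rfl⟩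
  have hDc : ContinuousOn D (Ioo 0 T) := by
    rw [hD]
    exact (hDt T (fun t => OO (u t)) φ jO hφ.sm hφ.cs).1
  have hD0 : ∀ t, 0 ≤ D t := fun t => by rw [hD]; exact GD_nn _
  have hDint : ∀ t' ∈ Icc T₁ ts, ∫ t in T₁..t', D t ≤ A3 * g7 := by
    intro t' ht'
    obtain ⟨gi, gle⟩ := dis_sub hu hr0.le hrR.le hhH.le hT1 ht'.1 (ht'.2.trans_lt hts.2)
    rw [← hG] at gi gle
    rw [← hDis] at gle
    obtain ⟨Y, hY⟩ : ∃ Y : ℝ → ℝ, Y = fun s => (∫ x, φ x ^ 2 * JJ (u s) x ^ 2)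
      + l * ∫ x, φ x ^ 2 * OO (u s) x ^ 2 := ⟨_, rfl⟩
    have hsubt : Icc T₁ t' ⊆ Icc T₁ ts := Icc_subset_Icc_right ht'.2
    have hY' : ∀ t ∈ Icc T₁ t', HasDerivAt Y (deriv Y t) t ∧
        deriv Y t ≤ -(l * D t) + C * M ^ (3 / 8 : ℝ) * (1 + G t) := by
      intro t ht
      have htc : t ∈ Ico T₁ T := ⟨ht.1, ht.2.trans_lt (ht'.2.trans_lt hts.2)⟩
      obtain ⟨D', hD1, hD2⟩ := hYd t htc (fun x hx =>
        (hmax' t (hsubt ht) x (Co_sub_Cy _ _ _ hx)).trans hMM')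
      rw [← hY] at hD1
      rw [hD1.deriv]
      refine ⟨hD1, hD2.trans ?_⟩
      have h2 : 0 ≤ GD (fun x => φ x * JJ (u t) x) := GD_nn _
      rw [hD, hG]
      linarith
    have hDi : IntegrableOn D (Icc T₁ t') :=
      (hDc.mono (hsubt.trans hsubT)).integrableOn_compact isCompact_Icc
    have hconsti : IntegrableOn (fun _ : ℝ => (1 : ℝ)) (Icc T₁ t') :=
      continuousOn_const.integrableOn_compact isCompact_Icc
    have hint : IntegrableOn (fun t => -(l * D t) + C * M ^ (3 / 8 : ℝ) * (1 + G t))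
        (Icc T₁ t') := (hDi.const_mul l).neg.add ((hconsti.add gi).const_mul _)
    have hle := intervalIntegral.sub_le_integral_of_hasDeriv_right_of_le (g := Y)
      (g' := deriv Y) (φ := fun t => -(l * D t) + C * M ^ (3 / 8 : ℝ) * (1 + G t)) ht'.1
      (fun t ht => (hY' t ht).1.continuousAt.continuousWithinAt)
      (fun t ht => (hY' t (Ioo_subset_Icc_self ht)).1.hasDerivWithinAt) hint
      (fun t ht => (hY' t (Ioo_subset_Icc_self ht)).2)
    have toI : ∀ f : ℝ → ℝ, IntegrableOn f (Icc T₁ t') → IntervalIntegrable f volume T₁ t' :=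
      fun f hf => by
        rw [intervalIntegrable_iff_integrableOn_Icc_of_le ht'.1]
        exact hf
    have e1 : ∫ t in T₁..t', (-(l * D t) + C * M ^ (3 / 8 : ℝ) * (1 + G t))
        = -(l * ∫ t in T₁..t', D t) + C * M ^ (3 / 8 : ℝ) * ((t' - T₁) + ∫ t in T₁..t', G t) := by
      have e0 : ∀ t, -(l * D t) + C * M ^ (3 / 8 : ℝ) * (1 + G t)
          = (-l) * D t + C * M ^ (3 / 8 : ℝ) * (1 + G t) := by
        intro t
        ring
      simp_rw [e0]
      rw [intervalIntegral.integral_add ((toI D hDi).const_mul (-l))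
        (((toI _ hconsti).add (toI G gi)).const_mul _),
        intervalIntegral.integral_const_mul, intervalIntegral.integral_const_mul,
        intervalIntegral.integral_add (toI _ hconsti) (toI G gi)]
      simp
    rw [e1] at hle
    have hYt : 0 ≤ Y t' := by
      rw [hY]
      exact add_nonneg (integral_nonneg fun x => by positivity)
        (mul_nonneg hl0.le (integral_nonneg fun x => by positivity))
    have hYT : Y T₁ ≤ Y0 := by
      rw [hY, hY0]
      have h2 : 0 ≤ ∫ x, φ x ^ 2 * OO (u T₁) x ^ 2 := integral_nonneg fun x => by positivity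
      show (∫ x, φ x ^ 2 * JJ (u T₁) x ^ 2) + l * (∫ x, φ x ^ 2 * OO (u T₁) x ^ 2) ≤ _
      have := mul_le_of_le_one_left h2 hl2
      linarith
    have hm0 : 0 ≤ M ^ (3 / 8 : ℝ) := Real.rpow_nonneg hMp.le _
    have h5 : C * M ^ (3 / 8 : ℝ) * ((t' - T₁) + ∫ t in T₁..t', G t)
        ≤ C * M ^ (3 / 8 : ℝ) * (T + Dis) := by
      refine mul_le_mul_of_nonneg_left ?_ (by positivity)
      have : t' < T := ht'.2.trans_lt hts.2
      linarith
    have h6 : l * ∫ t in T₁..t', D t ≤ Y0 + C * M ^ (3 / 8 : ℝ) * (T + Dis) := by linarith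
    have h7 : ∫ t in T₁..t', D t ≤ (1 / l) * (Y0 + C * M ^ (3 / 8 : ℝ) * (T + Dis)) := by
      rw [one_div_mul_eq_div, le_div_iff₀ hl0]
      linarith
    refine h7.trans ?_
    have hp0 : 0 ≤ Y0 + C * M ^ (3 / 8 : ℝ) * (T + Dis) := by positivity
    refine (mul_le_mul_of_nonneg_right hlinv hp0).trans ?_
    have k1 : M ^ (1 / 16 : ℝ) * M ^ (3 / 8 : ℝ) = g7 := by
      rw [hg7, ← Real.rpow_add hMp]
      norm_num
    have k2 : M ^ (1 / 16 : ℝ) ≤ g7 := by
      rw [hg7]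
      exact Real.rpow_le_rpow_of_exponent_le (by linarith) (by norm_num)
    calc M ^ (1 / 16 : ℝ) * (Y0 + C * M ^ (3 / 8 : ℝ) * (T + Dis))
        = M ^ (1 / 16 : ℝ) * Y0 + (M ^ (1 / 16 : ℝ) * M ^ (3 / 8 : ℝ)) * (C * (T + Dis)) := by ring
      _ ≤ g7 * Y0 + g7 * (C * (T + Dis)) := by
          rw [k1]
          have := mul_le_mul_of_nonneg_right k2 hY00
          linarith
      _ = A3 * g7 := by rw [hA3]; ring
  -- smoothing
  obtain ⟨τ, hτ⟩ : ∃ τ : ℝ, τ = 1 / (A5 * g7) := ⟨_, rfl⟩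
  have hAg : 1 ≤ A5 * g7 := by nlinarith
  have hτ0 : 0 < τ := by rw [hτ]; positivity
  have hτ1 : τ ≤ 1 := by
    rw [hτ, div_le_one (by positivity)]
    exact hAg
  obtain ⟨B, hB⟩ : ∃ B : ℝ → ℝ, B = fun t => √(CU * (1 + D t)) := ⟨_, rfl⟩
  have hsmall : ∀ t' ∈ Icc T₁ ts, ∀ x ∈ Cy c r1 h1, |WW (u t') x| ≤ CS / τ := by
    intro t' ht'
    have hsubt : Icc T₁ t' ⊆ Ioo 0 T := (Icc_subset_Icc_right ht'.2).trans hsubT
    have hBc : ContinuousOn B (Icc T₁ t') := by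
      rw [hB]
      exact (continuousOn_const.mul (continuousOn_const.add (hDc.mono hsubt))).sqrt
    have hBsq : ∀ t, B t ^ 2 = CU * (1 + D t) := by
      intro t
      rw [hB]
      exact Real.sq_sqrt (mul_nonneg hCU (by linarith [hD0 t]))
    refine hSm τ ⟨hτ0, hτ1⟩ t' ⟨ht'.1, ht'.2.trans_lt hts.2⟩ B hBc ?_ ?_
    · intro t ht x hx
      have htI : t ∈ Ioo 0 T := hsubt ht
      have htc : t ∈ Ico T₁ T := ⟨ht.1, htI.2⟩
      have hv := slice_V hu.smooth_u htI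
      have hU3 := (hU (u t) φ hv (hu.axi t htI) (fun y hy => hu.divfree t htI y
        (Co_mono hr0.le hrR.le hhH.le hy)) hφ (hb t htc)).2.2.1 x
      rw [hφ.one x hx, one_mul] at hU3
      have h2 : |UU (u t) x| ^ 2 ≤ CU * (1 + D t) := by
        rw [sq_abs, hD]
        exact hU3
      rw [hB]
      exact Real.le_sqrt_of_sq_le h2
    · obtain ⟨a, ha⟩ : ∃ a : ℝ, a = max T₁ (t' - τ) := ⟨_, rfl⟩
      have ha1 : T₁ ≤ a := by rw [ha]; exact le_max_left _ _
      have ha2 : a ≤ t' := by rw [ha]; exact max_le ht'.1 (by linarith)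
      have ha3 : t' - a ≤ τ := by
        have : t' - τ ≤ a := by rw [ha]; exact le_max_right _ _
        linarith
      rw [← ha]
      have hsuba : Icc a t' ⊆ Icc T₁ t' := Icc_subset_Icc_left ha1
      have iB : IntervalIntegrable B volume a t' := by
        refine ContinuousOn.intervalIntegrable ?_
        rw [uIcc_of_le ha2]
        exact hBc.mono hsuba
      have iD : ∀ {a' b' : ℝ}, T₁ ≤ a' → a' ≤ b' → b' ≤ t' → IntervalIntegrable D volume a' b' := by
        intro a' b' h1' h2' h3'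
        refine ContinuousOn.intervalIntegrable ?_
        rw [uIcc_of_le h2']
        exact hDc.mono ((Icc_subset_Icc h1' h3').trans hsubt)
      have iC : IntervalIntegrable (fun _ : ℝ => (1 : ℝ)) volume a t' :=
        continuous_const.intervalIntegrable _ _
      have iR : IntervalIntegrable (fun t => 1 / 2 * (τ * (CU * (1 + D t)) + 1 / τ * 1))
          volume a t' :=
        ((((iC.add (iD ha1 ha2 le_rfl)).const_mul CU).const_mul τ).add
          (iC.const_mul (1 / τ))).const_mul (1 / 2)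
      have h2 : ∫ t in a..t', B t ≤ ∫ t in a..t', 1 / 2 * (τ * (CU * (1 + D t)) + 1 / τ * 1) := by
        refine intervalIntegral.integral_mono_on ha2 iB iR fun t _ => ?_
        rw [← hBsq t]
        have h3 : 0 ≤ (τ * B t - 1) ^ 2 := sq_nonneg _
        have h4 : B t ≤ 1 / 2 * (τ * B t ^ 2 + 1 / τ * 1) := by
          have h5 : 1 / 2 * (τ * B t ^ 2 + 1 / τ * 1) - B t = (τ * B t - 1) ^ 2 / (2 * τ) := by
            field_simp
            ring
          have h6 : 0 ≤ (τ * B t - 1) ^ 2 / (2 * τ) := by positivity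
          linarith
        exact h4
      refine h2.trans ?_
      have h3 : ∫ t in a..t', 1 / 2 * (τ * (CU * (1 + D t)) + 1 / τ * 1)
          = 1 / 2 * (τ * (CU * ((t' - a) + ∫ t in a..t', D t)) + 1 / τ * (t' - a)) := by
        rw [intervalIntegral.integral_const_mul, intervalIntegral.integral_add
          (((iC.add (iD ha1 ha2 le_rfl)).const_mul CU).const_mul τ) (iC.const_mul (1 / τ)),
          intervalIntegral.integral_const_mul, intervalIntegral.integral_const_mul,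
          intervalIntegral.integral_const_mul,
          intervalIntegral.integral_add iC (iD ha1 ha2 le_rfl)]
        simp
      rw [h3]
      have h4 : ∫ t in a..t', D t ≤ A3 * g7 := by
        have h5 := intervalIntegral.integral_add_adjacent_intervals (iD le_rfl ha1 ha2)
          (iD ha1 ha2 le_rfl)
        have h6 : 0 ≤ ∫ t in T₁..a, D t := intervalIntegral.integral_nonneg ha1 fun s _ => hD0 s
        have h7 := hDint t' ht'
        linarith
      have h5 : CU * ((t' - a) + ∫ t in a..t', D t) ≤ A5 * g7 := by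
        have h6 : (t' - a) + ∫ t in a..t', D t ≤ (T + A3) * g7 := by
          have : t' < T := ht'.2.trans_lt hts.2
          have : T * 1 ≤ T * g7 := mul_le_mul_of_nonneg_left hg71 hT0.le
          nlinarith
        calc CU * ((t' - a) + ∫ t in a..t', D t) ≤ CU * ((T + A3) * g7) :=
              mul_le_mul_of_nonneg_left h6 hCU
          _ = (CU * (T + A3)) * g7 := by ring
          _ ≤ A5 * g7 := by
              refine mul_le_mul_of_nonneg_right ?_ (by linarith)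
              rw [hA5]
              linarith
      have h6 : τ * (CU * ((t' - a) + ∫ t in a..t', D t)) ≤ 1 := by
        calc τ * (CU * ((t' - a) + ∫ t in a..t', D t)) ≤ τ * (A5 * g7) :=
              mul_le_mul_of_nonneg_left h5 hτ0.le
          _ = 1 := by
              rw [hτ]
              field_simp
      have h7 : 1 / τ * (t' - a) ≤ 1 := by
        rw [one_div_mul_eq_div, div_le_one hτ0]
        exact ha3
      linarith
  -- conclusion
  have hM'b : M' ≤ K ∨ M' ≤ CS * A5 * g7 := by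
    by_cases hin : z0.2 ∈ Cy c r1 h1
    · right
      rw [hM']
      refine (hsmall z0.1 hz0.1 z0.2 hin).trans (le_of_eq ?_)
      rw [hτ]
      field_simp
    · left
      rw [hM']
      have hxo : z0.2 ∈ Out c r h r1 h1 := by
        refine ⟨hz0.2, ?_⟩
        by_contra hcon
        push Not at hcon
        exact hin ⟨hcon.1.le, hcon.2.le⟩
      exact (hb z0.1 ⟨hz0.1.1, hz0.1.2.trans_lt hts.2⟩ z0.2 hxo).2.2.1
  rcases max_cases M₀ M' with ⟨h2, -⟩ | ⟨h2, -⟩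
  · rw [hM, h2, hK']
    linarith
  · rw [h2] at hM
    rcases hM'b with h3 | h3
    · rw [hM, hK']
      linarith
    · -- `M ≤ CS A5 M^(7/16)`
      have h4 : M ≤ CS * A5 * M ^ (7 / 16 : ℝ) := by
        rw [← hg7]
        rw [hM]
        exact h3
      have h5 : M ^ (9 / 16 : ℝ) ≤ CS * A5 := by
        have h6 : M ^ (9 / 16 : ℝ) * M ^ (7 / 16 : ℝ) = M := by
          rw [← Real.rpow_add hMp]
          norm_num
        have h7 : M ^ (9 / 16 : ℝ) * M ^ (7 / 16 : ℝ) ≤ CS * A5 * M ^ (7 / 16 : ℝ) := by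
          rw [h6]
          exact h4
        exact le_of_mul_le_mul_right h7 (Real.rpow_pos_of_pos hMp _)
      have h6 : M ≤ (CS * A5) ^ (16 / 9 : ℝ) := by
        calc M = (M ^ (9 / 16 : ℝ)) ^ (16 / 9 : ℝ) := by
              rw [← Real.rpow_mul hMp.le]
              norm_num
          _ ≤ _ := Real.rpow_le_rpow (Real.rpow_nonneg hMp.le _) h5 (by norm_num)
      rw [hK']
      linarith

end Pool.Agent.Q175.AX
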