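import Pool.Agent.Q67.AXI.Defs

/-! Common lemmas for project AXI of helper67 (helper175). -/

set_option autoImplicit false

open MeasureTheory Set Metric Filter Topology
open scoped ContDiff
open H459R3.NS Pool.Agent.W268.NS Pool.Agent.Q67.VD

namespace Pool.Agent.Q175.AX

open Pool.Agent.Q85.CC Pool.Agent.Q85.CL Pool.Agent.TH305.AX Pool.Agent.Q67.AXI
open Pool.Agent.W583.MD (sm_pd cs_pd pd_mul' Z Z.add Z.sub Z.smul Z.sum int_cs Z_pd)
open Pool.Agent.TH305.DR (pd_add' pd_sub' pd_neg' pd_cmul pd_const')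

lemma sg_nn (x : V) : 0 ≤ sg x := by
  unfold sg
  positivity

lemma sg_cd : ContDiff ℝ ∞ sg := by
  unfold sg
  fun_prop

lemma pd_sg (j : Fin 3) (x : V) : pd j sg x = if j = 2 then 0 else 2 * x j := by
  have e : (sg : V → ℝ) = fun y => y 0 * y 0 + y 1 * y 1 := by
    funext y
    unfold sg
    ring
  rw [e, pd_add' ((sm_crd 0).mul (sm_crd 0)) ((sm_crd 1).mul (sm_crd 1)),
    pd_mulf (sm_crd 0) (sm_crd 0), pd_mulf (sm_crd 1) (sm_crd 1), pd_crd, pd_crd]
  fin_cases j <;> simp <;> ring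

lemma pd_comm {f : V → ℝ} (hf : ContDiff ℝ ∞ f) (i j : Fin 3) (x : V) :
    pd i (pd j f) x = pd j (pd i f) x := by
  have hs : IsSymmSndFDerivAt ℝ f x :=
    hf.contDiffAt.isSymmSndFDerivAt (by
      rw [minSmoothness_of_isRCLikeNormedField]
      norm_cast)
  have hd : DifferentiableAt ℝ (fderiv ℝ f) x :=
    ((hf.fderiv_right (m := ∞) (by norm_cast)).differentiable (by norm_cast)) x
  have key : ∀ a b : V, fderiv ℝ (fun y => fderiv ℝ f y a) x b
      = fderiv ℝ (fderiv ℝ f) x b a := by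
    intro a b
    have h1 := (hd.hasFDerivAt.clm_apply (hasFDerivAt_const a x)).fderiv
    rw [h1]
    simp
  show fderiv ℝ (fun y => fderiv ℝ f y (Pi.single j 1)) x (Pi.single i 1)
    = fderiv ℝ (fun y => fderiv ℝ f y (Pi.single i 1)) x (Pi.single j 1)
  rw [key, key]
  exact hs _ _

lemma pd_commf {f : V → ℝ} (hf : ContDiff ℝ ∞ f) (i j : Fin 3) :
    pd i (pd j f) = pd j (pd i f) := by
  funext x
  exact pd_comm hf i j x

lemma axis_ae : ∀ᵐ x : V, sg x ≠ 0 := by
  have h1 : volume {f : V | f 0 = 0} = 0 := by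
    have := Measure.pi_hyperplane (μ := fun _ : Fin 3 => (volume : Measure ℝ)) 0 (0 : ℝ)
    exact this
  rw [ae_iff]
  refine measure_mono_null ?_ h1
  intro x hx
  simp only [Set.mem_ofPred_eq, ne_eq, not_not] at hx ⊢
  unfold sg at hx
  nlinarith [sq_nonneg (x 0), sq_nonneg (x 1)]

lemma axis_dense : Dense {x : V | sg x ≠ 0} := Measure.dense_of_ae axis_ae

/-- A continuous function which vanishes off the axis in an open set vanishes there. -/
lemma off_zero {g : V → ℝ} (hg : Continuous g) {O : Set V} (hO : IsOpen O)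
    (h : ∀ x ∈ O, sg x ≠ 0 → g x = 0) : ∀ x ∈ O, g x = 0 := by
  intro x hx
  have h1 : x ∈ closure (O ∩ {x : V | sg x ≠ 0}) := axis_dense.open_subset_closure_inter hO hx
  have h2 : IsClosed {y : V | g y = 0} := isClosed_eq hg continuous_const
  exact h2.closure_subset_iff.2 (fun y hy => h y hy.1 hy.2) h1

/-! ### continuously differentiable functions -/

lemma pd1_cont {f : V → ℝ} (hf : ContDiff ℝ 1 f) (j : Fin 3) : Continuous (pd j f) :=
  (hf.continuous_fderiv one_ne_zero).clm_apply continuous_const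

lemma Z_pd1 {f : V → ℝ} (hf : ContDiff ℝ 1 f) (hs : HasCompactSupport f) (j : Fin 3) :
    Z (pd j f) := by
  have hi : Integrable (pd j f) := int_cs (pd1_cont hf j) (cs_pd hs j)
  refine ⟨hi, ?_⟩
  have h := integral_mul_fderiv_eq_neg_fderiv_mul_of_integrable (μ := (volume : Measure V))
    (f := fun _ : V => (1 : ℝ)) (g := f) (v := (Pi.single j 1 : V)) ?_ ?_ ?_ ?_ ?_
  · simp only [one_mul, fderiv_fun_const, Pi.zero_apply, zero_apply,
      zero_mul, integral_zero, neg_zero] at h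
    exact h
  · simp only [fderiv_fun_const, Pi.zero_apply, zero_apply, zero_mul]
    exact integrable_zero _ _ _
  · simp only [one_mul]
    exact hi
  · simp only [one_mul]
    exact int_cs hf.continuous hs
  · exact fun x _ => differentiableAt_const 1
  · exact fun x _ => (hf.differentiable one_ne_zero) x

lemma pd_mul_at {f g : V → ℝ} {x : V} (hf : DifferentiableAt ℝ f x)
    (hg : DifferentiableAt ℝ g x) (j : Fin 3) :
    pd j (fun y => f y * g y) x = f x * pd j g x + pd j f x * g x := by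
  unfold pd
  have h : HasFDerivAt (fun y => f y * g y) _ x := hf.hasFDerivAt.mul hg.hasFDerivAt
  rw [h.fderiv]
  simp only [add_apply, smul_apply, smul_eq_mul]
  ring

lemma pd_comp_at {f : V → ℝ} {g : ℝ → ℝ} {x : V} {g' : ℝ} (hg : HasDerivAt g g' (f x))
    (hf : DifferentiableAt ℝ f x) (j : Fin 3) :
    pd j (fun y => g (f y)) x = g' * pd j f x := by
  unfold pd
  have h := hg.comp_hasFDerivAt x hf.hasFDerivAt
  have e : (fun y => g (f y)) = g ∘ f := rfl
  rw [e, h.fderiv]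
  simp

lemma pd_ev {f g : V → ℝ} {x : V} (h : f =ᶠ[𝓝 x] g) (j : Fin 3) : pd j f x = pd j g x := by
  unfold pd
  rw [h.fderiv_eq]

lemma pd_evv {f g : V → ℝ} {x : V} (h : f =ᶠ[𝓝 x] g) (j : Fin 3) :
    pd j f =ᶠ[𝓝 x] pd j g := by
  filter_upwards [h.eventuallyEq_nhds] with y hy
  exact pd_ev hy j

lemma lap_ev {f g : V → ℝ} {x : V} (h : f =ᶠ[𝓝 x] g) : lap f x = lap g x := by
  unfold lap
  exact Finset.sum_congr rfl fun j _ => pd_ev (pd_evv h j) j

lemma RR_ev {f g : V → ℝ} {x : V} (h : f =ᶠ[𝓝 x] g) : RR f x = RR g x := by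
  unfold RR
  rw [pd_ev h, pd_ev h]

lemma LL_ev {f g : V → ℝ} {x : V} (h : f =ᶠ[𝓝 x] g) : LL f x = LL g x := by
  unfold LL
  rw [lap_ev h, RR_ev h]

/-! ### the operators -/

lemma cs_zero {f : V → ℝ} {x : V} (hx : x ∉ tsupport f) : f =ᶠ[𝓝 x] fun _ => 0 :=
  notMem_tsupport_iff_eventuallyEq.1 hx

lemma cd_ts {n : WithTop ℕ∞} {f : V → ℝ} (h : ∀ x ∈ tsupport f, ContDiffAt ℝ n f x) :
    ContDiff ℝ n f := by
  rw [contDiff_iff_contDiffAt]
  intro x
  by_cases hx : x ∈ tsupport f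
  · exact h x hx
  · exact contDiffAt_const.congr_of_eventuallyEq (cs_zero hx)

lemma lap_const (c : ℝ) (x : V) : lap (fun _ : V => c) x = 0 := by
  unfold lap
  simp only [pd_const']
  simp

lemma RR_const (c : ℝ) (x : V) : RR (fun _ : V => c) x = 0 := by
  unfold RR
  simp only [pd_const']
  simp

lemma RR_sm {f : V → ℝ} (hf : ContDiff ℝ ∞ f) : ContDiff ℝ ∞ (RR f) := by
  unfold RR
  exact ((sm_crd 0).mul (sm_pd hf 0)).add ((sm_crd 1).mul (sm_pd hf 1))

lemma lap_sm {f : V → ℝ} (hf : ContDiff ℝ ∞ f) : ContDiff ℝ ∞ (lap f) := by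
  unfold lap
  exact ContDiff.sum fun j _ => sm_pd (sm_pd hf j) j

lemma gr2_sm {f : V → ℝ} (hf : ContDiff ℝ ∞ f) : ContDiff ℝ ∞ (gr2 f) := by
  unfold gr2
  exact ContDiff.sum fun j _ => (sm_pd hf j).pow 2

lemma hs2_sm {f : V → ℝ} (hf : ContDiff ℝ ∞ f) : ContDiff ℝ ∞ (hs2 f) := by
  unfold hs2
  exact ContDiff.sum fun i _ => ContDiff.sum fun j _ => (sm_pd (sm_pd hf j) i).pow 2

lemma gr2_nn (f : V → ℝ) (x : V) : 0 ≤ gr2 f x := by
  unfold gr2
  positivity

lemma hs2_nn (f : V → ℝ) (x : V) : 0 ≤ hs2 f x := by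
  unfold hs2
  positivity

lemma GD_nn (f : V → ℝ) : 0 ≤ GD f := integral_nonneg fun x => gr2_nn f x

lemma HD_nn (f : V → ℝ) : 0 ≤ HD f := integral_nonneg fun x => hs2_nn f x

lemma gr2_cs {f : V → ℝ} (hf : HasCompactSupport f) : HasCompactSupport (gr2 f) := by
  refine HasCompactSupport.of_support_subset_isCompact hf fun x hx => ?_
  by_contra hcon
  apply hx
  unfold gr2
  refine Finset.sum_eq_zero fun j _ => ?_
  rw [pd_ev (cs_zero hcon) j, pd_const']
  simp

lemma hs2_cs {f : V → ℝ} (hf : HasCompactSupport f) : HasCompactSupport (hs2 f) := by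
  refine HasCompactSupport.of_support_subset_isCompact hf fun x hx => ?_
  by_contra hcon
  apply hx
  unfold hs2
  refine Finset.sum_eq_zero fun i _ => Finset.sum_eq_zero fun j _ => ?_
  rw [pd_ev (pd_evv (cs_zero hcon) j) i, pd_const', pd_const']
  simp

lemma gr2_int {f : V → ℝ} (hf : ContDiff ℝ ∞ f) (hs : HasCompactSupport f) :
    Integrable (gr2 f) := int_cs (gr2_sm hf).continuous (gr2_cs hs)

lemma hs2_int {f : V → ℝ} (hf : ContDiff ℝ ∞ f) (hs : HasCompactSupport f) :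
    Integrable (hs2 f) := int_cs (hs2_sm hf).continuous (hs2_cs hs)

/-- `RR f ^ 2 ≤ sg * (horizontal gradient)²`. -/
lemma RR_sq (f : V → ℝ) (x : V) : RR f x ^ 2 ≤ sg x * (pd 0 f x ^ 2 + pd 1 f x ^ 2) := by
  unfold RR sg
  nlinarith [sq_nonneg (x 0 * pd 1 f x - x 1 * pd 0 f x)]

lemma RR_sq' (f : V → ℝ) (x : V) : RR f x ^ 2 ≤ sg x * gr2 f x := by
  refine (RR_sq f x).trans (mul_le_mul_of_nonneg_left ?_ (sg_nn x))
  unfold gr2
  rw [Fin.sum_univ_three]
  nlinarith [sq_nonneg (pd 2 f x)]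

end Pool.Agent.Q175.AX
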