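import Pool.Agent.Q175.AX.Ell

/-! Cut-off functions (helper175). -/

set_option autoImplicit false

open MeasureTheory Set Metric Filter Topology
open scoped ContDiff
open H459R3.NS Pool.Agent.W268.NS Pool.Agent.Q67.VD

namespace Pool.Agent.Q175.AX

open Pool.Agent.Q85.CC Pool.Agent.Q85.CL Pool.Agent.TH305.AX Pool.Agent.Q67.AXI
open Pool.Agent.W583.MD (sm_pd cs_pd pd_mul' Z Z.add Z.sub Z.smul Z.sum int_cs Z_pd)
open Pool.Agent.TH305.DR (pd_add' pd_sub' pd_neg' pd_cmul pd_const')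

lemma Co_sub_Cy (c r h : ℝ) : Co c r h ⊆ Cy c r h := fun _ hx => ⟨hx.1.le, hx.2.le⟩

lemma Co_open (c r h : ℝ) : IsOpen (Co c r h) := by
  have h1 : IsOpen {x : V | sg x < r ^ 2} := isOpen_lt sg_cd.continuous continuous_const
  have h2 : IsOpen {x : V | |x 2 - c| < h} := isOpen_lt (by fun_prop) continuous_const
  exact h1.inter h2

lemma Cy_closed (c r h : ℝ) : IsClosed (Cy c r h) := by
  have h1 : IsClosed {x : V | sg x ≤ r ^ 2} := isClosed_le sg_cd.continuous continuous_const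
  have h2 : IsClosed {x : V | |x 2 - c| ≤ h} := isClosed_le (by fun_prop) continuous_const
  exact h1.inter h2

lemma Cy_coord {c r h : ℝ} (hr : 0 ≤ r) {x : V} (hx : x ∈ Cy c r h) :
    |x 0| ≤ r ∧ |x 1| ≤ r ∧ |x 2 - c| ≤ h := by
  have h1 : sg x ≤ r ^ 2 := hx.1
  unfold sg at h1
  refine ⟨abs_le_of_sq_le_sq (by nlinarith [sq_nonneg (x 1)]) hr,
    abs_le_of_sq_le_sq (by nlinarith [sq_nonneg (x 0)]) hr, hx.2⟩

lemma Cy_sub_ball {c r h : ℝ} (hr : 0 ≤ r) :
    Cy c r h ⊆ closedBall (![0, 0, c] : V) (max r h) := by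
  intro x hx
  obtain ⟨h0, h1, h2⟩ := Cy_coord hr hx
  rw [mem_closedBall, dist_pi_le_iff (hr.trans (le_max_left _ _))]
  intro i
  rw [Real.dist_eq]
  fin_cases i
  · show |x 0 - 0| ≤ _
    rw [sub_zero]
    exact h0.trans (le_max_left _ _)
  · show |x 1 - 0| ≤ _
    rw [sub_zero]
    exact h1.trans (le_max_left _ _)
  · show |x 2 - c| ≤ _
    exact h2.trans (le_max_right _ _)

lemma Cy_compact {c r h : ℝ} (hr : 0 ≤ r) : IsCompact (Cy c r h) :=
  (isCompact_closedBall _ _).of_isClosed_subset (Cy_closed c r h) (Cy_sub_ball hr)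

lemma Co_meas (c r h : ℝ) : MeasurableSet (Co c r h) := (Co_open c r h).measurableSet

lemma Co_fin {c r h : ℝ} (hr : 0 ≤ r) : volume (Co c r h) < ⊤ :=
  (measure_mono (Co_sub_Cy c r h)).trans_lt (Cy_compact hr).measure_lt_top

lemma ind_int {c r h : ℝ} (hr : 0 ≤ r) (C : ℝ) :
    Integrable ((Co c r h).indicator fun _ : V => C) :=
  (integrable_indicator_iff (Co_meas c r h)).2 (integrableOn_const (Co_fin hr).ne)

lemma ind_val (c r h C : ℝ) :
    ∫ x, (Co c r h).indicator (fun _ : V => C) x = (volume (Co c r h)).toReal * C := by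
  rw [integral_indicator (Co_meas c r h), setIntegral_const]
  rfl

section
variable {c r h r1 h1 K : ℝ} {φ : V → ℝ}

/-- Either the point is in the outer part, or the cut-off function is constant nearby. -/
lemma cut_dich (hφ : Cut c r h r1 h1 K φ) (x : V) :
    x ∈ Out c r h r1 h1 ∩ Co c r h ∨ ∃ k : ℝ, φ =ᶠ[𝓝 x] fun _ => k := by
  by_cases hx : x ∈ tsupport φ
  · have hxC := hφ.supp hx
    by_cases ho : r1 ^ 2 ≤ sg x ∨ h1 ≤ |x 2 - c|
    · exact Or.inl ⟨⟨Co_sub_Cy _ _ _ hxC, ho⟩, hxC⟩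
    · push Not at ho
      refine Or.inr ⟨1, ?_⟩
      have h2 : Co c r1 h1 ∈ 𝓝 x := (Co_open c r1 h1).mem_nhds ho
      filter_upwards [h2] with y hy
      exact hφ.one y (Co_sub_Cy _ _ _ hy)
  · exact Or.inr ⟨0, cs_zero hx⟩

lemma const_pd {φ : V → ℝ} {k : ℝ} {x : V} (h : φ =ᶠ[𝓝 x] fun _ => k) :
    (∀ i, pd i φ x = 0) ∧ lap φ x = 0 ∧ RR φ x = 0 := by
  refine ⟨fun i => ?_, ?_, ?_⟩
  · rw [pd_ev h, pd_const']
  · rw [lap_ev h, lap_const]
  · rw [RR_ev h, RR_const]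

lemma cut_out (hφ : Cut c r h r1 h1 K φ) {x : V} (hx : x ∉ Co c r h) : x ∉ tsupport φ :=
  fun h => hx (hφ.supp h)

lemma cut_mem (hφ : Cut c r h r1 h1 K φ) {x : V} (hx : φ x ≠ 0) : x ∈ Co c r h :=
  hφ.supp (subset_closure hx)

lemma cut_ball (hφ : Cut c r h r1 h1 K φ) (hr : 0 ≤ r) (hr1 : r ≤ 1) (hh1 : h ≤ 1) {x : V}
    (hx : φ x ≠ 0) : ‖x - ![0, 0, c]‖ ≤ 1 := by
  have h1 := Cy_sub_ball hr (Co_sub_Cy _ _ _ (cut_mem hφ hx))
  rw [mem_closedBall, dist_eq_norm] at h1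
  exact h1.trans (max_le hr1 hh1)

end

/-! ### products -/

lemma RR_mul {f g : V → ℝ} (hf : ContDiff ℝ ∞ f) (hg : ContDiff ℝ ∞ g) (x : V) :
    RR (fun y => f y * g y) x = f x * RR g x + g x * RR f x := by
  unfold RR
  rw [pd_mulf hf hg, pd_mulf hf hg]
  ring

lemma lap_mul {f g : V → ℝ} (hf : ContDiff ℝ ∞ f) (hg : ContDiff ℝ ∞ g) (x : V) :
    lap (fun y => f y * g y) x = f x * lap g x + 2 * (∑ i, pd i f x * pd i g x)
      + g x * lap f x := by
  unfold lap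
  simp only [Fin.sum_univ_three]
  have e : ∀ i, pd i (pd i fun y => f y * g y) x = f x * pd i (pd i g) x
      + 2 * (pd i f x * pd i g x) + g x * pd i (pd i f) x := by
    intro i
    rw [pd_mulf hf hg, pd_add' (hf.mul (sm_pd hg i)) ((sm_pd hf i).mul hg),
      pd_mulf hf (sm_pd hg i), pd_mulf (sm_pd hf i) hg]
    ring
  rw [e, e, e]
  ring

lemma LL_mul {f g : V → ℝ} (hf : ContDiff ℝ ∞ f) (hg : ContDiff ℝ ∞ g) (x : V) :
    LL (fun y => f y * g y) x = f x * LL g x + 2 * (∑ i, pd i f x * pd i g x)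
      + g x * LL f x := by
  unfold LL
  rw [lap_mul hf hg, RR_mul hf hg]
  ring

lemma LL_meas {f : V → ℝ} (hf : ContDiff ℝ ∞ f) : Measurable (LL f) := by
  unfold LL
  exact (lap_sm hf).continuous.measurable.add
    ((measurable_const.div sg_cd.continuous.measurable).mul (RR_sm hf).continuous.measurable)

lemma AxF.mul {f g : V → ℝ} (hf : AxF f) (hg : AxF g) : AxF (fun y => f y * g y) := by
  intro θ x
  show f (rot θ x) * g (rot θ x) = f x * g x
  rw [hf, hg]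

lemma sq_cs {f : V → ℝ} (hs : HasCompactSupport f) : HasCompactSupport (fun y => f y ^ 2) := by
  have e : (fun y => f y ^ 2) = fun y => f y * f y := by
    funext y
    ring
  rw [e]
  exact hs.mul_right

end Pool.Agent.Q175.AX
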