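import Pool.Agent.Q175.AX.Rho

/-! AXI-ELL (helper175). -/

set_option autoImplicit false

open MeasureTheory Set Metric Filter Topology
open scoped ContDiff
open H459R3.NS Pool.Agent.W268.NS Pool.Agent.Q67.VD

namespace Pool.Agent.Q175.AX

open Pool.Agent.Q85.CC Pool.Agent.Q85.CL Pool.Agent.TH305.AX Pool.Agent.Q67.AXI
open Pool.Agent.W583.MD (sm_pd cs_pd pd_mul' Z Z.add Z.sub Z.smul Z.sum int_cs Z_pd)
open Pool.Agent.TH305.DR (pd_add' pd_sub' pd_neg' pd_cmul pd_const')

/-- `q` has support in the support of `F`. -/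
lemma q_supp {F q : V → ℝ} (hq : Continuous q) (h : ∀ x, RR F x = sg x * q x) :
    ∀ x ∉ tsupport F, q x = 0 := by
  intro x hx
  refine off_zero hq (isClosed_tsupport F).isOpen_compl (fun y hy hs => ?_) x hx
  have h1 : RR F y = 0 := by
    rw [RR_ev (cs_zero hy), RR_const]
  have h2 := h y
  rw [h1] at h2
  rcases mul_eq_zero.1 h2.symm with h3 | h3
  · exact absurd h3 hs
  · exact h3

lemma cs_of {F q : V → ℝ} (hs : HasCompactSupport F) (h : ∀ x ∉ tsupport F, q x = 0) :
    HasCompactSupport q :=
  HasCompactSupport.of_support_subset_isCompact hs fun x hx => by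
    by_contra hcon
    exact hx (h x hcon)

lemma LL_off {F q : V → ℝ} (h : ∀ x, RR F x = sg x * q x) {x : V} (hx : sg x ≠ 0) :
    LL F x = lap F x + 2 * q x := by
  unfold LL
  rw [h]
  field_simp

theorem ell (H0 : StmH0) (HA : StmAxF) : StmEll := by
  intro F hF hs hax
  obtain ⟨-, -, -, q, hq, -, hq1⟩ := HA F hF hax
  have hq0 : ∀ x, pd 0 F x = x 0 * q x := fun x => (hq1 x).1
  have hqq : ∀ x, pd 1 F x = x 1 * q x := fun x => (hq1 x).2.1
  have hqR : ∀ x, RR F x = sg x * q x := fun x => (hq1 x).2.2
  have hqs : HasCompactSupport q := cs_of hs (q_supp hq.continuous hqR)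
  have f0 : pd 0 F = fun x => x 0 * q x := funext hq0
  have f1 : pd 1 F = fun x => x 1 * q x := funext hqq
  have hdf : ∀ j, ContDiff ℝ ∞ (pd j F) := fun j => sm_pd hF j
  have hdfs : ∀ j, HasCompactSupport (pd j F) := fun j => cs_pd hs j
  have hlaps : HasCompactSupport (lap F) := cs_of hs fun x hx => by
    rw [lap_ev (cs_zero hx), lap_const]
  -- lap F
  have hlap : ∀ x, lap F x = 2 * q x + RR q x + pd 2 (pd 2 F) x := by
    intro x
    unfold lap RR
    rw [Fin.sum_univ_three, f0, f1, pd_mulf (sm_crd 0) hq, pd_mulf (sm_crd 1) hq, pd_crd, pd_crd]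
    simp
    ring
  -- zero integrals
  have Z1 : Z (fun x => q x ^ 2 + q x * RR q x) := by
    have z0 := Z_pd ((sm_crd 0).mul (hq.mul hq)) (hqs.mul_left.mul_left (f := fun y : V => y 0)) 0
    have z1 := Z_pd ((sm_crd 1).mul (hq.mul hq)) (hqs.mul_left.mul_left (f := fun y : V => y 1)) 1
    have z := ((z0.add z1).smul (1 / 2))
    have e : (fun x => (1 / 2 : ℝ) * (pd 0 (fun y : V => y 0 * (q y * q y)) x
        + pd 1 (fun y : V => y 1 * (q y * q y)) x)) = fun x => q x ^ 2 + q x * RR q x := by
      funext x
      rw [pd_mulf (sm_crd 0) (hq.mul hq), pd_mulf (sm_crd 1) (hq.mul hq), pd_mulf hq hq,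
        pd_mulf hq hq, pd_crd, pd_crd]
      unfold RR
      simp
      ring
    rw [← e]
    exact z
  have Z2 : Z (fun x => q x * pd 2 (pd 2 F) x + pd 2 q x * pd 2 F x) := by
    have z := Z_pd (hq.mul (hdf 2)) (hqs.mul_right) 2
    have e : pd 2 (fun x => q x * pd 2 F x)
        = fun x => q x * pd 2 (pd 2 F) x + pd 2 q x * pd 2 F x := pd_mulf hq (hdf 2) 2
    rw [← e]
    exact z
  -- second derivative
  have Z3 : Z (fun x => lap F x ^ 2 - hs2 F x) := by
    have z : ∀ i j : Fin 3, Z (fun x => pd i (fun y => pd i F y * pd j (pd j F) y) x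
        - pd j (fun y => pd i F y * pd i (pd j F) y) x) := by
      intro i j
      exact (Z_pd ((hdf i).mul (sm_pd (hdf j) j)) (hdfs i).mul_right i).sub
        (Z_pd ((hdf i).mul (sm_pd (hdf j) i)) (hdfs i).mul_right j)
    have z' := Z.sum fun i => Z.sum fun j => z i j
    have e : (fun x => ∑ i, ∑ j, (pd i (fun y => pd i F y * pd j (pd j F) y) x
        - pd j (fun y => pd i F y * pd i (pd j F) y) x)) = fun x => lap F x ^ 2 - hs2 F x := by
      funext x
      have e1 : ∀ i j : Fin 3, pd i (fun y => pd i F y * pd j (pd j F) y) x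
          - pd j (fun y => pd i F y * pd i (pd j F) y) x
          = pd i (pd i F) x * pd j (pd j F) x - pd i (pd j F) x ^ 2 := by
        intro i j
        rw [pd_mulf (hdf i) (sm_pd (hdf j) j), pd_mulf (hdf i) (sm_pd (hdf j) i)]
        have c1 : pd i (pd j (pd j F)) x = pd j (pd i (pd j F)) x := pd_comm (hdf j) i j x
        have c2 : pd j (pd i F) x = pd i (pd j F) x := pd_comm hF j i x
        beta_reduce
        rw [c1, c2]
        ring
      simp only [e1]
      unfold lap hs2
      simp only [Fin.sum_univ_three]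
      ring
    rw [← e]
    exact z'
  have Z4 : Z (fun x => F x * lap F x + gr2 F x) := by
    have z' := Z.sum fun j => Z_pd (hF.mul (hdf j)) hs.mul_right j
    have e : (fun x => ∑ j, pd j (fun y => F y * pd j F y) x)
        = fun x => F x * lap F x + gr2 F x := by
      funext x
      have e1 : ∀ j : Fin 3, pd j (fun y => F y * pd j F y) x
          = F x * pd j (pd j F) x + pd j F x ^ 2 := by
        intro j
        rw [pd_mulf hF (hdf j)]
        ring
      simp only [e1]
      unfold lap gr2
      simp only [Fin.sum_univ_three]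
      ring
    rw [← e]
    exact z'
  -- consequences of `H0`
  have h2 : ∫ x, pd 2 q x * pd 2 F x ≤ 0 := by
    have hh := H0 (fun y => pd 2 F y ^ 2) (((hdf 2).pow 2).of_le (by norm_cast))
      (by
        have e : (fun y => pd 2 F y ^ 2) = fun y => pd 2 F y * pd 2 F y := by
          funext y
          ring
        rw [e]
        exact (hdfs 2).mul_right) (fun x => sq_nonneg _)
    have e : ∫ x, RR (fun y => pd 2 F y ^ 2) x / sg x = 2 * ∫ x, pd 2 q x * pd 2 F x := by
      rw [← integral_const_mul]
      refine integral_congr_ae ?_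
      filter_upwards [axis_ae] with x hx
      have e1 : RR (fun y => pd 2 F y ^ 2) x = 2 * pd 2 F x * RR (pd 2 F) x := by
        unfold RR
        rw [sq_pd (hdf 2), sq_pd (hdf 2)]
        ring
      have e2 : RR (pd 2 F) x = sg x * pd 2 q x := by
        have c0 : pd 0 (pd 2 F) x = x 0 * pd 2 q x := by
          rw [pd_comm hF 0 2 x, f0, pd_mulf (sm_crd 0) hq, pd_crd]
          simp
        have c1 : pd 1 (pd 2 F) x = x 1 * pd 2 q x := by
          rw [pd_comm hF 1 2 x, f1, pd_mulf (sm_crd 1) hq, pd_crd]
          simp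
        unfold RR sg
        rw [c0, c1]
        ring
      rw [e1, e2]
      field_simp
    rw [e] at hh
    linarith [hh.2]
  have h3 : ∫ x, F x * q x ≤ 0 := by
    have hh := H0 (fun y => F y ^ 2) ((hF.pow 2).of_le (by norm_cast))
      (by
        have e : (fun y => F y ^ 2) = fun y => F y * F y := by
          funext y
          ring
        rw [e]
        exact hs.mul_right) (fun x => sq_nonneg _)
    have e : ∫ x, RR (fun y => F y ^ 2) x / sg x = 2 * ∫ x, F x * q x := by
      rw [← integral_const_mul]
      refine integral_congr_ae ?_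
      filter_upwards [axis_ae] with x hx
      have e1 : RR (fun y => F y ^ 2) x = 2 * F x * RR F x := by
        unfold RR
        rw [sq_pd hF, sq_pd hF]
        ring
      rw [e1, hqR]
      field_simp
    rw [e] at hh
    linarith [hh.2]
  -- integrability
  have i1 : Integrable (fun x => lap F x ^ 2) := by
    refine int_cs ((lap_sm hF).pow 2).continuous ?_
    have e : (fun y => lap F y ^ 2) = fun y => lap F y * lap F y := by
      funext y
      ring
    rw [e]
    exact hlaps.mul_right
  have i2 : Integrable (fun x => lap F x * q x) :=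
    int_cs ((lap_sm hF).mul hq).continuous hlaps.mul_right
  have i3 : Integrable (fun x => q x ^ 2) := by
    refine int_cs (hq.pow 2).continuous ?_
    have e : (fun y => q y ^ 2) = fun y => q y * q y := by
      funext y
      ring
    rw [e]
    exact hqs.mul_right
  have i4 : Integrable (fun x => lap F x ^ 2 + 4 * (lap F x * q x) + 4 * q x ^ 2) :=
    (i1.add (i2.const_mul 4)).add (i3.const_mul 4)
  have i5 : Integrable (fun x => F x * q x) := int_cs (hF.mul hq).continuous hs.mul_right
  have i6 : Integrable (fun x => F x * lap F x) :=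
    int_cs (hF.mul (lap_sm hF)).continuous hs.mul_right
  have ae1 : (fun x => lap F x ^ 2 + 4 * (lap F x * q x) + 4 * q x ^ 2)
      =ᵐ[volume] fun x => LL F x ^ 2 := by
    filter_upwards [axis_ae] with x hx
    rw [LL_off hqR hx]
    ring
  refine ⟨i4.congr ae1, ?_, ?_⟩
  · rw [← integral_congr_ae ae1]
    have E1 := integral_add (i1.add (i2.const_mul 4)) (i3.const_mul 4)
    have E2 := integral_add i1 (i2.const_mul 4)
    simp only [Pi.add_apply] at E1 E2
    rw [E1, E2, integral_const_mul, integral_const_mul]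
    have hL : ∫ x, lap F x ^ 2 = HD F := by
      have := Z3.2
      rw [integral_sub i1 (hs2_int hF hs)] at this
      unfold HD
      linarith
    have hlq : ∫ x, lap F x * q x = (∫ x, q x ^ 2) - ∫ x, pd 2 q x * pd 2 F x := by
      have i7 : Integrable (fun x => pd 2 q x * pd 2 F x) :=
        int_cs ((sm_pd hq 2).mul (hdf 2)).continuous (hdfs 2).mul_left
      have e : ∀ x, lap F x * q x = ((q x ^ 2 + q x * RR q x)
          + (q x * pd 2 (pd 2 F) x + pd 2 q x * pd 2 F x))
          + (q x ^ 2 - pd 2 q x * pd 2 F x) := by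
        intro x
        rw [hlap]
        ring
      rw [integral_congr_ae (Eventually.of_forall e)]
      have k1 := integral_add (Z1.add Z2).1 (i3.sub i7)
      have k2 := integral_sub i3 i7
      simp only [Pi.sub_apply] at k1 k2
      rw [k1, (Z1.add Z2).2, k2, zero_add]
    have hq2 : 0 ≤ ∫ x, q x ^ 2 := integral_nonneg fun x => sq_nonneg _
    rw [hL, hlq]
    linarith
  · have ae2 : (fun x => F x * lap F x + 2 * (F x * q x)) =ᵐ[volume] fun x => F x * LL F x := by
      filter_upwards [axis_ae] with x hx
      rw [LL_off hqR hx]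
      ring
    rw [← integral_congr_ae ae2, integral_add i6 (i5.const_mul 2), integral_const_mul]
    have h5 := Z4.2
    rw [integral_add i6 (gr2_int hF hs)] at h5
    have h6 : GD F = ∫ x, gr2 F x := rfl
    rw [h6]
    linarith

end Pool.Agent.Q175.AX
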