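import Pool.Agent.Q175.AX.Com

/-! AXI-HAR: Hardy inequality with logarithm (helper175). -/

set_option autoImplicit false

open MeasureTheory Set Metric Filter Topology
open scoped ContDiff
open H459R3.NS Pool.Agent.W268.NS Pool.Agent.Q67.VD

namespace Pool.Agent.Q175.AX

open Pool.Agent.Q85.CC Pool.Agent.Q85.CL Pool.Agent.TH305.AX Pool.Agent.Q67.AXI
open Pool.Agent.W583.MD (sm_pd cs_pd pd_mul' Z Z.add Z.sub Z.smul Z.sum int_cs Z_pd)
open Pool.Agent.TH305.DR (pd_add' pd_sub' pd_neg' pd_cmul pd_const')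

lemma har_e {F : V → ℝ} (hF : ContDiff ℝ 1 F) (hs : HasCompactSupport F)
    (hsup : ∀ x, F x ≠ 0 → sg x ≤ Real.exp (-2)) {e : ℝ} (he : 0 < e) (he1 : e ≤ 1 / 2) :
    Integrable (fun x => F x ^ 2 * (sg x / ((sg x + e) ^ 2 * Real.log (sg x + e) ^ 2))) ∧
    ∫ x, F x ^ 2 * (sg x / ((sg x + e) ^ 2 * Real.log (sg x + e) ^ 2))
      ≤ ∫ x, (pd 0 F x ^ 2 + pd 1 F x ^ 2) := by
  have hts : ∀ x ∈ tsupport F, sg x ≤ Real.exp (-2) := by
    have hc : IsClosed {x : V | sg x ≤ Real.exp (-2)} :=
      isClosed_le sg_cd.continuous continuous_const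
    intro x hx
    exact hc.closure_subset_iff.2 (fun y hy => hsup y hy) hx
  have hexp : Real.exp (-2) < 1 / 2 := by
    have h1 : (3 : ℝ) ≤ Real.exp 2 := by
      have := Real.add_one_le_exp (2 : ℝ)
      linarith
    rw [Real.exp_neg]
    have h2 : (Real.exp 2)⁻¹ ≤ 3⁻¹ := inv_anti₀ (by norm_num) h1
    linarith
  -- the function `1 / (a l)`
  obtain ⟨k, hk⟩ : ∃ k : ℝ → ℝ, k = fun s => -(1 / ((s + e) * Real.log (s + e))) := ⟨_, rfl⟩
  have hdom : ∀ s, 0 ≤ s → s ≤ Real.exp (-2) → 0 < s + e ∧ s + e < 1 ∧ Real.log (s + e) < 0 := by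
    intro s h0 h1
    have h2 : 0 < s + e := by linarith
    have h3 : s + e < 1 := by linarith
    exact ⟨h2, h3, Real.log_neg h2 h3⟩
  have hkd : ∀ s, 0 ≤ s → s ≤ Real.exp (-2) → HasDerivAt k
      ((Real.log (s + e) + 1) / ((s + e) * Real.log (s + e)) ^ 2) s := by
    intro s h0 h1
    obtain ⟨h2, h3, h4⟩ := hdom s h0 h1
    have h5 : HasDerivAt (fun s : ℝ => s + e) 1 s := (hasDerivAt_id s).add_const e
    have h6 : HasDerivAt (fun s : ℝ => (s + e) * Real.log (s + e)) _ s :=
      h5.mul (h5.log h2.ne')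
    have h7 : (s + e) * Real.log (s + e) ≠ 0 := mul_ne_zero h2.ne' h4.ne
    have h8 := ((hasDerivAt_const s (1 : ℝ)).div h6 h7).neg
    rw [hk]
    refine h8.congr_deriv ?_
    field_simp
    ring
  have hkc : ∀ x ∈ tsupport F, ContDiffAt ℝ 1 (fun y => k (sg y)) x := by
    intro x hx
    obtain ⟨h2, h3, h4⟩ := hdom (sg x) (sg_nn x) (hts x hx)
    rw [hk]
    have h5 : ContDiffAt ℝ 1 (fun y => sg y + e) x :=
      (sg_cd.contDiffAt.of_le (by norm_cast)).add contDiffAt_const
    exact (contDiffAt_const.div (h5.mul (h5.log h2.ne')) (mul_ne_zero h2.ne' h4.ne)).neg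
  -- the vector field
  have hW : ∀ i : Fin 3, ContDiff ℝ 1 (fun y => F y ^ 2 * (y i * k (sg y))) := by
    intro i
    refine cd_ts fun x hx => ?_
    have hx' : x ∈ tsupport F := by
      refine closure_mono ?_ hx
      intro y hy hF0
      apply hy
      show F y ^ 2 * (y i * k (sg y)) = 0
      rw [hF0]
      ring
    exact (hF.contDiffAt.pow 2).mul (((sm_crd i).contDiffAt.of_le (by norm_cast)).mul (hkc x hx'))
  have hWs : ∀ i : Fin 3, HasCompactSupport (fun y => F y ^ 2 * (y i * k (sg y))) := by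
    intro i
    refine HasCompactSupport.of_support_subset_isCompact hs fun y hy => subset_closure ?_
    intro hF0
    apply hy
    show F y ^ 2 * (y i * k (sg y)) = 0
    rw [hF0]
    ring
  have hZ := (Z_pd1 (hW 0) (hWs 0) 0).add (Z_pd1 (hW 1) (hWs 1) 1)
  -- pointwise formula
  have hpt : ∀ x, pd 0 (fun y => F y ^ 2 * (y 0 * k (sg y))) x
      + pd 1 (fun y => F y ^ 2 * (y 1 * k (sg y))) x
      = 2 * F x * RR F x * k (sg x) + F x ^ 2 * (2 * k (sg x)
        + 2 * sg x * ((Real.log (sg x + e) + 1) / ((sg x + e) * Real.log (sg x + e)) ^ 2)) := by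
    intro x
    by_cases hx : x ∈ tsupport F
    · have hd := hkd (sg x) (sg_nn x) (hts x hx)
      have dF : DifferentiableAt ℝ F x := hF.differentiable one_ne_zero x
      have dF2 : DifferentiableAt ℝ (fun y => F y ^ 2) x := dF.pow 2
      have dk : DifferentiableAt ℝ (fun y => k (sg y)) x :=
        (hkc x hx).differentiableAt one_ne_zero
      have dx : ∀ i : Fin 3, DifferentiableAt ℝ (fun y : V => y i) x := fun i =>
        (sm_crd i).differentiable (by norm_cast) x
      have e1 : ∀ i j : Fin 3, pd j (fun y => F y ^ 2 * (y i * k (sg y))) x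
          = F x ^ 2 * (x i * (((Real.log (sg x + e) + 1)
            / ((sg x + e) * Real.log (sg x + e)) ^ 2) * pd j sg x)
            + (if i = j then 1 else 0) * k (sg x))
            + (2 * F x * pd j F x) * (x i * k (sg x)) := by
        intro i j
        have q1 := pd_mul_at (f := fun y : V => F y ^ 2) (g := fun y : V => y i * k (sg y)) dF2
          ((dx i).mul dk) j
        rw [q1, pd_mul_at (dx i) dk, pd_comp_at hd (sg_cd.differentiable (by norm_cast) x)]
        have e2 : pd j (fun y => F y ^ 2) x = 2 * F x * pd j F x := by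
          have h1 : HasDerivAt (fun s : ℝ => s ^ 2) (2 * F x) (F x) := by
            simpa using hasDerivAt_pow 2 (F x)
          exact pd_comp_at h1 dF j
        rw [e2, pd_crd]
      rw [e1, e1, pd_sg, pd_sg]
      unfold RR sg
      simp
      ring
    · have h0 : F x = 0 := by
        by_contra hcon
        exact hx (subset_closure hcon)
      have h1 : ∀ i j : Fin 3, pd j (fun y => F y ^ 2 * (y i * k (sg y))) x = 0 := by
        intro i j
        have hev : (fun y => F y ^ 2 * (y i * k (sg y))) =ᶠ[𝓝 x] fun _ => 0 := by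
          filter_upwards [cs_zero hx] with y hy
          rw [hy]
          ring
        rw [pd_ev hev, pd_const']
      rw [h1, h1, h0]
      ring
  -- integrability of the continuous function
  obtain ⟨P, hP⟩ : ∃ P : V → ℝ, P = fun x =>
      F x ^ 2 * (sg x / ((sg x + e) ^ 2 * Real.log (sg x + e) ^ 2)) := ⟨_, rfl⟩
  have hPc : Continuous P := by
    rw [continuous_iff_continuousAt]
    intro x
    by_cases hx : x ∈ tsupport F
    · obtain ⟨h2, h3, h4⟩ := hdom (sg x) (sg_nn x) (hts x hx)
      have hs' : ContinuousAt sg x := sg_cd.continuous.continuousAt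
      have h5 : ContinuousAt (fun y => sg y + e) x := hs'.add continuousAt_const
      have h6 : ContinuousAt (fun y => Real.log (sg y + e)) x := h5.log h2.ne'
      rw [hP]
      exact (hF.continuous.continuousAt.pow 2).mul (hs'.div ((h5.pow 2).mul (h6.pow 2))
        (mul_ne_zero (pow_ne_zero 2 h2.ne') (pow_ne_zero 2 h4.ne)))
    · have : P =ᶠ[𝓝 x] fun _ => 0 := by
        filter_upwards [cs_zero hx] with y hy
        rw [hP]
        show F y ^ 2 * _ = 0
        rw [hy]
        ring
      exact continuousAt_const.congr this.symm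
  have hPs : HasCompactSupport P := by
    refine HasCompactSupport.of_support_subset_isCompact hs fun y hy => subset_closure ?_
    intro hF0
    apply hy
    rw [hP]
    show F y ^ 2 * _ = 0
    rw [hF0]
    ring
  have hPi : Integrable P := int_cs hPc hPs
  have hGi : Integrable (fun x => pd 0 F x ^ 2 + pd 1 F x ^ 2) := by
    refine int_cs (((pd1_cont hF 0).pow 2).add ((pd1_cont hF 1).pow 2)) ?_
    have h0 := cs_pd hs 0
    have h1 := cs_pd hs 1
    refine HasCompactSupport.of_support_subset_isCompact hs fun y hy => ?_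
    by_contra hcon
    apply hy
    show pd 0 F y ^ 2 + pd 1 F y ^ 2 = 0
    rw [pd_ev (cs_zero hcon), pd_ev (cs_zero hcon), pd_const', pd_const']
    ring
  have hgoal : ∫ x, P x ≤ ∫ x, (pd 0 F x ^ 2 + pd 1 F x ^ 2) := by
    have h1 : ∫ x, 2 * P x ≤ ∫ x, ((P x + (pd 0 F x ^ 2 + pd 1 F x ^ 2))
        + (pd 0 (fun y => F y ^ 2 * (y 0 * k (sg y))) x
          + pd 1 (fun y => F y ^ 2 * (y 1 * k (sg y))) x)) := by
      refine integral_mono (hPi.const_mul 2) ((hPi.add hGi).add hZ.1) fun x => ?_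
      show 2 * P x ≤ (P x + (pd 0 F x ^ 2 + pd 1 F x ^ 2)) + _
      rw [hpt]
      by_cases hx : x ∈ tsupport F
      · obtain ⟨h2, h3, h4⟩ := hdom (sg x) (sg_nn x) (hts x hx)
        have hPx : P x = F x ^ 2 * (sg x / ((sg x + e) ^ 2 * Real.log (sg x + e) ^ 2)) := by
          rw [hP]
        have hRR := RR_sq F x
        have hsg := sg_nn x
        obtain ⟨a, ha⟩ : ∃ a, a = sg x + e := ⟨_, rfl⟩
        obtain ⟨L, hL⟩ : ∃ L, L = Real.log (sg x + e) := ⟨_, rfl⟩
        have hkx : k (sg x) = -(1 / (a * L)) := by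
          rw [hk, hL, ha]
        rw [hPx, hkx, ← hL, ← ha]
        rw [← hL] at h4
        rw [← ha] at h2
        have hes : e = a - sg x := by rw [ha]; ring
        -- main algebra
        have e1 : F x ^ 2 * (2 * -(1 / (a * L)) + 2 * sg x * ((L + 1) / (a * L) ^ 2))
            = F x ^ 2 * (2 * sg x / (a ^ 2 * L ^ 2)) + F x ^ 2 * (-(2 * e) / (a ^ 2 * L)) := by
          rw [hes]
          field_simp
          ring
        have e2 : 0 ≤ F x ^ 2 * (-(2 * e) / (a ^ 2 * L)) := by
          refine mul_nonneg (sq_nonneg _) (div_nonneg_of_nonpos (by linarith) ?_)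
          exact (mul_neg_of_pos_of_neg (by positivity) h4).le
        obtain ⟨w, hw⟩ : ∃ w, w = -(1 / (a * L)) := ⟨_, rfl⟩
        have e3 : sg x / (a ^ 2 * L ^ 2) = sg x * w ^ 2 := by
          rw [hw]
          field_simp
        have e4 : 2 * sg x / (a ^ 2 * L ^ 2) = 2 * (sg x * w ^ 2) := by
          rw [← e3]
          ring
        have e5 : 0 ≤ F x ^ 2 * (sg x * w ^ 2) + (pd 0 F x ^ 2 + pd 1 F x ^ 2)
            + 2 * F x * RR F x * w := by
          by_cases hs0 : sg x = 0
          · have h7 : RR F x = 0 := by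
              have : RR F x ^ 2 ≤ 0 := by
                rw [hs0, zero_mul] at hRR
                exact hRR
              nlinarith [sq_nonneg (RR F x)]
            rw [h7, hs0]
            nlinarith [sq_nonneg (pd 0 F x), sq_nonneg (pd 1 F x)]
          · have hsp : 0 < sg x := lt_of_le_of_ne hsg (Ne.symm hs0)
            have h8 : RR F x ^ 2 / sg x ≤ pd 0 F x ^ 2 + pd 1 F x ^ 2 := by
              rw [div_le_iff₀ hsp]
              linarith
            have h9 : 0 ≤ F x ^ 2 * (sg x * w ^ 2) + RR F x ^ 2 / sg x + 2 * F x * RR F x * w := by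
              have : F x ^ 2 * (sg x * w ^ 2) + RR F x ^ 2 / sg x + 2 * F x * RR F x * w
                  = (F x * w * sg x + RR F x) ^ 2 / sg x := by
                field_simp
                ring
              rw [this]
              positivity
            linarith
        rw [← hw] at e1 ⊢
        rw [e1, e3, e4]
        nlinarith
      · have h0 : F x = 0 := by
          by_contra hcon
          exact hx (subset_closure hcon)
        have hPx : P x = 0 := by
          rw [hP]
          show F x ^ 2 * _ = 0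
          rw [h0]
          ring
        rw [hPx, h0]
        nlinarith [sq_nonneg (pd 0 F x), sq_nonneg (pd 1 F x)]
    have hPG : Integrable (fun x => P x + (pd 0 F x ^ 2 + pd 1 F x ^ 2)) := hPi.add hGi
    rw [integral_add hPG hZ.1, hZ.2, integral_add hPi hGi, integral_const_mul] at h1
    linarith
  rw [hP] at hPi hgoal
  exact ⟨hPi, hgoal⟩

theorem har : StmHar := by
  intro F hF hs hsup
  obtain ⟨en, hen⟩ : ∃ en : ℕ → ℝ, en = fun n : ℕ => 1 / ((n : ℝ) + 2) := ⟨_, rfl⟩
  have hen0 : ∀ n, 0 < en n ∧ en n ≤ 1 / 2 := by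
    intro n
    rw [hen]
    have h1 : (0 : ℝ) ≤ n := Nat.cast_nonneg n
    constructor
    · show 0 < 1 / ((n : ℝ) + 2)
      positivity
    · show 1 / ((n : ℝ) + 2) ≤ 1 / 2
      exact one_div_le_one_div_of_le (by norm_num) (by linarith)
  have hent : Tendsto en atTop (𝓝 0) := by
    rw [hen]
    have h1 : Tendsto (fun n : ℕ => (n : ℝ) + 2) atTop atTop :=
      tendsto_atTop_add_const_right _ _ tendsto_natCast_atTop_atTop
    exact (tendsto_const_nhds (x := (1 : ℝ))).div_atTop h1
  obtain ⟨G, hG⟩ : ∃ G : ℝ, G = ∫ x, (pd 0 F x ^ 2 + pd 1 F x ^ 2) := ⟨_, rfl⟩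
  have hG0 : 0 ≤ G := by
    rw [hG]
    exact integral_nonneg fun x => by positivity
  obtain ⟨f, hf⟩ : ∃ f : ℕ → V → ℝ, f = fun n x =>
      F x ^ 2 * (sg x / ((sg x + en n) ^ 2 * Real.log (sg x + en n) ^ 2)) := ⟨_, rfl⟩
  obtain ⟨g, hg⟩ : ∃ g : V → ℝ, g = fun x => F x ^ 2 / (sg x * Real.log (sg x) ^ 2) := ⟨_, rfl⟩
  have hfi : ∀ n, Integrable (f n) ∧ ∫ x, f n x ≤ G := by
    intro n
    rw [hf, hG]
    exact har_e hF hs hsup (hen0 n).1 (hen0 n).2
  have hf0 : ∀ n x, 0 ≤ f n x := by
    intro n x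
    rw [hf]
    have := sg_nn x
    show 0 ≤ F x ^ 2 * _
    positivity
  have hg0 : ∀ x, 0 ≤ g x := by
    intro x
    rw [hg]
    have := sg_nn x
    show 0 ≤ F x ^ 2 / _
    positivity
  have hexp : Real.exp (-2) < 1 := by
    rw [Real.exp_lt_one_iff]
    norm_num
  have hlim : ∀ x, Tendsto (fun n => f n x) atTop (𝓝 (g x)) := by
    intro x
    rw [hf, hg]
    show Tendsto (fun n => F x ^ 2 * (sg x / ((sg x + en n) ^ 2 * Real.log (sg x + en n) ^ 2)))
      atTop (𝓝 (F x ^ 2 / (sg x * Real.log (sg x) ^ 2)))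
    by_cases hF0 : F x = 0
    · simp [hF0]
    by_cases hs0 : sg x = 0
    · simp [hs0]
    · have hsp : 0 < sg x := lt_of_le_of_ne (sg_nn x) (Ne.symm hs0)
      have hs1 : sg x < 1 := (hsup x hF0).trans_lt hexp
      have hl : Real.log (sg x) ≠ 0 := (Real.log_neg hsp hs1).ne
      have h1 : Tendsto (fun n => sg x + en n) atTop (𝓝 (sg x)) := by
        simpa using hent.const_add (sg x)
      have h2 : Tendsto (fun n => Real.log (sg x + en n)) atTop (𝓝 (Real.log (sg x))) :=
        (Real.continuousAt_log hs0).tendsto.comp h1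
      have h3 : Tendsto (fun n => F x ^ 2 * (sg x / ((sg x + en n) ^ 2
          * Real.log (sg x + en n) ^ 2))) atTop
          (𝓝 (F x ^ 2 * (sg x / (sg x ^ 2 * Real.log (sg x) ^ 2)))) :=
        ((tendsto_const_nhds (x := sg x)).div ((h1.pow 2).mul (h2.pow 2))
          (mul_ne_zero (pow_ne_zero 2 hs0) (pow_ne_zero 2 hl))).const_mul _
      have e : F x ^ 2 * (sg x / (sg x ^ 2 * Real.log (sg x) ^ 2))
          = F x ^ 2 / (sg x * Real.log (sg x) ^ 2) := by
        field_simp
      rw [e] at h3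
      exact h3
  have hgm : AEStronglyMeasurable g volume :=
    aestronglyMeasurable_of_tendsto_ae (f := f) (g := g) atTop
      (fun n => (hfi n).1.aestronglyMeasurable) (Eventually.of_forall hlim)
  have hlint : ∫⁻ x, ENNReal.ofReal (g x) ≤ ENNReal.ofReal G := by
    have h1 : ∀ x, ENNReal.ofReal (g x) = liminf (fun n => ENNReal.ofReal (f n x)) atTop := by
      intro x
      exact ((ENNReal.continuous_ofReal.tendsto _).comp (hlim x)).liminf_eq.symm
    simp_rw [h1]
    refine (lintegral_liminf_le' fun n =>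
      (hfi n).1.aestronglyMeasurable.aemeasurable.ennreal_ofReal).trans ?_
    refine liminf_le_of_frequently_le' ?_
    refine Frequently.of_forall fun n => ?_
    rw [← ofReal_integral_eq_lintegral_ofReal (hfi n).1 (Eventually.of_forall (hf0 n))]
    exact ENNReal.ofReal_le_ofReal (hfi n).2
  have hgi : Integrable g := by
    refine ⟨hgm, ?_⟩
    rw [hasFiniteIntegral_iff_ofReal (Eventually.of_forall hg0)]
    exact hlint.trans_lt ENNReal.ofReal_lt_top
  rw [← hG]
  have hfin : ∫ x, g x ≤ G := by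
    rw [integral_eq_lintegral_of_nonneg_ae (Eventually.of_forall hg0) hgm]
    exact ENNReal.toReal_le_of_le_ofReal hG0 hlint
  rw [hg] at hgi hfin
  exact ⟨hgi, hfin⟩

end Pool.Agent.Q175.AX
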