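import Pool.Agent.Q175.AX.Yd

/-! AXI-LOG: the logarithmic bound of the circulation (helper175). -/

set_option autoImplicit false

open MeasureTheory Set Metric Filter Topology
open scoped ContDiff
open H459R3.NS Pool.Agent.W268.NS Pool.Agent.Q67.VD

namespace Pool.Agent.Q175.AX

open Pool.Agent.Q85.CC Pool.Agent.Q85.CL Pool.Agent.TH305.AX Pool.Agent.Q67.AXI

/-- `s ≤ c |log s|^(-α)`. -/
lemma s_log (α : ℝ) (hα : 0 < α) : ∃ c0 : ℝ, 0 < c0 ∧ ∀ s : ℝ, 0 < s → s < 1 →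
    s ≤ c0 * |Real.log s| ^ (-α) := by
  obtain ⟨n, hn⟩ := exists_nat_ge α
  refine ⟨1 + (n.factorial : ℝ), by positivity, fun s h0 h1 => ?_⟩
  have hl0 : Real.log s < 0 := Real.log_neg h0 h1
  obtain ⟨l, hl⟩ : ∃ l, l = |Real.log s| := ⟨_, rfl⟩
  have hl1 : l = -Real.log s := by rw [hl, abs_of_neg hl0]
  have hlp : 0 < l := by rw [hl1]; linarith
  have hs : s = Real.exp (-l) := by rw [hl1, neg_neg, Real.exp_log h0]
  rw [← hl, Real.rpow_neg hlp.le, ← div_eq_mul_inv, le_div_iff₀ (Real.rpow_pos_of_pos hlp _)]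
  have h2 : l ^ α ≤ 1 + l ^ n := by
    by_cases hc : l ≤ 1
    · have h3 : l ^ α ≤ 1 := Real.rpow_le_one hlp.le hc hα.le
      have h4 : 0 ≤ l ^ n := by positivity
      linarith
    · push Not at hc
      have h3 : l ^ α ≤ l ^ (n : ℝ) := Real.rpow_le_rpow_of_exponent_le hc.le hn
      rw [Real.rpow_natCast] at h3
      linarith
  have h3 : l ^ n ≤ (n.factorial : ℝ) * Real.exp l := by
    have h4 := Real.pow_div_factorial_le_exp l hlp.le n
    rw [div_le_iff₀ (by positivity)] at h4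
    linarith
  have h4 : Real.exp (-l) * Real.exp l = 1 := by
    rw [← Real.exp_add, neg_add_cancel, Real.exp_zero]
  have h5 : Real.exp (-l) ≤ 1 := by
    rw [Real.exp_le_one_iff]
    linarith
  have h6 := Real.exp_pos (-l)
  rw [hs]
  calc Real.exp (-l) * l ^ α ≤ Real.exp (-l) * (1 + (n.factorial : ℝ) * Real.exp l) := by
        refine mul_le_mul_of_nonneg_left ?_ h6.le
        linarith
    _ = Real.exp (-l) + n.factorial * (Real.exp (-l) * Real.exp l) := by ring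
    _ ≤ 1 + n.factorial := by
        rw [h4]
        linarith

/-- The barrier with logarithm and its derivatives. -/
lemma kap_d {b : ℝ → ℝ} {b' t C1 α : ℝ} (hb : HasDerivAt b b' t) {s : ℝ} (hs : 0 < s)
    (hL : 0 < -Real.log s + 2 * b t) :
    HasDerivAt (fun τ => C1 * (-Real.log s + 2 * b τ) ^ (-α))
      (C1 * (-α * (-Real.log s + 2 * b t) ^ (-α - 1) * (2 * b'))) t ∧
    HasDerivAt (fun σ => C1 * (-Real.log σ + 2 * b t) ^ (-α))
      (C1 * (α * (-Real.log s + 2 * b t) ^ (-α - 1) * s⁻¹)) s ∧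
    HasDerivAt (fun σ => C1 * (α * (-Real.log σ + 2 * b t) ^ (-α - 1) * σ⁻¹))
      (C1 * (α * ((α + 1) * (-Real.log s + 2 * b t) ^ (-α - 2) * s⁻¹ * s⁻¹
        - (-Real.log s + 2 * b t) ^ (-α - 1) * (s ^ 2)⁻¹))) s := by
  have h1 : HasDerivAt (fun τ => -Real.log s + 2 * b τ) (2 * b') t :=
    (hb.const_mul 2).const_add _
  have h2 : HasDerivAt (fun σ => -Real.log σ + 2 * b t) (-s⁻¹) s :=
    ((Real.hasDerivAt_log hs.ne').neg).add_const _
  refine ⟨?_, ?_, ?_⟩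
  · refine ((h1.rpow_const (p := -α) (Or.inl hL.ne')).const_mul C1).congr_deriv ?_
    ring
  · refine ((h2.rpow_const (p := -α) (Or.inl hL.ne')).const_mul C1).congr_deriv ?_
    ring
  · have h3 := (((h2.rpow_const (p := -α - 1) (Or.inl hL.ne')).const_mul α).mul
      (hasDerivAt_inv hs.ne')).const_mul C1
    refine h3.congr_deriv ?_
    have e : -α - 1 - 1 = -α - 2 := by ring
    rw [e]
    ring

theorem stmLog (hAlg : StmAlg) (hBar : StmBar) : StmLog := by
  intro T E c R H r h T₁ K u p B α α' C hu hr hrR hr1 hh hhH hT1 hTT hbd hBc hBi hα' hαα hC hmain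
  -- the integral of `|B|`
  obtain ⟨b, hb⟩ : ∃ b : ℝ → ℝ, b = fun t => ∫ s in t..T, |B s| := ⟨_, rfl⟩
  have hBii : ∀ t ∈ Ioo 0 T, IntervalIntegrable (fun s => |B s|) volume t T := by
    intro t ht
    rw [intervalIntegrable_iff_integrableOn_Ioo_of_le ht.2.le]
    have h0 : IntegrableOn (fun s => |B s|) (Ioo 0 T) := hBi.abs
    exact h0.mono_set (Ioo_subset_Ioo_left ht.1.le)
  have hbd' : ∀ t ∈ Ioo 0 T, HasDerivAt b (-|B t|) t := by
    intro t ht
    rw [hb]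
    refine intervalIntegral.integral_hasDerivAt_left (hBii t ht) ?_ ?_
    · exact (hBc.abs).stronglyMeasurableAtFilter isOpen_Ioo t ht
    · exact (hBc.continuousAt (isOpen_Ioo.mem_nhds ht)).abs
  have hb0 : ∀ t ∈ Ioo 0 T, 0 ≤ b t := by
    intro t ht
    rw [hb]
    exact intervalIntegral.integral_nonneg ht.2.le fun s _ => abs_nonneg _
  have hT1m : T₁ ∈ Ioo 0 T := ⟨hT1, hTT⟩
  have hbm : ∀ t ∈ Ico T₁ T, b t ≤ b T₁ := by
    intro t ht
    have ht' : t ∈ Ioo 0 T := ⟨hT1.trans_le ht.1, ht.2⟩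
    have hii : IntervalIntegrable (fun s => |B s|) volume T₁ t :=
      (hBii T₁ hT1m).mono_set (by
        rw [uIcc_of_le hTT.le, uIcc_of_le ht.1]
        exact Icc_subset_Icc_right ht.2.le)
    have h2 := intervalIntegral.integral_add_adjacent_intervals hii (hBii t ht')
    have h3 : 0 ≤ ∫ s in T₁..t, |B s| :=
      intervalIntegral.integral_nonneg ht.1 fun s _ => abs_nonneg _
    rw [hb]
    show ∫ s in t..T, |B s| ≤ ∫ s in T₁..T, |B s|
    linarith
  -- constants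
  obtain ⟨lam, hlam⟩ : ∃ lam : ℝ, lam = -Real.log (r ^ 2) := ⟨_, rfl⟩
  have hr2 : r ^ 2 < 1 := by nlinarith
  have hr20 : 0 < r ^ 2 := by positivity
  have hlam0 : 0 < lam := by
    rw [hlam]
    linarith [Real.log_neg hr20 hr2]
  have hlog : ∀ s ∈ Ioc 0 (r ^ 2), lam ≤ -Real.log s ∧ |Real.log s| = -Real.log s := by
    intro s hs
    have h2 := Real.log_le_log hs.1 hs.2
    refine ⟨by rw [hlam]; linarith, abs_of_nonpos ?_⟩
    have := Real.log_neg hr20 hr2
    linarith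
  obtain ⟨q, hq⟩ : ∃ q : ℝ, q = 1 + 2 * b T₁ / lam := ⟨_, rfl⟩
  have hbT1 := hb0 T₁ hT1m
  have hq1 : 1 ≤ q := by
    rw [hq]
    have : 0 ≤ 2 * b T₁ / lam := by positivity
    linarith
  have hqp : 0 < q ^ α' := Real.rpow_pos_of_pos (by linarith) _
  obtain ⟨c0, hc0, hc0'⟩ := s_log α' hα'
  -- bounds of `L`
  have hL : ∀ t ∈ Ico T₁ T, ∀ s ∈ Ioc 0 (r ^ 2), |Real.log s| ≤ -Real.log s + 2 * b t ∧
      -Real.log s + 2 * b t ≤ |Real.log s| * q ∧ 0 < |Real.log s| := by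
    intro t ht s hs
    obtain ⟨l1, l2⟩ := hlog s hs
    have ht' : t ∈ Ioo 0 T := ⟨hT1.trans_le ht.1, ht.2⟩
    have h2 := hb0 t ht'
    have h3 := hbm t ht
    rw [l2]
    refine ⟨by linarith, ?_, by linarith⟩
    rw [hq, mul_add, mul_one]
    have h4 : 2 * b T₁ ≤ -Real.log s * (2 * b T₁ / lam) := by
      rw [mul_div_assoc', le_div_iff₀ hlam0]
      nlinarith
    linarith
  -- comparison of the powers
  have hpow : ∀ t ∈ Ico T₁ T, ∀ s ∈ Ioc 0 (r ^ 2),
      |Real.log s| ^ (-α') ≤ q ^ α' * (-Real.log s + 2 * b t) ^ (-α') := by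
    intro t ht s hs
    obtain ⟨l1, l2, l3⟩ := hL t ht s hs
    have hLp : 0 < -Real.log s + 2 * b t := l3.trans_le l1
    have h2 : (|Real.log s| * q) ^ (-α') ≤ (-Real.log s + 2 * b t) ^ (-α') :=
      Real.rpow_le_rpow_of_nonpos hLp l2 (by linarith)
    rw [Real.mul_rpow l3.le (by linarith), Real.rpow_neg (by linarith : (0 : ℝ) ≤ q)] at h2
    have h3 := mul_le_mul_of_nonneg_left h2 hqp.le
    calc |Real.log s| ^ (-α') = q ^ α' * (|Real.log s| ^ (-α') * (q ^ α')⁻¹) := by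
          field_simp
      _ ≤ _ := h3
  -- bound at the initial time
  have hs0 : ContDiff ℝ ∞ (u T₁) := slice_V hu.smooth_u hT1m
  obtain ⟨⟨-, sW, -, -⟩, -, -, hal0⟩ := hAlg (u T₁) hs0 (hu.axi T₁ hT1m)
  obtain ⟨K2, hK2⟩ := (Cy_compact (c := c) (h := h) hr.le).exists_bound_of_continuousOn
    sW.continuous.continuousOn
  obtain ⟨C1, hC1⟩ : ∃ C1 : ℝ, C1 = 1 + C * lam ^ (-(α - α')) * q ^ α' + |K| * c0 * q ^ α'
      + |K2| * c0 * q ^ α' := ⟨_, rfl⟩
  have hlp : 0 < lam ^ (-(α - α')) := Real.rpow_pos_of_pos hlam0 _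
  have hC11 : 1 ≤ C1 := by
    rw [hC1]
    have : 0 ≤ C * lam ^ (-(α - α')) * q ^ α' := by positivity
    have : 0 ≤ |K| * c0 * q ^ α' := by positivity
    have : 0 ≤ |K2| * c0 * q ^ α' := by positivity
    linarith
  have hC1a : C * lam ^ (-(α - α')) * q ^ α' ≤ C1 := by
    rw [hC1]
    have : 0 ≤ |K| * c0 * q ^ α' := by positivity
    have : 0 ≤ |K2| * c0 * q ^ α' := by positivity
    linarith
  have hC1b : |K| * c0 * q ^ α' ≤ C1 := by
    rw [hC1]
    have : 0 ≤ C * lam ^ (-(α - α')) * q ^ α' := by positivity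
    have : 0 ≤ |K2| * c0 * q ^ α' := by positivity
    linarith
  have hC1c : |K2| * c0 * q ^ α' ≤ C1 := by
    rw [hC1]
    have : 0 ≤ C * lam ^ (-(α - α')) * q ^ α' := by positivity
    have : 0 ≤ |K| * c0 * q ^ α' := by positivity
    linarith
  -- linear functions are below the barrier
  have hlin : ∀ k : ℝ, |k| * c0 * q ^ α' ≤ C1 → ∀ t ∈ Ico T₁ T, ∀ s ∈ Ioc 0 (r ^ 2),
      |k| * s ≤ C1 * (-Real.log s + 2 * b t) ^ (-α') := by
    intro k hk t ht s hs
    obtain ⟨l1, l2, l3⟩ := hL t ht s hs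
    have hLp : 0 < -Real.log s + 2 * b t := l3.trans_le l1
    have h2 := hc0' s hs.1 (hs.2.trans_lt hr2)
    have h3 := hpow t ht s hs
    have h4 : 0 ≤ (-Real.log s + 2 * b t) ^ (-α') := Real.rpow_nonneg hLp.le _
    calc |k| * s ≤ |k| * (c0 * |Real.log s| ^ (-α')) :=
          mul_le_mul_of_nonneg_left h2 (abs_nonneg _)
      _ ≤ |k| * (c0 * (q ^ α' * (-Real.log s + 2 * b t) ^ (-α'))) := by gcongr
      _ = |k| * c0 * q ^ α' * (-Real.log s + 2 * b t) ^ (-α') := by ring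
      _ ≤ C1 * (-Real.log s + 2 * b t) ^ (-α') := mul_le_mul_of_nonneg_right hk h4
  have hC10 : 0 < C1 := by linarith
  -- the barrier
  have key := hBar T E c R H r h T₁ T u p
    (fun t s => C1 * (-Real.log s + 2 * b t) ^ (-α'))
    (fun t s => C1 * (-α' * (-Real.log s + 2 * b t) ^ (-α' - 1) * (2 * -|B t|)))
    (fun t s => C1 * (α' * (-Real.log s + 2 * b t) ^ (-α' - 1) * s⁻¹))
    (fun t s => C1 * (α' * ((α' + 1) * (-Real.log s + 2 * b t) ^ (-α' - 2) * s⁻¹ * s⁻¹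
        - (-Real.log s + 2 * b t) ^ (-α' - 1) * (s ^ 2)⁻¹)))
    hu hr hrR hh hhH hT1 hTT le_rfl ?_ ?_ ?_ ?_ ?_ ?_ ?_ ?_
  · refine ⟨C1, hC10.le, fun t ht x hx hs => (key t ht x hx hs).trans ?_⟩
    have hs' : sg x ∈ Ioc 0 (r ^ 2) := ⟨hs, hx.1⟩
    obtain ⟨l1, l2, l3⟩ := hL t ht (sg x) hs'
    exact mul_le_mul_of_nonneg_left (Real.rpow_le_rpow_of_nonpos l3 l1 (by linarith)) hC10.le
  · -- continuity
    intro z hz
    obtain ⟨hz1, hz2⟩ := hz
    obtain ⟨l1, l2, l3⟩ := hL z.1 hz1 z.2 hz2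
    have hLp : 0 < -Real.log z.2 + 2 * b z.1 := l3.trans_le l1
    have c1 : ContinuousAt (fun z : ℝ × ℝ => Real.log z.2) z :=
      (Real.continuousAt_log hz2.1.ne').comp continuousAt_snd
    have c2 : ContinuousAt (fun z : ℝ × ℝ => b z.1) z :=
      ContinuousAt.comp (f := Prod.fst) (g := b) (x := z)
        (hbd' z.1 ⟨hT1.trans_le hz1.1, hz1.2⟩).continuousAt continuousAt_fst
    have c3 : ContinuousAt (fun z : ℝ × ℝ => -Real.log z.2 + 2 * b z.1) z :=
      c1.neg.add (continuousAt_const.mul c2)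
    exact (continuousAt_const.mul (c3.rpow_const (Or.inl hLp.ne'))).continuousWithinAt
  · -- derivatives
    intro t ht s hs
    have ht' : t ∈ Ico T₁ T := ⟨ht.1.le, ht.2⟩
    obtain ⟨l1, l2, l3⟩ := hL t ht' s ⟨hs.1, hs.2.le⟩
    exact kap_d (hbd' t ⟨hT1.trans ht.1, ht.2⟩) hs.1 (l3.trans_le l1)
  · intro t ht s hs
    have ht' : t ∈ Ico T₁ T := ⟨ht.1.le, ht.2⟩
    obtain ⟨l1, l2, l3⟩ := hL t ht' s ⟨hs.1, hs.2.le⟩
    have hLp : 0 < -Real.log s + 2 * b t := l3.trans_le l1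
    have d1 : ContDiffAt ℝ 2 (fun σ => -Real.log σ + 2 * b t) s :=
      ((Real.contDiffAt_log.2 hs.1.ne').neg).add contDiffAt_const
    exact (contDiffAt_const.mul (d1.rpow_const_of_ne hLp.ne')).contDiffWithinAt
  · intro t ht s hs
    obtain ⟨l1, l2, l3⟩ := hL t ht s hs
    have hLp : 0 < -Real.log s + 2 * b t := l3.trans_le l1
    exact mul_nonneg hC10.le (Real.rpow_nonneg hLp.le _)
  · -- near the axis
    intro T' hT' A
    obtain ⟨c2, hc2, hc2'⟩ := s_log α' hα'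
    obtain ⟨w, hw⟩ : ∃ w : ℝ, w = C1 / (q ^ α' * (|A| + 1) * c2 * 2 ^ α') := ⟨_, rfl⟩
    have h2p : (0 : ℝ) < 2 ^ α' := Real.rpow_pos_of_pos (by norm_num) _
    have hA1 : 0 < |A| + 1 := by positivity
    have hw0 : 0 < w := by rw [hw]; positivity
    refine ⟨w ^ 2, by positivity, fun t ht s hs hsw => ?_⟩
    have ht' : t ∈ Ico T₁ T := ⟨ht.1, ht.2.trans_lt hT'.2⟩
    obtain ⟨l1, l2, l3⟩ := hL t ht' s hs
    have hLp : 0 < -Real.log s + 2 * b t := l3.trans_le l1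
    have hsq0 : 0 < √s := Real.sqrt_pos.2 hs.1
    have hsq1 : √s < 1 := by
      rw [Real.sqrt_lt' one_pos, one_pow]
      exact hs.2.trans_lt hr2
    have hsq2 : √s ≤ w := by
      rw [Real.sqrt_le_left hw0.le]
      exact hsw.le
    have h3 := hc2' (√s) hsq0 hsq1
    have h4 : |Real.log (√s)| = |Real.log s| / 2 := by
      rw [Real.log_sqrt hs.1.le, abs_div, abs_two]
    rw [h4, Real.div_rpow (abs_nonneg _) (by norm_num), Real.rpow_neg (by norm_num : (0 : ℝ) ≤ 2),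
      div_inv_eq_mul] at h3
    have h5 := hpow t ht' s hs
    have hLa : 0 ≤ (-Real.log s + 2 * b t) ^ (-α') := Real.rpow_nonneg hLp.le _
    show A * s ≤ C1 * (-Real.log s + 2 * b t) ^ (-α')
    calc A * s ≤ (|A| + 1) * s := by
          refine mul_le_mul_of_nonneg_right ?_ hs.1.le
          linarith [le_abs_self A]
      _ = (|A| + 1) * (√s * √s) := by rw [Real.mul_self_sqrt hs.1.le]
      _ ≤ (|A| + 1) * (w * (c2 * (|Real.log s| ^ (-α') * 2 ^ α'))) := by gcongr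
      _ ≤ (|A| + 1) * (w * (c2 * (q ^ α' * (-Real.log s + 2 * b t) ^ (-α') * 2 ^ α'))) := by
          gcongr
      _ = C1 * (-Real.log s + 2 * b t) ^ (-α') := by
          rw [hw]
          field_simp
  · -- lateral boundary
    intro t ht x hx hs hbx
    have ht' : t ∈ Ioo 0 T := ⟨hT1.trans_le ht.1, ht.2⟩
    have h2 := hbd t ht x hx hbx
    obtain ⟨-, -, -, hal⟩ := hAlg (u t) (slice_V hu.smooth_u ht') (hu.axi t ht')
    obtain ⟨-, -, -, -, -, -, -, -, hcW, -⟩ := hal x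
    rw [hcW, abs_mul, abs_of_pos hs]
    have h3 := hlin K hC1b t ht (sg x) ⟨hs, hx.1⟩
    have h4 : sg x * |WW (u t) x| ≤ |K| * sg x := by
      have : |WW (u t) x| ≤ |K| := h2.trans (le_abs_self K)
      nlinarith
    linarith
  · intro x hx hs
    obtain ⟨-, -, -, -, -, -, -, -, hcW, -⟩ := hal0 x
    rw [hcW, abs_mul, abs_of_pos hs]
    have h3 := hlin K2 hC1c T₁ ⟨le_rfl, hTT⟩ (sg x) ⟨hs, hx.1⟩
    have h4 : sg x * |WW (u T₁) x| ≤ |K2| * sg x := by
      have h5 := hK2 x hx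
      rw [Real.norm_eq_abs] at h5
      have : |WW (u T₁) x| ≤ |K2| := h5.trans (le_abs_self K2)
      nlinarith
    show sg x * |WW (u T₁) x| ≤ C1 * (-Real.log (sg x) + 2 * b T₁) ^ (-α')
    linarith
  · -- the differential inequality
    intro t ht x hx hs σ hσ hk hp2 hp0 hp1
    have ht' : t ∈ Ioo 0 T := ⟨hT1.trans ht.1, ht.2⟩
    have htc : t ∈ Ico T₁ T := ⟨ht.1.le, ht.2⟩
    have hsx : sg x ∈ Ioc 0 (r ^ 2) := ⟨hs, hx.1.le⟩
    obtain ⟨l1, l2, l3⟩ := hL t htc (sg x) hsx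
    obtain ⟨-, lz⟩ := hlog (sg x) hsx
    have hLp : 0 < -Real.log (sg x) + 2 * b t := l3.trans_le l1
    obtain ⟨-, -, -, hal⟩ := hAlg (u t) (slice_V hu.smooth_u ht') (hu.axi t ht')
    obtain ⟨-, -, -, -, -, -, -, -, hcW, hrU, ⟨hd0, hd1, hd2, hrv⟩, -⟩ := hal x
    obtain ⟨L, hLdef⟩ : ∃ L, L = -Real.log (sg x) + 2 * b t := ⟨_, rfl⟩
    obtain ⟨s, hsdef⟩ : ∃ s, s = sg x := ⟨_, rfl⟩
    beta_reduce at hk hp0 hp1 ⊢
    rw [← hLdef] at hk hp0 hp1 ⊢
    rw [← hLdef] at l1 l2 hLp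
    rw [← hsdef] at hp0 hp1 ⊢
    rw [← hsdef] at hs l1 l2 l3 lz hsx
    have hP1 : 0 < L ^ (-α' - 1) := Real.rpow_pos_of_pos hLp _
    -- the vorticity
    have hv2 : vort (u t) x 2 = 2 * σ * (C1 * (α' * L ^ (-α' - 1) * s⁻¹)) := by
      have hx01 : x 0 ≠ 0 ∨ x 1 ≠ 0 := by
        by_contra hcon
        push Not at hcon
        have : s = 0 := by
          rw [hsdef]
          unfold sg
          rw [hcon.1, hcon.2]
          ring
        linarith
      rcases hx01 with hx0 | hx1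
      · have h2 : x 0 * vort (u t) x 2 = x 0 * (2 * σ * (C1 * (α' * L ^ (-α' - 1) * s⁻¹))) := by
          rw [← hd0, hp0]
          ring
        exact mul_left_cancel₀ hx0 h2
      · have h2 : x 1 * vort (u t) x 2 = x 1 * (2 * σ * (C1 * (α' * L ^ (-α' - 1) * s⁻¹))) := by
          rw [← hd1, hp1]
          ring
        exact mul_left_cancel₀ hx1 h2
    have hκ0 : 0 ≤ C1 * L ^ (-α') := mul_nonneg hC10.le (Real.rpow_nonneg hLp.le _)
    have hσc : 0 < σ * circ (u t) x := hκ0.trans_lt hk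
    have habs : σ * circ (u t) x ≤ |circ (u t) x| := by
      rcases hσ with rfl | rfl
      · rw [one_mul]; exact le_abs_self _
      · rw [neg_one_mul]; exact neg_le_abs _
    have hκs : 0 < C1 * (α' * L ^ (-α' - 1) * s⁻¹) := by positivity
    have hg1 : C * |Real.log s| ^ (-α) < |circ (u t) x| := by
      refine lt_of_le_of_lt ?_ (hk.trans_le habs)
      have h2 := hpow t htc s hsx
      have hLe : -Real.log s + 2 * b t = L := by rw [hLdef, hsdef]
      rw [hLe] at h2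
      have h3 : |Real.log s| ^ (-α) ≤ lam ^ (-(α - α')) * |Real.log s| ^ (-α') := by
        have e : |Real.log s| ^ (-α) = |Real.log s| ^ (-(α - α')) * |Real.log s| ^ (-α') := by
          rw [← Real.rpow_add l3]
          congr 1
          ring
        rw [e]
        refine mul_le_mul_of_nonneg_right ?_ (Real.rpow_nonneg l3.le _)
        refine Real.rpow_le_rpow_of_nonpos hlam0 ?_ (by linarith)
        rw [lz]
        exact (hlog s hsx).1
      have hLa : 0 ≤ L ^ (-α') := Real.rpow_nonneg hLp.le _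
      calc C * |Real.log s| ^ (-α) ≤ C * (lam ^ (-(α - α')) * |Real.log s| ^ (-α')) := by
            gcongr
        _ ≤ C * (lam ^ (-(α - α')) * (q ^ α' * L ^ (-α'))) := by gcongr
        _ = C * lam ^ (-(α - α')) * q ^ α' * L ^ (-α') := by ring
        _ ≤ C1 * L ^ (-α') := mul_le_mul_of_nonneg_right hC1a hLa
    have hg2 : rad (vort (u t)) x = 0 := by
      rw [hp2] at hd2
      rw [hrv]
      linarith
    have hg3 : 0 < circ (u t) x * vort (u t) x 2 := by
      rw [hv2]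
      have e : circ (u t) x * (2 * σ * (C1 * (α' * L ^ (-α' - 1) * s⁻¹)))
          = 2 * (σ * circ (u t) x) * (C1 * (α' * L ^ (-α' - 1) * s⁻¹)) := by ring
      rw [e]
      positivity
    have hfin := hmain t ht x hx (by rw [← hsdef]; exact hs) (by rw [← hsdef]; exact hg1) hg2 hg3
    rw [← hsdef] at hfin
    -- conclusion
    have e2 : L ^ (-α' - 2) = L ^ (-α' - 1) * L⁻¹ := by
      have h3 : L ^ (-α' - 2) * L = L ^ (-α' - 1) := by
        conv_lhs => rw [← Real.rpow_one L]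
        rw [Real.rpow_one L, ← Real.rpow_add_one hLp.ne']
        congr 1
        ring
      rw [← h3]
      field_simp
    have e3 : C1 * (-α' * L ^ (-α' - 1) * (2 * -|B t|))
        + 2 * rad (u t) x * (C1 * (α' * L ^ (-α' - 1) * s⁻¹))
        - 4 * s * (C1 * (α' * ((α' + 1) * L ^ (-α' - 2) * s⁻¹ * s⁻¹
          - L ^ (-α' - 1) * (s ^ 2)⁻¹)))
        = (C1 * α' * L ^ (-α' - 1) * s⁻¹) * (2 * (|B t| * s) + 2 * rad (u t) x
          - 4 * ((α' + 1) * L⁻¹) + 4) := by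
      rw [e2]
      field_simp
      ring
    rw [e3]
    refine mul_pos (by positivity) ?_
    have h4 : (α' + 1) * L⁻¹ ≤ (α' + 1) * |Real.log s|⁻¹ :=
      mul_le_mul_of_nonneg_left (inv_anti₀ l3 l1) (by linarith)
    have h5 : (α' + 1) * |Real.log s|⁻¹ < (α + 1) * |Real.log s|⁻¹ :=
      mul_lt_mul_of_pos_right (by linarith) (inv_pos.2 l3)
    have h6 : 2 * (α + 1) / |Real.log s| = 2 * ((α + 1) * |Real.log s|⁻¹) := by
      rw [div_eq_mul_inv]
      ring
    rw [h6] at hfin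
    have h7 : B t * s ≤ |B t| * s := mul_le_mul_of_nonneg_right (le_abs_self _) hs.le
    linarith

end Pool.Agent.Q175.AX
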