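import Pool.Agent.Q175.AX.Com

/-! AXI-EN: energy inequality at one time (helper175). -/

set_option autoImplicit false

open MeasureTheory Set Metric Filter Topology
open scoped ContDiff
open H459R3.NS Pool.Agent.W268.NS Pool.Agent.Q67.VD

namespace Pool.Agent.Q175.AX

open Pool.Agent.Q85.CC Pool.Agent.Q85.CL Pool.Agent.TH305.AX Pool.Agent.Q67.AXI
open Pool.Agent.W583.MD (sm_pd cs_pd pd_mul' Z Z.add Z.sub Z.smul Z.sum int_cs Z_pd)
open Pool.Agent.TH305.DR (pd_add' pd_sub' pd_neg' pd_cmul pd_const')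

lemma xsg_on (H0 : StmH0) {i : Fin 3} (hi : i ≠ 2) {R : ℝ} (hR : 0 < R) :
    IntegrableOn (fun x : V => x i / sg x) (closedBall 0 R) := by
  obtain ⟨ψ, hψ1, hψ2⟩ : ∃ ψ : ContDiffBump (0 : V), ψ.rIn = R + 1 ∧ ψ.rOut = R + 2 :=
    ⟨⟨R + 1, R + 2, by linarith, by linarith⟩, rfl, rfl⟩
  obtain ⟨G, hG⟩ : ∃ G : V → ℝ, G = fun x => ψ x * (x i + (R + 2)) := ⟨_, rfl⟩
  have hGs : ContDiff ℝ ∞ G := by
    rw [hG]
    exact ψ.contDiff.mul ((sm_crd i).add contDiff_const)
  have hGc : HasCompactSupport G := by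
    rw [hG]
    exact HasCompactSupport.mul_right ψ.hasCompactSupport
  have hG0 : ∀ x, 0 ≤ G x := by
    intro x
    rw [hG]
    show 0 ≤ ψ x * (x i + (R + 2))
    by_cases hx : ψ x = 0
    · rw [hx, zero_mul]
    · have h1 : x ∈ Function.support (ψ : V → ℝ) := hx
      rw [ψ.support_eq, hψ2, mem_ball_zero_iff] at h1
      have h2 : |x i| ≤ ‖x‖ := norm_le_pi_norm x i
      have h3 := abs_le.1 (h2.trans h1.le)
      exact mul_nonneg ψ.nonneg (by linarith)
  have h := (H0 G (hGs.of_le (by norm_cast)) hGc hG0).1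
  refine (h.integrableOn (s := closedBall 0 R)).congr_fun (fun x hx => ?_)
    measurableSet_closedBall
  show RR G x / sg x = x i / sg x
  congr 1
  have hev : G =ᶠ[𝓝 x] fun y => y i + (R + 2) := by
    have h1 : ball (0 : V) (R + 1) ∈ 𝓝 x := isOpen_ball.mem_nhds (by
      rw [mem_closedBall_zero_iff] at hx
      rw [mem_ball_zero_iff]
      linarith)
    filter_upwards [h1] with y hy
    rw [hG]
    show ψ y * _ = _
    rw [ψ.one_of_mem_closedBall (by rw [hψ1]; exact ball_subset_closedBall hy), one_mul]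
  rw [RR_ev hev]
  unfold RR
  rw [pd_add' (sm_crd i) contDiff_const, pd_add' (sm_crd i) contDiff_const, pd_const', pd_const',
    pd_crd, pd_crd]
  fin_cases i
  · simp
  · simp
  · exact absurd rfl hi

lemma xsg_int (H0 : StmH0) {i : Fin 3} (hi : i ≠ 2) {g : V → ℝ} (hg : Continuous g)
    (hs : HasCompactSupport g) : Integrable (fun x => g x * (x i / sg x)) := by
  obtain ⟨R, hR0, hR⟩ : ∃ R : ℝ, 0 < R ∧ tsupport g ⊆ closedBall 0 R := by
    obtain ⟨R, hR⟩ := hs.isCompact.isBounded.subset_closedBall (0 : V)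
    exact ⟨max R 1, by positivity, hR.trans (closedBall_subset_closedBall (le_max_left _ _))⟩
  have h1 := (xsg_on H0 hi hR0).continuousOn_mul hg.continuousOn (isCompact_closedBall 0 R)
  rw [← integrableOn_iff_integrable_of_support_subset (s := closedBall (0 : V) R)]
  · exact h1
  · intro x hx
    apply hR
    apply subset_closure
    intro h0
    apply hx
    show g x * _ = 0
    rw [h0, zero_mul]

lemma RRsg_int (H0 : StmH0) {f g : V → ℝ} (hf : ContDiff ℝ 1 f) (hg : Continuous g)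
    (hs : HasCompactSupport g) : Integrable (fun x => g x * (RR f x / sg x)) := by
  have h0 := xsg_int H0 (i := 0) (by decide) (hg.mul (pd1_cont hf 0)) hs.mul_right
  have h1 := xsg_int H0 (i := 1) (by decide) (hg.mul (pd1_cont hf 1)) hs.mul_right
  refine (h0.add h1).congr (Eventually.of_forall fun x => ?_)
  show g x * pd 0 f x * (x 0 / sg x) + g x * pd 1 f x * (x 1 / sg x) = g x * (RR f x / sg x)
  unfold RR
  ring

lemma RRsg_int' (H0 : StmH0) {f g : V → ℝ} (hf : ContDiff ℝ 1 f) (hg : Continuous g)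
    (hs : HasCompactSupport f) : Integrable (fun x => g x * (RR f x / sg x)) := by
  have h0 := xsg_int H0 (i := 0) (by decide) (hg.mul (pd1_cont hf 0)) (cs_pd hs 0).mul_left
  have h1 := xsg_int H0 (i := 1) (by decide) (hg.mul (pd1_cont hf 1)) (cs_pd hs 1).mul_left
  refine (h0.add h1).congr (Eventually.of_forall fun x => ?_)
  show g x * pd 0 f x * (x 0 / sg x) + g x * pd 1 f x * (x 1 / sg x) = g x * (RR f x / sg x)
  unfold RR
  ring

lemma sq_pd {f : V → ℝ} (hf : ContDiff ℝ ∞ f) (j : Fin 3) :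
    pd j (fun y => f y ^ 2) = fun x => 2 * f x * pd j f x := by
  have e : (fun y => f y ^ 2) = fun y => f y * f y := by
    funext y
    ring
  rw [e, pd_mulf hf hf]
  funext x
  ring

theorem en (H0 : StmH0) : Pool.Agent.Q67.AXI.StmEn := by
  intro O v f S φ hO hv hdf hf hS hφ hφs hφO
  have hv' : ∀ i, ContDiff ℝ ∞ (fun y => v y i) := fun i => contDiff_pi.1 hv i
  have hφ2 : ContDiff ℝ ∞ (fun y => φ y ^ 2) := hφ.pow 2
  have hf2 : ContDiff ℝ ∞ (fun y => f y ^ 2) := hf.pow 2
  have hφ2s : HasCompactSupport (fun y => φ y ^ 2) := by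
    have e : (fun y => φ y ^ 2) = fun y => φ y * φ y := by
      funext y
      ring
    rw [e]
    exact hφs.mul_right
  have hG : ContDiff ℝ ∞ (fun y => φ y ^ 2 * f y ^ 2) := hφ2.mul hf2
  have hGs : HasCompactSupport (fun y => φ y ^ 2 * f y ^ 2) := hφ2s.mul_right
  -- integrability
  have i1 : Integrable (fun x => φ x ^ 2 * f x * lap f x) :=
    int_cs ((hφ2.mul hf).mul (lap_sm hf)).continuous (hφ2s.mul_right.mul_right)
  have i2 : Integrable (fun x => (φ x ^ 2 * f x) * (RR f x / sg x)) :=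
    RRsg_int H0 (hf.of_le (by norm_cast)) (hφ2.mul hf).continuous hφ2s.mul_right
  have i3 : Integrable (fun x => f x ^ 2 * (RR (fun y => φ y ^ 2) x / sg x)) :=
    RRsg_int' H0 (hφ2.of_le (by norm_cast)) hf2.continuous hφ2s
  have I1 : Integrable (fun x => φ x ^ 2 * f x * LL f x) := by
    refine (i1.add (i2.const_mul 2)).congr (Eventually.of_forall fun x => ?_)
    show φ x ^ 2 * f x * lap f x + 2 * ((φ x ^ 2 * f x) * (RR f x / sg x)) = _
    unfold LL
    ring
  have I2 : Integrable (fun x => 2 / sg x * RR (fun y => φ y ^ 2) x * f x ^ 2) := by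
    refine (i3.const_mul 2).congr (Eventually.of_forall fun x => ?_)
    show 2 * (f x ^ 2 * (RR (fun y => φ y ^ 2) x / sg x)) = _
    ring
  refine ⟨I1, I2, ?_⟩
  have hadvs : ∀ g : V → ℝ, ContDiff ℝ ∞ g → ContDiff ℝ ∞ (W221.NS.adv v g) := by
    intro g hg
    unfold W221.NS.adv
    exact ContDiff.sum fun j _ => (hv' j).mul (sm_pd hg j)
  have i4 : Integrable (fun x => φ x ^ 2 * f x * W221.NS.adv v f x) :=
    int_cs ((hφ2.mul hf).mul (hadvs f hf)).continuous (hφ2s.mul_right.mul_right)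
  have i5 : Integrable (fun x => φ x ^ 2 * f x * S x) :=
    int_cs ((hφ2.mul hf).mul hS).continuous (hφ2s.mul_right.mul_right)
  have hφf : ContDiff ℝ ∞ (fun y => φ y * f y) := hφ.mul hf
  have i6 : Integrable (gr2 (fun y => φ y * f y)) := gr2_int hφf hφs.mul_right
  have i7 : Integrable (fun x => f x ^ 2 * gr2 φ x) :=
    int_cs (hf2.mul (gr2_sm hφ)).continuous (gr2_cs hφs).mul_left
  have hadvφ : HasCompactSupport (W221.NS.adv v (fun y => φ y ^ 2)) := by
    refine HasCompactSupport.of_support_subset_isCompact hφs fun x hx => ?_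
    by_contra hcon
    apply hx
    unfold W221.NS.adv
    refine Finset.sum_eq_zero fun j _ => ?_
    rw [sq_pd hφ]
    show v x j * (2 * φ x * pd j φ x) = 0
    rw [(cs_zero hcon).eq_of_nhds]
    ring
  have i8 : Integrable (fun x => f x ^ 2 * W221.NS.adv v (fun y => φ y ^ 2) x) :=
    int_cs (hf2.mul (hadvs _ hφ2)).continuous hadvφ.mul_left
  -- first identity
  have Z1 : Z (fun x => ∑ j, pd j (fun y => φ y ^ 2 * f y * pd j f y) x) :=
    Z.sum fun j => Z_pd ((hφ2.mul hf).mul (sm_pd hf j)) hφ2s.mul_right.mul_right j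
  have Z2 : Z (fun x => ∑ j, pd j (fun y => φ y ^ 2 * f y ^ 2 * v y j) x) :=
    Z.sum fun j => Z_pd (hG.mul (hv' j)) hGs.mul_right j
  have p1 : ∀ x, ∑ j, pd j (fun y => φ y ^ 2 * f y * pd j f y) x
      = φ x ^ 2 * f x * lap f x + gr2 (fun y => φ y * f y) x - f x ^ 2 * gr2 φ x := by
    intro x
    unfold lap gr2
    simp only [Fin.sum_univ_three]
    simp only [pd_mulf (hφ2.mul hf) (sm_pd hf _), pd_mulf hφ2 hf, sq_pd hφ, pd_mulf hφ hf]
    ring
  have p2 : ∀ x, ∑ j, pd j (fun y => φ y ^ 2 * f y ^ 2 * v y j) x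
      = 2 * (φ x ^ 2 * f x * W221.NS.adv v f x) + f x ^ 2 * W221.NS.adv v (fun y => φ y ^ 2) x := by
    intro x
    by_cases hx : x ∈ tsupport φ
    · have hd := hdf x (hφO hx)
      unfold W221.NS.adv
      simp only [Fin.sum_univ_three] at hd ⊢
      simp only [pd_mulf hG (hv' _), pd_mulf hφ2 hf2, sq_pd hφ, sq_pd hf]
      linear_combination (φ x ^ 2 * f x ^ 2) * hd
    · have h0 : φ x = 0 := (cs_zero hx).eq_of_nhds
      unfold W221.NS.adv
      simp only [Fin.sum_univ_three]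
      simp only [pd_mulf hG (hv' _), pd_mulf hφ2 hf2, sq_pd hφ, sq_pd hf, h0]
      ring
  have hH := H0 (fun y => φ y ^ 2 * f y ^ 2) (hG.of_le (by norm_cast)) hGs
    (fun x => by positivity)
  have p3 : ∀ x, RR (fun y => φ y ^ 2 * f y ^ 2) x / sg x
      = 2 * ((φ x ^ 2 * f x) * (RR f x / sg x)) + f x ^ 2 * (RR (fun y => φ y ^ 2) x / sg x) := by
    intro x
    unfold RR
    simp only [pd_mulf hφ2 hf2, sq_pd hφ, sq_pd hf]
    ring
  have key : ∀ x, 2 * φ x ^ 2 * f x * (LL f x - W221.NS.adv v f x + S x)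
      = (((((2 * (∑ j, pd j (fun y => φ y ^ 2 * f y * pd j f y) x)
          - ∑ j, pd j (fun y => φ y ^ 2 * f y ^ 2 * v y j) x)
        + 2 * (RR (fun y => φ y ^ 2 * f y ^ 2) x / sg x))
        + (-2) * gr2 (fun y => φ y * f y) x)
        + 2 * (φ x ^ 2 * f x * S x))
        + f x ^ 2 * (2 * gr2 φ x + W221.NS.adv v (fun y => φ y ^ 2) x
          - 2 / sg x * RR (fun y => φ y ^ 2) x)) := by
    intro x
    rw [p1, p2, p3]
    unfold LL
    ring
  have J1 : Integrable (fun x => f x ^ 2 * (2 * gr2 φ x + W221.NS.adv v (fun y => φ y ^ 2) x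
          - 2 / sg x * RR (fun y => φ y ^ 2) x)) := by
    refine (((i7.const_mul 2).add i8).sub I2).congr (Eventually.of_forall fun x => ?_)
    show 2 * (f x ^ 2 * gr2 φ x) + f x ^ 2 * W221.NS.adv v (fun y => φ y ^ 2) x
      - 2 / sg x * RR (fun y => φ y ^ 2) x * f x ^ 2 = _
    ring
  have hZ : Z (fun x => 2 * (∑ j, pd j (fun y => φ y ^ 2 * f y * pd j f y) x)
      - ∑ j, pd j (fun y => φ y ^ 2 * f y ^ 2 * v y j) x) := (Z1.smul 2).sub Z2
  have J2 := hZ.1.add (hH.1.const_mul 2)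
  have J3 := J2.add (i6.const_mul (-2))
  have J4 := J3.add (i5.const_mul 2)
  rw [integral_congr_ae (Eventually.of_forall key)]
  have E1 := integral_add J4 J1
  have E2 := integral_add J3 (i5.const_mul 2)
  have E3 := integral_add J2 (i6.const_mul (-2))
  have E4 := integral_add hZ.1 (hH.1.const_mul 2)
  simp only [Pi.add_apply] at E1 E2 E3 E4
  rw [E1, E2, E3, E4, hZ.2, integral_const_mul, integral_const_mul, integral_const_mul]
  unfold GD
  have h5 := hH.2
  linarith

end Pool.Agent.Q175.AX
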