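import Pool.Agent.Q175.AX.Yd

/-! AXI-SM: smoothing (helper175). -/

set_option autoImplicit false

open MeasureTheory Set Metric Filter Topology
open scoped ContDiff
open H459R3.NS Pool.Agent.W268.NS Pool.Agent.Q67.VD

namespace Pool.Agent.Q175.AX

open Pool.Agent.Q85.CC Pool.Agent.Q85.CL Pool.Agent.TH305.AX Pool.Agent.Q67.AXI

lemma one_sub_exp {y : ℝ} (hy : 0 ≤ y) : min 1 y ≤ 2 * (1 - Real.exp (-y)) := by
  have h1 : Real.exp (-y) ≤ 1 / (1 + y) := by
    rw [Real.exp_neg, one_div]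
    refine inv_anti₀ (by linarith) ?_
    have := Real.add_one_le_exp y
    linarith
  have h2 : min 1 y ≤ 2 * (y / (1 + y)) := by
    by_cases hc : y ≤ 1
    · rw [min_eq_right hc, mul_div_assoc', le_div_iff₀ (by linarith)]
      nlinarith
    · push Not at hc
      rw [min_eq_left hc.le, mul_div_assoc', le_div_iff₀ (by linarith)]
      linarith
  have h3 : y / (1 + y) = 1 - 1 / (1 + y) := by
    field_simp
    ring
  rw [h3] at h2
  linarith

lemma exp_lin {y : ℝ} : 1 - Real.exp (-y) ≤ y := by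
  have := Real.add_one_le_exp (-y)
  linarith

/-- The barrier for the smoothing estimate and its derivatives. -/
lemma bar_d {th E : ℝ → ℝ} {th' E' t c e : ℝ} (h1 : HasDerivAt th th' t)
    (h2 : HasDerivAt E E' t) (hth : th t ≠ 0) {s : ℝ} (hs : 0 < s) :
    HasDerivAt (fun τ => 2 * c * (1 - Real.exp (-(s / th τ))) + e * E τ * √s)
      (-(2 * c * Real.exp (-(s / th t)) * (s * th' / th t ^ 2)) + e * E' * √s) t ∧
    HasDerivAt (fun σ => 2 * c * (1 - Real.exp (-(σ / th t))) + e * E t * √σ)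
      (2 * c * Real.exp (-(s / th t)) / th t + e * E t * (1 / (2 * √s))) s ∧
    HasDerivAt (fun σ => 2 * c * Real.exp (-(σ / th t)) / th t + e * E t * (1 / (2 * √σ)))
      (-(2 * c * Real.exp (-(s / th t)) / th t ^ 2) - e * E t * (1 / (4 * (s * √s)))) s := by
  have hq : 0 < √s := Real.sqrt_pos.2 hs
  have hqs := Real.mul_self_sqrt hs.le
  refine ⟨?_, ?_, ?_⟩
  · have a1 : HasDerivAt (fun τ => -(s / th τ)) (s * th' / th t ^ 2) t := by
      refine (((hasDerivAt_const t s).div h1 hth).neg).congr_deriv ?_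
      field_simp
      ring
    have a2 := ((a1.exp.const_sub 1).const_mul (2 * c)).add ((h2.const_mul e).mul_const (√s))
    refine a2.congr_deriv ?_
    ring
  · have a1 : HasDerivAt (fun σ => -(σ / th t)) (-(1 / th t)) s :=
      ((hasDerivAt_id s).div_const (th t)).neg
    have a2 := ((a1.exp.const_sub 1).const_mul (2 * c)).add
      ((Real.hasDerivAt_sqrt hs.ne').const_mul (e * E t))
    refine a2.congr_deriv ?_
    field_simp
  · have a1 : HasDerivAt (fun σ => -(σ / th t)) (-(1 / th t)) s :=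
      ((hasDerivAt_id s).div_const (th t)).neg
    have a3 : HasDerivAt (fun σ => 1 / (2 * √σ)) (-(1 / (4 * (s * √s)))) s := by
      refine ((hasDerivAt_const s (1 : ℝ)).div ((Real.hasDerivAt_sqrt hs.ne').const_mul 2)
        (by positivity)).congr_deriv ?_
      have : √s ^ 2 = s := by rw [sq, hqs]
      field_simp
      nlinarith
    have a2 := ((a1.exp.const_mul (2 * c)).div_const (th t)).add (a3.const_mul (e * E t))
    refine a2.congr_deriv ?_
    field_simp
    ring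

/-- A continuous bound off the axis holds on the axis. -/
lemma Cy_axis {c r h C : ℝ} (hr : 0 < r) {f : V → ℝ} (hf : Continuous f)
    (hf' : ∀ x ∈ Cy c r h, 0 < sg x → |f x| ≤ C) : ∀ x ∈ Cy c r h, |f x| ≤ C := by
  intro x hx
  rcases (sg_nn x).lt_or_eq with hs | hs
  · exact hf' x hx hs
  have hx0 : x 0 = 0 := by
    have : x 0 ^ 2 + x 1 ^ 2 = 0 := hs.symm
    nlinarith [sq_nonneg (x 0), sq_nonneg (x 1)]
  have hx1 : x 1 = 0 := by
    have : x 0 ^ 2 + x 1 ^ 2 = 0 := hs.symm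
    nlinarith [sq_nonneg (x 0), sq_nonneg (x 1)]
  obtain ⟨y, hy⟩ : ∃ y : ℝ → V, y = fun e => ![e, 0, x 2] := ⟨_, rfl⟩
  have hyc : Continuous y := by
    rw [hy]
    refine continuous_pi fun i => ?_
    fin_cases i
    · exact continuous_id
    · exact continuous_const
    · exact continuous_const
  have hy0 : y 0 = x := by
    rw [hy]
    funext i
    fin_cases i
    · exact hx0.symm
    · exact hx1.symm
    · rfl
  have ht : Tendsto (fun e => |f (y e)|) (𝓝[>] 0) (𝓝 |f x|) := by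
    have h1 : Continuous fun e => |f (y e)| := (hf.comp hyc).abs
    have h2 := h1.tendsto 0
    rw [hy0] at h2
    exact h2.mono_left nhdsWithin_le_nhds
  refine le_of_tendsto ht ?_
  filter_upwards [Ioo_mem_nhdsGT hr] with e he
  have hsg : sg (y e) = e ^ 2 := by
    rw [hy]
    show e ^ 2 + (0 : ℝ) ^ 2 = e ^ 2
    ring
  apply hf'
  · refine ⟨?_, ?_⟩
    · rw [hsg]
      exact pow_le_pow_left₀ he.1.le he.2.le 2
    · rw [hy]
      exact hx.2
  · rw [hsg]
    exact pow_pos he.1 2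

lemma sm_core (hAlg : StmAlg) (hBar : StmBar)
    {T E c R H r h t0 t' k c1 M0 θ0 : ℝ} {u : ℝ → V → V} {p : ℝ → V → ℝ}
    (hu : AxL T E c R H u p) (hr : 0 < r) (hrR : r < R) (hh : 0 < h) (hhH : h < H)
    (ht0 : 0 < t0) (htt : t0 < t') (htT : t' < T) (hc1 : 0 < c1) (hk : 0 < k)
    (hcb : ∀ t ∈ Ico t0 t', ∀ x ∈ Cy c r h, |circ (u t) x| ≤ c1 ∧
      ((sg x = r ^ 2 ∨ |x 2 - c| = h) → |WW (u t) x| ≤ k))
    (hM0 : ∀ x ∈ Cy c r h, |WW (u t0) x| ≤ M0) (hθ0 : 0 < θ0) (hθM : θ0 * M0 ≤ c1)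
    (hθk : (θ0 + 3 * Real.exp 2 * (t' - t0)) * k ≤ c1) {B : ℝ → ℝ}
    (hB : ContinuousOn B (Icc t0 t'))
    (hUB : ∀ t ∈ Icc t0 t', ∀ x ∈ Cy c r h, |UU (u t) x| ≤ B t)
    (hBi : ∫ t in t0..t', B t ≤ 1) :
    ∀ x ∈ Cy c r h, |WW (u t') x| ≤ 2 * c1 * Real.exp 2 / (θ0 + 3 * (t' - t0)) := by
  have hc0 : (![0, 0, c] : V) ∈ Cy c r h := by
    refine ⟨?_, ?_⟩
    · show (0 : ℝ) ^ 2 + (0 : ℝ) ^ 2 ≤ r ^ 2
      nlinarith
    · show |c - c| ≤ h
      rw [sub_self, abs_zero]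
      exact hh.le
  -- the extension of `B`
  obtain ⟨Bt, hBt⟩ : ∃ Bt : ℝ → ℝ, Bt = fun t => B (max t0 (min t t')) := ⟨_, rfl⟩
  have hcl : ∀ t, max t0 (min t t') ∈ Icc t0 t' := fun t =>
    ⟨le_max_left _ _, max_le htt.le (min_le_right _ _)⟩
  have hBtc : Continuous Bt := by
    rw [hBt]
    exact hB.comp_continuous (by fun_prop) hcl
  have hBte : ∀ t ∈ Icc t0 t', Bt t = B t := by
    intro t ht
    rw [hBt]
    show B (max t0 (min t t')) = B t
    rw [min_eq_left ht.2, max_eq_right ht.1]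
  have hBt0 : ∀ t, 0 ≤ Bt t := by
    intro t
    rw [hBt]
    exact (abs_nonneg _).trans (hUB _ (hcl t) _ hc0)
  obtain ⟨β, hβ⟩ : ∃ β : ℝ → ℝ, β = fun t => ∫ s in t0..t, Bt s := ⟨_, rfl⟩
  have hβd : ∀ t, HasDerivAt β (Bt t) t := by
    intro t
    rw [hβ]
    exact (hBtc.integral_hasStrictDerivAt t0 t).hasDerivAt
  have hβc : Continuous β := continuous_iff_continuousAt.2 fun t => (hβd t).continuousAt
  have hβ0 : ∀ t, t0 ≤ t → 0 ≤ β t := by
    intro t ht
    rw [hβ]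
    exact intervalIntegral.integral_nonneg ht fun s _ => hBt0 s
  have hβ1 : ∀ t ∈ Icc t0 t', β t ≤ 1 := by
    intro t ht
    have h1 : β t' ≤ 1 := by
      rw [hβ]
      refine le_trans (le_of_eq ?_) hBi
      refine intervalIntegral.integral_congr fun s hs => ?_
      rw [uIcc_of_le htt.le] at hs
      exact hBte s hs
    have h2 : β t + ∫ s in t..t', Bt s = β t' := by
      rw [hβ]
      exact intervalIntegral.integral_add_adjacent_intervals (hBtc.intervalIntegrable _ _)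
        (hBtc.intervalIntegrable _ _)
    have h3 : 0 ≤ ∫ s in t..t', Bt s := intervalIntegral.integral_nonneg ht.2 fun s _ => hBt0 s
    linarith
  -- the integrating factor
  obtain ⟨γ, hγ⟩ : ∃ γ : ℝ → ℝ, γ = fun t => ∫ s in t0..t, Real.exp (2 * β s) := ⟨_, rfl⟩
  have hEc : Continuous fun s => Real.exp (2 * β s) := Real.continuous_exp.comp
    (continuous_const.mul hβc)
  have hγd : ∀ t, HasDerivAt γ (Real.exp (2 * β t)) t := by
    intro t
    rw [hγ]
    exact (hEc.integral_hasStrictDerivAt t0 t).hasDerivAt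
  have hγc : Continuous γ := continuous_iff_continuousAt.2 fun t => (hγd t).continuousAt
  have hγ1 : ∀ t, t0 ≤ t → t - t0 ≤ γ t := by
    intro t ht
    rw [hγ]
    have h1 : ∫ _ in t0..t, (1 : ℝ) = t - t0 := by simp
    rw [← h1]
    refine intervalIntegral.integral_mono_on ht (continuous_const.intervalIntegrable _ _)
      (hEc.intervalIntegrable _ _) fun s hs => ?_
    rw [← Real.exp_zero]
    exact Real.exp_le_exp.2 (by linarith [hβ0 s hs.1])
  have hγ2 : ∀ t ∈ Icc t0 t', γ t ≤ Real.exp 2 * (t' - t0) := by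
    intro t ht
    have h1 : ∫ _ in t0..t, Real.exp 2 = Real.exp 2 * (t - t0) := by
      simp [mul_comm]
    have h2 : γ t ≤ Real.exp 2 * (t - t0) := by
      rw [← h1, hγ]
      refine intervalIntegral.integral_mono_on ht.1 (hEc.intervalIntegrable _ _)
        (continuous_const.intervalIntegrable _ _) fun s hs => ?_
      exact Real.exp_le_exp.2 (by linarith [hβ1 s ⟨hs.1, hs.2.trans ht.2⟩])
    refine h2.trans (mul_le_mul_of_nonneg_left ?_ (Real.exp_pos _).le)
    linarith [ht.2]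
  obtain ⟨θ, hθ⟩ : ∃ θ : ℝ → ℝ, θ = fun t => Real.exp (-(2 * β t)) * (θ0 + 3 * γ t) := ⟨_, rfl⟩
  have hθp : ∀ t, t0 ≤ t → 0 < θ t := by
    intro t ht
    rw [hθ]
    have := hγ1 t ht
    exact mul_pos (Real.exp_pos _) (by linarith)
  have hθc : Continuous θ := by
    rw [hθ]
    exact (Real.continuous_exp.comp (continuous_const.mul hβc).neg).mul
      (continuous_const.add (continuous_const.mul hγc))
  have hθd : ∀ t, HasDerivAt θ (3 - 2 * Bt t * θ t) t := by
    intro t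
    have a1 : HasDerivAt (fun t => -(2 * β t)) (-(2 * Bt t)) t := ((hβd t).const_mul 2).neg
    have a2 := a1.exp.mul (((hγd t).const_mul 3).const_add θ0)
    rw [hθ]
    refine a2.congr_deriv ?_
    have h1 : Real.exp (-(2 * β t)) * Real.exp (2 * β t) = 1 := by
      rw [← Real.exp_add, neg_add_cancel, Real.exp_zero]
    show Real.exp (-(2 * β t)) * -(2 * Bt t) * (θ0 + 3 * γ t)
      + Real.exp (-(2 * β t)) * (3 * Real.exp (2 * β t))
      = 3 - 2 * Bt t * (Real.exp (-(2 * β t)) * (θ0 + 3 * γ t))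
    linear_combination 3 * h1
  have hθle : ∀ t ∈ Icc t0 t', θ t ≤ θ0 + 3 * Real.exp 2 * (t' - t0) := by
    intro t ht
    rw [hθ]
    have h1 : Real.exp (-(2 * β t)) ≤ 1 := by
      rw [Real.exp_le_one_iff]
      linarith [hβ0 t ht.1]
    have h2 := hγ2 t ht
    have h3 := hγ1 t ht.1
    have h4 : 0 ≤ θ0 + 3 * γ t := by linarith [ht.1]
    calc Real.exp (-(2 * β t)) * (θ0 + 3 * γ t) ≤ 1 * (θ0 + 3 * γ t) :=
          mul_le_mul_of_nonneg_right h1 h4
      _ ≤ θ0 + 3 * Real.exp 2 * (t' - t0) := by linarith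
  have hθ00 : θ t0 = θ0 := by
    rw [hθ]
    show Real.exp (-(2 * β t0)) * (θ0 + 3 * γ t0) = θ0
    have h1 : β t0 = 0 := by rw [hβ]; exact intervalIntegral.integral_same
    have h2 : γ t0 = 0 := by rw [hγ]; exact intervalIntegral.integral_same
    rw [h1, h2]
    simp
  have hθend : Real.exp (-2) * (θ0 + 3 * (t' - t0)) ≤ θ t' := by
    rw [hθ]
    have h1 : Real.exp (-2) ≤ Real.exp (-(2 * β t')) :=
      Real.exp_le_exp.2 (by linarith [hβ1 t' ⟨htt.le, le_rfl⟩])
    have h2 := hγ1 t' htt.le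
    exact mul_le_mul h1 (by linarith) (by linarith) (Real.exp_pos _).le
  obtain ⟨Ef, hEf⟩ : ∃ Ef : ℝ → ℝ, Ef = fun t => Real.exp (2 * β t) := ⟨_, rfl⟩
  have hEd : ∀ t, HasDerivAt Ef (2 * Bt t * Ef t) t := by
    intro t
    rw [hEf]
    refine ((hβd t).const_mul 2).exp.congr_deriv ?_
    ring
  have hE1 : ∀ t, t0 ≤ t → 1 ≤ Ef t := by
    intro t ht
    rw [hEf, ← Real.exp_zero]
    exact Real.exp_le_exp.2 (by linarith [hβ0 t ht])
  have hEfc : Continuous Ef := by rw [hEf]; exact hEc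
  -- comparison at the parabolic boundary
  have hcomp : ∀ (t s w m : ℝ), t0 ≤ t → 0 < s → |w| ≤ c1 → |w| ≤ m * s → θ t * m ≤ c1 →
      |w| ≤ 2 * c1 * (1 - Real.exp (-(s / θ t))) := by
    intro t s w m ht hs hw1 hw2 hm
    have hp := hθp t ht
    have h1 := one_sub_exp (y := s / θ t) (by positivity)
    have h2 : |w| ≤ c1 * min 1 (s / θ t) := by
      rcases min_cases 1 (s / θ t) with ⟨h3, -⟩ | ⟨h3, -⟩
      · rw [h3, mul_one]; exact hw1
      · rw [h3, mul_div_assoc', le_div_iff₀ hp]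
        calc |w| * θ t ≤ m * s * θ t := mul_le_mul_of_nonneg_right hw2 hp.le
          _ = (θ t * m) * s := by ring
          _ ≤ c1 * s := mul_le_mul_of_nonneg_right hm hs.le
    have h4 := mul_le_mul_of_nonneg_left h1 hc1.le
    linarith
  -- the comparison with `e > 0`
  have key : ∀ e : ℝ, 0 < e → ∀ t ∈ Ico t0 t', ∀ x ∈ Cy c r h, 0 < sg x →
      |circ (u t) x| ≤ 2 * c1 * (1 - Real.exp (-(sg x / θ t))) + e * Ef t * √(sg x) := by
    intro e he
    refine hBar T E c R H r h t0 t' u p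
      (fun t s => 2 * c1 * (1 - Real.exp (-(s / θ t))) + e * Ef t * √s)
      (fun t s => -(2 * c1 * Real.exp (-(s / θ t)) * (s * (3 - 2 * Bt t * θ t) / θ t ^ 2))
        + e * (2 * Bt t * Ef t) * √s)
      (fun t s => 2 * c1 * Real.exp (-(s / θ t)) / θ t + e * Ef t * (1 / (2 * √s)))
      (fun t s => -(2 * c1 * Real.exp (-(s / θ t)) / θ t ^ 2) - e * Ef t * (1 / (4 * (s * √s))))
      hu hr hrR hh hhH ht0 htt htT.le ?_ ?_ ?_ ?_ ?_ ?_ ?_ ?_
    · intro z hz
      obtain ⟨hz1, hz2⟩ := hz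
      have c1' : ContinuousAt (fun z : ℝ × ℝ => θ z.1) z := (hθc.comp continuous_fst).continuousAt
      have c2 : ContinuousAt (fun z : ℝ × ℝ => Real.exp (-(z.2 / θ z.1))) z :=
        Real.continuous_exp.continuousAt.comp
          (continuousAt_snd.div c1' (hθp z.1 hz1.1).ne').neg
      have c3 : Continuous (fun z : ℝ × ℝ => e * Ef z.1 * √z.2) :=
        (continuous_const.mul (hEfc.comp continuous_fst)).mul
          (Real.continuous_sqrt.comp continuous_snd)
      exact ((continuousAt_const.mul (continuousAt_const.sub c2)).add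
        c3.continuousAt).continuousWithinAt
    · intro t ht s hs
      exact bar_d (hθd t) (hEd t) (hθp t ht.1.le).ne' hs.1
    · intro t ht s hs
      have d1 : ContDiffAt ℝ 2 (fun σ : ℝ => Real.exp (-(σ / θ t))) s :=
        (Real.contDiff_exp.contDiffAt).comp s ((contDiffAt_id.div_const _).neg)
      have d2 : ContDiffAt ℝ 2 (fun σ : ℝ => √σ) s := Real.contDiffAt_sqrt hs.1.ne'
      exact ((contDiffAt_const.mul (contDiffAt_const.sub d1)).add
        (contDiffAt_const.mul d2)).contDiffWithinAt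
    · intro t ht s hs
      have h1 : Real.exp (-(s / θ t)) ≤ 1 := by
        rw [Real.exp_le_one_iff, neg_nonpos]
        exact div_nonneg hs.1.le (hθp t ht.1).le
      have h2 := hE1 t ht.1
      have h3 := Real.sqrt_nonneg s
      have h4 : 0 ≤ 2 * c1 * (1 - Real.exp (-(s / θ t))) :=
        mul_nonneg (by linarith) (by linarith)
      have h5 : 0 ≤ e * Ef t * √s := mul_nonneg (mul_nonneg he.le (by linarith)) h3
      exact add_nonneg h4 h5
    · intro T' hT' A
      refine ⟨(e / (|A| + 1)) ^ 2, by positivity, fun t ht s hs hsd => ?_⟩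
      have hq : 0 ≤ √s := Real.sqrt_nonneg s
      have h1 : √s ≤ e / (|A| + 1) := by
        rw [Real.sqrt_le_left (by positivity)]
        exact hsd.le
      have hA1 : 0 < |A| + 1 := by positivity
      rw [le_div_iff₀ hA1] at h1
      have h2 : Real.exp (-(s / θ t)) ≤ 1 := by
        rw [Real.exp_le_one_iff, neg_nonpos]
        exact div_nonneg hs.1.le (hθp t ht.1).le
      have h3 : 0 ≤ 2 * c1 * (1 - Real.exp (-(s / θ t))) :=
        mul_nonneg (by linarith) (by linarith)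
      have h4 := hE1 t ht.1
      have h5 : A * s ≤ e * √s := by
        calc A * s ≤ (|A| + 1) * s := by
              refine mul_le_mul_of_nonneg_right ?_ hs.1.le
              linarith [le_abs_self A]
          _ = (√s * (|A| + 1)) * √s := by
              nth_rewrite 1 [← Real.mul_self_sqrt hs.1.le]
              ring
          _ ≤ e * √s := mul_le_mul_of_nonneg_right h1 hq
      have h6 : e * √s ≤ e * Ef t * √s := by
        have : e * 1 ≤ e * Ef t := mul_le_mul_of_nonneg_left h4 he.le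
        have := mul_le_mul_of_nonneg_right this hq
        linarith
      show A * s ≤ 2 * c1 * (1 - Real.exp (-(s / θ t))) + e * Ef t * √s
      linarith
    · intro t ht x hx hs hbx
      obtain ⟨b1, b2⟩ := hcb t ht x hx
      have ht'' : t ∈ Ioo 0 T := ⟨ht0.trans_le ht.1, ht.2.trans htT⟩
      obtain ⟨-, -, -, hal⟩ := hAlg (u t) (slice_V hu.smooth_u ht'') (hu.axi t ht'')
      obtain ⟨-, -, -, -, -, -, -, -, hcW, -⟩ := hal x
      have h2 : |circ (u t) x| ≤ k * sg x := by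
        rw [hcW, abs_mul, abs_of_pos hs, mul_comm]
        exact mul_le_mul_of_nonneg_right (b2 hbx) hs.le
      have h3 := hcomp t (sg x) (circ (u t) x) k ht.1 hs b1 h2
        ((mul_le_mul_of_nonneg_right (hθle t ⟨ht.1, ht.2.le⟩) hk.le).trans hθk)
      have h4 : 0 ≤ e * Ef t * √(sg x) :=
        mul_nonneg (mul_nonneg he.le (by linarith [hE1 t ht.1])) (Real.sqrt_nonneg _)
      show |circ (u t) x| ≤ 2 * c1 * (1 - Real.exp (-(sg x / θ t))) + e * Ef t * √(sg x)
      linarith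
    · intro x hx hs
      obtain ⟨b1, -⟩ := hcb t0 ⟨le_rfl, htt⟩ x hx
      have ht'' : t0 ∈ Ioo 0 T := ⟨ht0, htt.trans htT⟩
      obtain ⟨-, -, -, hal⟩ := hAlg (u t0) (slice_V hu.smooth_u ht'') (hu.axi t0 ht'')
      obtain ⟨-, -, -, -, -, -, -, -, hcW, -⟩ := hal x
      have h2 : |circ (u t0) x| ≤ M0 * sg x := by
        rw [hcW, abs_mul, abs_of_pos hs, mul_comm]
        exact mul_le_mul_of_nonneg_right (hM0 x hx) hs.le
      have h3 := hcomp t0 (sg x) (circ (u t0) x) M0 le_rfl hs b1 h2 (by rw [hθ00]; exact hθM)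
      have h4 : 0 ≤ e * Ef t0 * √(sg x) :=
        mul_nonneg (mul_nonneg he.le (by linarith [hE1 t0 le_rfl])) (Real.sqrt_nonneg _)
      show |circ (u t0) x| ≤ 2 * c1 * (1 - Real.exp (-(sg x / θ t0))) + e * Ef t0 * √(sg x)
      linarith
    · intro t ht x hx hs σ _ _ _ _ _
      have ht'' : t ∈ Ioo 0 T := ⟨ht0.trans ht.1, ht.2.trans htT⟩
      obtain ⟨-, -, -, hal⟩ := hAlg (u t) (slice_V hu.smooth_u ht'') (hu.axi t ht'')
      obtain ⟨-, -, -, -, -, -, -, -, -, hrU, -⟩ := hal x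
      have htc : t ∈ Icc t0 t' := ⟨ht.1.le, ht.2.le⟩
      have hUx := hUB t htc x (Co_sub_Cy _ _ _ hx)
      rw [← hBte t htc] at hUx
      have hU1 := (abs_le.1 hUx).1
      obtain ⟨s, hsd⟩ : ∃ s, s = sg x := ⟨_, rfl⟩
      obtain ⟨U, hUd⟩ : ∃ U, U = UU (u t) x := ⟨_, rfl⟩
      rw [hrU, ← hsd, ← hUd]
      rw [← hsd] at hs
      rw [← hUd] at hU1
      have hp := hθp t ht.1.le
      have hE := hE1 t ht.1.le
      have hB0 := hBt0 t
      obtain ⟨X, hX⟩ : ∃ X, X = Real.exp (-(s / θ t)) := ⟨_, rfl⟩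
      have hX0 : 0 < X := by rw [hX]; exact Real.exp_pos _
      obtain ⟨q, hq⟩ : ∃ q, q = √s := ⟨_, rfl⟩
      have hq0 : 0 < q := by rw [hq]; exact Real.sqrt_pos.2 hs
      have hqs : s = q * q := by rw [hq, Real.mul_self_sqrt hs.le]
      rw [← hX, ← hq]
      have e1 : -(2 * c1 * X * (s * (3 - 2 * Bt t * θ t) / θ t ^ 2))
          + e * (2 * Bt t * Ef t) * q
          + 2 * (s * U) * (2 * c1 * X / θ t + e * Ef t * (1 / (2 * q)))
          - 4 * s * (-(2 * c1 * X / θ t ^ 2) - e * Ef t * (1 / (4 * (s * q))))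
          = 2 * c1 * X * s / θ t ^ 2 * (1 + 2 * θ t * (Bt t + U))
            + e * Ef t * (q * (2 * Bt t + U) + 1 / q) := by
        rw [hqs]
        field_simp
        ring
      rw [e1]
      have h1 : 0 ≤ 2 * θ t * (Bt t + U) := mul_nonneg (by linarith) (by linarith)
      have h2 : 0 ≤ q * (2 * Bt t + U) := mul_nonneg hq0.le (by linarith)
      have hEp : 0 < Ef t := by linarith
      have h3 : 0 < 2 * c1 * X * s / θ t ^ 2 * (1 + 2 * θ t * (Bt t + U)) :=
        mul_pos (by positivity) (by linarith)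
      have h4 : 0 < e * Ef t * (q * (2 * Bt t + U) + 1 / q) := by
        refine mul_pos (mul_pos he hEp) ?_
        have : 0 < 1 / q := by positivity
        linarith
      linarith
  -- `e → 0`
  have key2 : ∀ t ∈ Ico t0 t', ∀ x ∈ Cy c r h, 0 < sg x →
      |circ (u t) x| ≤ 2 * c1 * (sg x / θ t) := by
    intro t ht x hx hs
    have h1 : |circ (u t) x| ≤ 2 * c1 * (1 - Real.exp (-(sg x / θ t))) := by
      refine le_of_forall_pos_le_add fun δ hδ => ?_
      have hw : 0 < Ef t * √(sg x) :=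
        mul_pos (by linarith [hE1 t ht.1]) (Real.sqrt_pos.2 hs)
      have h2 := key (δ / (Ef t * √(sg x))) (by positivity) t ht x hx hs
      have e2 : δ / (Ef t * √(sg x)) * Ef t * √(sg x) = δ := by
        rw [mul_assoc]
        exact div_mul_cancel₀ δ hw.ne'
      rw [e2] at h2
      exact h2
    have h2 := exp_lin (y := sg x / θ t)
    have h3 := mul_le_mul_of_nonneg_left h2 (by linarith : (0 : ℝ) ≤ 2 * c1)
    linarith
  -- `t → t'`
  have ht'm : t' ∈ Ioo 0 T := ⟨ht0.trans htt, htT⟩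
  have key3 : ∀ x ∈ Cy c r h, 0 < sg x → |circ (u t') x| ≤ 2 * c1 * (sg x / θ t') := by
    intro x hx hs
    have hcu : ContinuousAt (fun t => u t x) t' := by
      have h1 : ContinuousAt (fun z : ℝ × V => u z.1 z.2) (t', x) :=
        (hu.smooth_u.continuousOn).continuousAt
          (prod_mem_nhds (Ioo_mem_nhds ht'm.1 ht'm.2) Filter.univ_mem)
      exact ContinuousAt.comp (f := fun t : ℝ => (t, x)) (x := t') h1 (by fun_prop)
    have hcc : ContinuousAt (fun t => |circ (u t) x|) t' := by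
      have h0 : ∀ i : Fin 3, ContinuousAt (fun t => u t x i) t' := fun i =>
        (continuousAt_pi.1 hcu) i
      unfold circ
      exact ((continuousAt_const.mul (h0 1)).sub (continuousAt_const.mul (h0 0))).abs
    have hrc : ContinuousAt (fun t => 2 * c1 * (sg x / θ t)) t' :=
      continuousAt_const.mul (continuousAt_const.div hθc.continuousAt (hθp t' htt.le).ne')
    have l1 : Tendsto (fun t => |circ (u t) x|) (𝓝[<] t') (𝓝 |circ (u t') x|) :=
      hcc.tendsto.mono_left nhdsWithin_le_nhds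
    have l2 : Tendsto (fun t => 2 * c1 * (sg x / θ t)) (𝓝[<] t') (𝓝 (2 * c1 * (sg x / θ t'))) :=
      hrc.tendsto.mono_left nhdsWithin_le_nhds
    refine le_of_tendsto_of_tendsto l1 l2 ?_
    filter_upwards [Ico_mem_nhdsLT htt] with t ht
    exact key2 t ht x hx hs
  obtain ⟨⟨-, sW, -, -⟩, -, -, hal⟩ := hAlg (u t') (slice_V hu.smooth_u ht'm) (hu.axi t' ht'm)
  refine Cy_axis hr sW.continuous fun x hx hs => ?_
  obtain ⟨-, -, -, -, -, -, -, -, hcW, -⟩ := hal x
  have h1 := key3 x hx hs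
  rw [hcW, abs_mul, abs_of_pos hs] at h1
  have h2 : |WW (u t') x| ≤ 2 * c1 / θ t' := by
    have h3 : sg x * |WW (u t') x| ≤ sg x * (2 * c1 / θ t') := by
      refine h1.trans (le_of_eq ?_)
      ring
    exact le_of_mul_le_mul_left h3 hs
  refine h2.trans ?_
  have hden : 0 < θ0 + 3 * (t' - t0) := by linarith
  have h3 : 2 * c1 / θ t' ≤ 2 * c1 / (Real.exp (-2) * (θ0 + 3 * (t' - t0))) :=
    div_le_div_of_nonneg_left (by linarith) (mul_pos (Real.exp_pos _) hden) hθend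
  refine h3.trans (le_of_eq ?_)
  have h4 : Real.exp (-2) * Real.exp 2 = 1 := by
    rw [← Real.exp_add, neg_add_cancel, Real.exp_zero]
  have h5 := (Real.exp_pos (-2)).ne'
  field_simp
  linear_combination (-1) * h4

theorem stmSm (hAlg : StmAlg) (hBar : StmBar) : StmSm := by
  intro T E c R H r h T₁ K c₀ u p hu hr hrR hh hhH hT1 hTT hcb
  have hT1m : T₁ ∈ Ioo 0 T := ⟨hT1, hTT⟩
  obtain ⟨⟨-, sW, -, -⟩, -, -, -⟩ := hAlg (u T₁) (slice_V hu.smooth_u hT1m) (hu.axi T₁ hT1m)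
  obtain ⟨M1, hM1⟩ := (Cy_compact (c := c) (h := h) hr.le).exists_bound_of_continuousOn
    sW.continuous.continuousOn
  obtain ⟨k, hk⟩ : ∃ k : ℝ, k = |K| + 1 := ⟨_, rfl⟩
  have hk0 : 0 < k := by rw [hk]; positivity
  obtain ⟨c1, hc1⟩ : ∃ c1 : ℝ, c1 = |c₀| + 1 := ⟨_, rfl⟩
  have hc10 : 0 < c1 := by rw [hc1]; positivity
  have he2 : 0 < Real.exp 2 := Real.exp_pos 2
  obtain ⟨τ0, hτ0⟩ : ∃ τ0 : ℝ, τ0 = min 1 (c1 / (6 * Real.exp 2 * k)) := ⟨_, rfl⟩
  have hτ00 : 0 < τ0 := by rw [hτ0]; exact lt_min one_pos (by positivity)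
  have hτ01 : τ0 ≤ 1 := by rw [hτ0]; exact min_le_left _ _
  have hτ0k : 3 * Real.exp 2 * τ0 * k ≤ c1 / 2 := by
    have h1 : τ0 ≤ c1 / (6 * Real.exp 2 * k) := by rw [hτ0]; exact min_le_right _ _
    rw [le_div_iff₀ (by positivity)] at h1
    linarith
  obtain ⟨θ1, hθ1⟩ : ∃ θ1 : ℝ, θ1 = min (c1 / (2 * k)) (c1 / (|M1| + 1)) := ⟨_, rfl⟩
  have hθ10 : 0 < θ1 := by rw [hθ1]; exact lt_min (by positivity) (by positivity)
  refine ⟨|M1| + 2 * c1 * Real.exp 2 / (3 * τ0) + 2 * c1 * Real.exp 2 / θ1, by positivity, ?_⟩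
  obtain ⟨C, hC⟩ : ∃ C : ℝ, C = |M1| + 2 * c1 * Real.exp 2 / (3 * τ0)
    + 2 * c1 * Real.exp 2 / θ1 := ⟨_, rfl⟩
  have hCa : |M1| ≤ C := by
    rw [hC]
    have : 0 ≤ 2 * c1 * Real.exp 2 / (3 * τ0) := by positivity
    have : 0 ≤ 2 * c1 * Real.exp 2 / θ1 := by positivity
    linarith
  have hCb : 2 * c1 * Real.exp 2 / (3 * τ0) ≤ C := by
    rw [hC]
    have : 0 ≤ 2 * c1 * Real.exp 2 / θ1 := by positivity
    linarith [abs_nonneg M1]
  have hCc : 2 * c1 * Real.exp 2 / θ1 ≤ C := by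
    rw [hC]
    have : 0 ≤ 2 * c1 * Real.exp 2 / (3 * τ0) := by positivity
    linarith [abs_nonneg M1]
  rw [← hC]
  have hC0 : 0 ≤ C := (abs_nonneg M1).trans hCa
  intro τ hτ t' ht' B hB hUB hBi
  have hCτ : C ≤ C / τ := by
    rw [le_div_iff₀ hτ.1]
    exact mul_le_of_le_one_right hC0 hτ.2
  rcases ht'.1.eq_or_lt with heq | hlt
  · intro x hx
    rw [← heq]
    have h1 := hM1 x hx
    rw [Real.norm_eq_abs] at h1
    exact ((h1.trans (le_abs_self M1)).trans hCa).trans hCτ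
  have hc0m : (![0, 0, c] : V) ∈ Cy c r h := by
    refine ⟨?_, ?_⟩
    · show (0 : ℝ) ^ 2 + (0 : ℝ) ^ 2 ≤ r ^ 2
      nlinarith
    · show |c - c| ≤ h
      rw [sub_self, abs_zero]
      exact hh.le
  have hB0 : ∀ t ∈ Icc T₁ t', 0 ≤ B t := fun t ht => (abs_nonneg _).trans (hUB t ht _ hc0m)
  obtain ⟨τ', hτ'⟩ : ∃ τ' : ℝ, τ' = min τ τ0 := ⟨_, rfl⟩
  have hτ'0 : 0 < τ' := by rw [hτ']; exact lt_min hτ.1 hτ00
  have hτ'1 : τ' ≤ τ := by rw [hτ']; exact min_le_left _ _
  have hτ'2 : τ' ≤ τ0 := by rw [hτ']; exact min_le_right _ _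
  have hτ'3 : τ * τ0 ≤ τ' := by
    rw [hτ']
    refine le_min ?_ ?_
    · exact mul_le_of_le_one_right hτ.1.le hτ01
    · exact mul_le_of_le_one_left hτ00.le hτ.2
  obtain ⟨t0, ht0⟩ : ∃ t0 : ℝ, t0 = max T₁ (t' - τ') := ⟨_, rfl⟩
  have h01 : T₁ ≤ t0 := by rw [ht0]; exact le_max_left _ _
  have h02 : t' - τ' ≤ t0 := by rw [ht0]; exact le_max_right _ _
  have h03 : t0 < t' := by rw [ht0]; exact max_lt hlt (by linarith)
  have h04 : max T₁ (t' - τ) ≤ t0 := by
    rw [ht0]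
    exact max_le_max le_rfl (by linarith)
  have hBi' : ∫ t in t0..t', B t ≤ 1 := by
    refine le_trans ?_ hBi
    have hs1 : Icc (max T₁ (t' - τ)) t' ⊆ Icc T₁ t' := Icc_subset_Icc_left (le_max_left _ _)
    have hs2 : Icc t0 t' ⊆ Icc T₁ t' := Icc_subset_Icc_left h01
    have i1 : IntervalIntegrable B volume (max T₁ (t' - τ)) t0 := by
      refine ContinuousOn.intervalIntegrable ?_
      rw [uIcc_of_le h04]
      exact hB.mono ((Icc_subset_Icc_right h03.le).trans hs1)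
    have i2 : IntervalIntegrable B volume t0 t' := by
      refine ContinuousOn.intervalIntegrable ?_
      rw [uIcc_of_le h03.le]
      exact hB.mono hs2
    rw [← intervalIntegral.integral_add_adjacent_intervals i1 i2]
    have : 0 ≤ ∫ t in (max T₁ (t' - τ))..t0, B t :=
      intervalIntegral.integral_nonneg h04 fun s hs =>
        hB0 s ⟨(le_max_left _ _).trans hs.1, hs.2.trans h03.le⟩
    linarith
  have hcb' : ∀ t ∈ Ico t0 t', ∀ x ∈ Cy c r h, |circ (u t) x| ≤ c1 ∧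
      ((sg x = r ^ 2 ∨ |x 2 - c| = h) → |WW (u t) x| ≤ k) := by
    intro t ht x hx
    obtain ⟨b1, b2⟩ := hcb t ⟨h01.trans ht.1, ht.2.trans ht'.2⟩ x hx
    refine ⟨?_, fun hb => ?_⟩
    · rw [hc1]
      linarith [le_abs_self c₀]
    · rw [hk]
      linarith [le_abs_self K, b2 hb]
  have ht0m : t0 ∈ Ioo 0 T := ⟨hT1.trans_le h01, h03.trans ht'.2⟩
  have hlen : t' - t0 ≤ τ' := by linarith
  -- the bound at the time `t0`
  obtain ⟨M2, hM2, hM2'⟩ : ∃ M2 : ℝ, (∀ x ∈ Cy c r h, |WW (u t0) x| ≤ M2) ∧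
      (t0 = T₁ → M2 = M1) := by
    by_cases hc : t0 = T₁
    · refine ⟨M1, fun x hx => ?_, fun _ => rfl⟩
      rw [hc]
      exact hM1 x hx
    · obtain ⟨⟨-, sW', -, -⟩, -, -, -⟩ := hAlg (u t0) (slice_V hu.smooth_u ht0m) (hu.axi t0 ht0m)
      obtain ⟨M2, hM2⟩ := (Cy_compact (c := c) (h := h) hr.le).exists_bound_of_continuousOn
        sW'.continuous.continuousOn
      exact ⟨M2, hM2, fun h => absurd h hc⟩
  obtain ⟨θ0, hθ0⟩ : ∃ θ0 : ℝ, θ0 = min (c1 / (2 * k)) (c1 / (|M2| + 1)) := ⟨_, rfl⟩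
  have hθ00 : 0 < θ0 := by rw [hθ0]; exact lt_min (by positivity) (by positivity)
  have hθ0M : θ0 * M2 ≤ c1 := by
    have h1 : θ0 ≤ c1 / (|M2| + 1) := by rw [hθ0]; exact min_le_right _ _
    rw [le_div_iff₀ (by positivity)] at h1
    have h2 : θ0 * M2 ≤ θ0 * (|M2| + 1) :=
      mul_le_mul_of_nonneg_left (by linarith [le_abs_self M2]) hθ00.le
    linarith
  have hθ0k : (θ0 + 3 * Real.exp 2 * (t' - t0)) * k ≤ c1 := by
    have h1 : θ0 ≤ c1 / (2 * k) := by rw [hθ0]; exact min_le_left _ _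
    rw [le_div_iff₀ (by positivity)] at h1
    have h2 : 3 * Real.exp 2 * (t' - t0) * k ≤ 3 * Real.exp 2 * τ0 * k := by
      have : t' - t0 ≤ τ0 := hlen.trans hτ'2
      gcongr
    nlinarith
  have hs2 : Icc t0 t' ⊆ Icc T₁ t' := Icc_subset_Icc_left h01
  have hmain := sm_core hAlg hBar hu hr hrR hh hhH ht0m.1 h03 ht'.2 hc10 hk0 hcb' hM2 hθ00 hθ0M
    hθ0k (hB.mono hs2) (fun t ht => hUB t (hs2 ht)) hBi'
  intro x hx
  refine (hmain x hx).trans ?_
  have hlen0 : 0 < t' - t0 := by linarith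
  by_cases hc : T₁ ≤ t' - τ'
  · have e1 : t' - t0 = τ' := by
      rw [ht0, max_eq_right hc]
      ring
    rw [e1]
    have h1 : 2 * c1 * Real.exp 2 / (θ0 + 3 * τ') ≤ 2 * c1 * Real.exp 2 / (3 * (τ * τ0)) := by
      refine div_le_div_of_nonneg_left (by positivity) ?_ (by linarith)
      have := hτ.1
      positivity
    have h2 : 2 * c1 * Real.exp 2 / (3 * (τ * τ0)) = 2 * c1 * Real.exp 2 / (3 * τ0) / τ := by
      have := hτ.1.ne'
      field_simp
    rw [h2] at h1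
    exact h1.trans (div_le_div_of_nonneg_right hCb hτ.1.le)
  · push Not at hc
    have e1 : t0 = T₁ := by rw [ht0, max_eq_left hc.le]
    have e2 : θ0 = θ1 := by rw [hθ0, hθ1, hM2' e1]
    have h1 : 2 * c1 * Real.exp 2 / (θ0 + 3 * (t' - t0)) ≤ 2 * c1 * Real.exp 2 / θ1 := by
      refine div_le_div_of_nonneg_left (by positivity) hθ10 ?_
      rw [e2]
      linarith
    exact (h1.trans hCc).trans hCτ

end Pool.Agent.Q175.AX
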