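import Pool.Agent.Q175.AX.T2

/-! AXI-T1 (helper175). -/

set_option autoImplicit false

open MeasureTheory Set Metric Filter Topology
open scoped ContDiff
open H459R3.NS Pool.Agent.W268.NS Pool.Agent.Q67.VD

namespace Pool.Agent.Q175.AX

open Pool.Agent.Q85.CC Pool.Agent.Q85.CL Pool.Agent.TH305.AX Pool.Agent.Q67.AXI
open Pool.Agent.W583.MD (sm_pd cs_pd pd_mul' Z Z.add Z.sub Z.smul Z.sum int_cs Z_pd)
open Pool.Agent.TH305.DR (pd_add' pd_sub' pd_neg' pd_cmul pd_const')

/-- The integration by parts. -/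
lemma SS_ibp {v : V → V} (sU : ContDiff ℝ ∞ (UU v)) (sW : ContDiff ℝ ∞ (WW v)) {g : V → ℝ}
    (sg' : ContDiff ℝ ∞ g) (cg : HasCompactSupport g) :
    Z (fun x => g x * SS v x + (RR g x * (WW v x * pd 2 (UU v) x)
      - pd 2 g x * (WW v x * RR (UU v) x))) := by
  have s1 : ContDiff ℝ ∞ (fun y => WW v y * pd 2 (UU v) y) := sW.mul (sm_pd sU 2)
  have s2 : ContDiff ℝ ∞ (fun y => WW v y * RR (UU v) y) := sW.mul (RR_sm sU)
  have z0 := Z_pd ((sm_crd 0).mul (sg'.mul s1)) (cg.mul_right.mul_left (f := fun y : V => y 0)) 0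
  have z1 := Z_pd ((sm_crd 1).mul (sg'.mul s1)) (cg.mul_right.mul_left (f := fun y : V => y 1)) 1
  have z2 := Z_pd (sg'.mul s2) cg.mul_right 2
  have z := (z0.add z1).sub z2
  have e : (fun x => pd 0 (fun y : V => y 0 * (g y * (WW v y * pd 2 (UU v) y))) x
      + pd 1 (fun y : V => y 1 * (g y * (WW v y * pd 2 (UU v) y))) x
      - pd 2 (fun y => g y * (WW v y * RR (UU v) y)) x) = fun x => g x * SS v x
      + (RR g x * (WW v x * pd 2 (UU v) x) - pd 2 g x * (WW v x * RR (UU v) x)) := by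
    funext x
    have c0 : pd 2 (RR (UU v)) x = RR (pd 2 (UU v)) x := by
      have e1 : RR (UU v) = fun y => y 0 * pd 0 (UU v) y + y 1 * pd 1 (UU v) y := rfl
      rw [e1, pd_add' ((sm_crd 0).mul (sm_pd sU 0)) ((sm_crd 1).mul (sm_pd sU 1)),
        pd_mulf (sm_crd 0) (sm_pd sU 0), pd_mulf (sm_crd 1) (sm_pd sU 1), pd_crd, pd_crd]
      unfold RR
      beta_reduce
      rw [pd_comm sU 2 0, pd_comm sU 2 1]
      simp
    rw [pd_mulf (sm_crd 0) (sg'.mul s1), pd_mulf (sm_crd 1) (sg'.mul s1), pd_mulf sg' s1,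
      pd_mulf sg' s1, pd_mulf sg' s2, pd_mulf sW (sm_pd sU 2), pd_mulf sW (sm_pd sU 2),
      pd_mulf sW (RR_sm sU), pd_crd, pd_crd]
    beta_reduce
    rw [c0]
    unfold SS RR
    simp
    ring
  rw [← e]
  exact z

/-- The determinant of the gradients. -/
lemma det_le (A B : V → ℝ) (x : V) (hs : 0 < sg x) :
    (RR A x * pd 2 B x - pd 2 A x * RR B x) ^ 2 ≤ sg x * gr2 A x * gr2 B x := by
  have hA := RR_sq A x
  have hB := RR_sq B x
  obtain ⟨s, hs'⟩ : ∃ s, s = sg x := ⟨_, rfl⟩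
  obtain ⟨a, ha⟩ : ∃ a, a = RR A x := ⟨_, rfl⟩
  obtain ⟨b, hb⟩ : ∃ b, b = RR B x := ⟨_, rfl⟩
  obtain ⟨p, hp⟩ : ∃ p, p = pd 2 A x := ⟨_, rfl⟩
  obtain ⟨q, hq⟩ : ∃ q, q = pd 2 B x := ⟨_, rfl⟩
  obtain ⟨X, hX⟩ : ∃ X, X = pd 0 A x ^ 2 + pd 1 A x ^ 2 := ⟨_, rfl⟩
  obtain ⟨Y, hY⟩ : ∃ Y, Y = pd 0 B x ^ 2 + pd 1 B x ^ 2 := ⟨_, rfl⟩
  have eA : gr2 A x = X + p ^ 2 := by
    unfold gr2
    rw [Fin.sum_univ_three, hX, hp]
  have eB : gr2 B x = Y + q ^ 2 := by
    unfold gr2
    rw [Fin.sum_univ_three, hY, hq]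
  rw [eA, eB, ← hs', ← ha, ← hb, ← hp, ← hq]
  rw [← ha, ← hs', ← hX] at hA
  rw [← hb, ← hs', ← hY] at hB
  rw [← hs'] at hs
  have h1 : (a * q - p * b) ^ 2 * s ≤ (a ^ 2 + s * p ^ 2) * (s * q ^ 2 + b ^ 2) := by
    nlinarith [sq_nonneg (a * b + s * p * q), mul_nonneg hs.le (sq_nonneg (a * b + s * p * q))]
  have h2 : (a ^ 2 + s * p ^ 2) * (s * q ^ 2 + b ^ 2) ≤ (s * (X + p ^ 2)) * (s * (Y + q ^ 2)) := by
    refine mul_le_mul (by linarith) (by linarith) (by positivity) ?_
    have hX0 : 0 ≤ X := by rw [hX]; positivity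
    positivity
  have h3 : (a * q - p * b) ^ 2 * s ≤ (s * (X + p ^ 2) * (Y + q ^ 2)) * s := by
    refine (h1.trans h2).trans (le_of_eq ?_)
    ring
  exact le_of_mul_le_mul_right h3 hs

/-- The gradient of `U` away from the axis. -/
lemma gU_far (hAlg : StmAlg) {v : V → V} (hv : ContDiff ℝ ∞ v) (ha : Axi v) {x : V}
    (hs : 0 < sg x) :
    gr2 (UU v) x ≤ 12 * ((1 / sg x) ^ 2 * W221.NS.nsq v x)
      + 4 * (1 / sg x * W221.NS.gsq v x) := by
  obtain ⟨⟨sU, -⟩, -, -, h⟩ := hAlg v hv ha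
  obtain ⟨-, -, -, -, -, -, -, -, -, hrx, -⟩ := h x
  have hrad : rad v = fun y => sg y * UU v y := by
    funext y
    obtain ⟨-, -, -, -, -, -, -, -, -, hr, -⟩ := h y
    exact hr
  have hpr : ∀ i, pd i (rad v) x = sg x * pd i (UU v) x + pd i sg x * UU v x := by
    intro i
    rw [hrad, pd_mulf sg_cd sU]
  have hpr2 : ∀ i, pd i (rad v) x = x 0 * pd i (fun y => v y 0) x + x 1 * pd i (fun y => v y 1) x
      + ((if (0 : Fin 3) = i then 1 else 0) * v x 0 + (if (1 : Fin 3) = i then 1 else 0) * v x 1) := by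
    intro i
    have e : rad v = fun y => y 0 * v y 0 + y 1 * v y 1 := rfl
    rw [e, pd_add' ((sm_crd 0).mul (sm_cmp hv 0)) ((sm_crd 1).mul (sm_cmp hv 1)),
      pd_mulf (sm_crd 0) (sm_cmp hv 0), pd_mulf (sm_crd 1) (sm_cmp hv 1), pd_crd, pd_crd]
    ring
  obtain ⟨s, hs'⟩ : ∃ s, s = sg x := ⟨_, rfl⟩
  obtain ⟨U, hU⟩ : ∃ U, U = UU v x := ⟨_, rfl⟩
  have hsx : s = x 0 ^ 2 + x 1 ^ 2 := by rw [hs']; rfl
  have hcs : ∀ i, (x 0 * pd i (fun y => v y 0) x + x 1 * pd i (fun y => v y 1) x) ^ 2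
      ≤ s * (pd i (fun y => v y 0) x ^ 2 + pd i (fun y => v y 1) x ^ 2) := by
    intro i
    rw [hsx]
    nlinarith [sq_nonneg (x 0 * pd i (fun y => v y 1) x - x 1 * pd i (fun y => v y 0) x)]
  have hrad2 : (s * U) ^ 2 ≤ s * (v x 0 ^ 2 + v x 1 ^ 2) := by
    have e : s * U = x 0 * v x 0 + x 1 * v x 1 := by
      rw [hs', hU, ← hrx]
      rfl
    rw [e, hsx]
    nlinarith [sq_nonneg (x 0 * v x 1 - x 1 * v x 0)]
  have hpi : ∀ i, s * pd i (UU v) x = pd i (rad v) x - pd i sg x * U := by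
    intro i
    rw [hpr, hU, hs']
    ring
  have k : ∀ i, (s * pd i (UU v) x) ^ 2 ≤ 2 * pd i (rad v) x ^ 2 + 2 * (pd i sg x * U) ^ 2 := by
    intro i
    rw [hpi]
    nlinarith [sq_nonneg (pd i (rad v) x + pd i sg x * U)]
  have k2 : ∀ i, pd i (rad v) x ^ 2 ≤ 2 * (s * (pd i (fun y => v y 0) x ^ 2
      + pd i (fun y => v y 1) x ^ 2)) + 2 * ((if (0 : Fin 3) = i then 1 else 0) * v x 0
        + (if (1 : Fin 3) = i then 1 else 0) * v x 1) ^ 2 := by
    intro i
    rw [hpr2]
    nlinarith [hcs i, sq_nonneg ((x 0 * pd i (fun y => v y 0) x + x 1 * pd i (fun y => v y 1) x)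
      - ((if (0 : Fin 3) = i then 1 else 0) * v x 0 + (if (1 : Fin 3) = i then 1 else 0) * v x 1))]
  have ks0 : pd 0 sg x = 2 * x 0 := by rw [pd_sg]; simp
  have ks1 : pd 1 sg x = 2 * x 1 := by rw [pd_sg]; simp
  have ks2 : pd 2 sg x = 0 := by rw [pd_sg]; simp
  have m0 := k 0
  have m1 := k 1
  have m2 := k 2
  have n0 := k2 0
  have n1 := k2 1
  have n2 := k2 2
  rw [ks0] at m0
  rw [ks1] at m1
  rw [ks2] at m2
  simp only [if_true, show ((0 : Fin 3) = 1) = False by simp, show ((0 : Fin 3) = 2) = False by simp,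
    show ((1 : Fin 3) = 0) = False by simp, show ((1 : Fin 3) = 2) = False by simp,
    if_false, one_mul, zero_mul, add_zero, zero_add] at n0 n1 n2
  have hsum : s ^ 2 * gr2 (UU v) x ≤ 12 * W221.NS.nsq v x + 4 * (s * W221.NS.gsq v x) := by
    have e1 : s ^ 2 * gr2 (UU v) x = (s * pd 0 (UU v) x) ^ 2 + (s * pd 1 (UU v) x) ^ 2
        + (s * pd 2 (UU v) x) ^ 2 := by
      unfold gr2
      rw [Fin.sum_univ_three]
      ring
    have e2 : (2 * x 0 * U) ^ 2 + (2 * x 1 * U) ^ 2 = 4 * (s * U ^ 2) := by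
      rw [hsx]
      ring
    have e3 : s * U ^ 2 ≤ v x 0 ^ 2 + v x 1 ^ 2 := by
      have : s * (s * U ^ 2) ≤ s * (v x 0 ^ 2 + v x 1 ^ 2) := by
        refine le_trans (le_of_eq ?_) hrad2
        ring
      exact le_of_mul_le_mul_left this (by rw [hs']; exact hs)
    have e4 : v x 0 ^ 2 + v x 1 ^ 2 ≤ W221.NS.nsq v x := by
      unfold W221.NS.nsq
      rw [Fin.sum_univ_three]
      nlinarith [sq_nonneg (v x 2)]
    have e5 : (pd 0 (fun y => v y 0) x ^ 2 + pd 0 (fun y => v y 1) x ^ 2)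
        + (pd 1 (fun y => v y 0) x ^ 2 + pd 1 (fun y => v y 1) x ^ 2)
        + (pd 2 (fun y => v y 0) x ^ 2 + pd 2 (fun y => v y 1) x ^ 2) ≤ W221.NS.gsq v x := by
      unfold W221.NS.gsq
      simp only [Fin.sum_univ_three]
      nlinarith [sq_nonneg (pd 0 (fun y => v y 2) x), sq_nonneg (pd 1 (fun y => v y 2) x),
        sq_nonneg (pd 2 (fun y => v y 2) x)]
    have hs0 : 0 ≤ s := by rw [hs']; exact hs.le
    have e6 := mul_le_mul_of_nonneg_left e5 hs0
    rw [e1]
    nlinarith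
  have hsp : 0 < s := by rw [hs']; exact hs
  rw [← hs']
  have h9 : gr2 (UU v) x ≤ (12 * W221.NS.nsq v x + 4 * (s * W221.NS.gsq v x)) / s ^ 2 := by
    rw [le_div_iff₀ (by positivity)]
    linarith
  refine h9.trans (le_of_eq ?_)
  field_simp

lemma amgm {y p q : ℝ} (hp : 0 ≤ p) (hq : 0 ≤ q) (h : y ^ 2 ≤ p * q) :
    |y| ≤ p / 32 + 8 * q := by
  apply abs_le_of_sq_le_sq _ (by positivity)
  nlinarith [sq_nonneg (p / 32 - 8 * q)]

theorem stmT1 (hAlg : StmAlg) (hHar : StmHar) (hU : StmU) : StmT1 := by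
  intro K c r h r1 h1 C' α' hK hr1 hr1r hr2 hh1 hh1h hh hC' hα1 hα2
  have hr0 : 0 ≤ r := (hr1.trans hr1r).le
  have hrle : r ≤ 1 := by
    have := hr2.trans exp2_lt.le
    nlinarith
  obtain ⟨CU, hCU, hU⟩ := hU K c r h r1 h1 hK hr1 hr1r hrle hh1 hh1h hh
  obtain ⟨vol, hvol⟩ : ∃ vol : ℝ, vol = (volume (Co c r h)).toReal := ⟨_, rfl⟩
  have hvol0 : 0 ≤ vol := by rw [hvol]; exact ENNReal.toReal_nonneg
  obtain ⟨D1, hD1⟩ : ∃ D1 : ℝ, D1 = 3 * K ^ 3 * (K + K ^ 2) + 3 * K ^ 4 := ⟨_, rfl⟩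
  have hD10 : 0 ≤ D1 := by rw [hD1]; positivity
  refine ⟨2048 * C' ^ 2 + 1024 * C' ^ 2 * CU + 384 * C' ^ 2 + 96 * C' ^ 2 * K ^ 4 * vol
    + 2 * D1 * vol, by positivity, ?_⟩
  intro M v φ hM hv ha hdf hφ hb hcirc
  obtain ⟨hU1, -⟩ := hU v φ hv ha hdf hφ hb
  obtain ⟨⟨sU, sW, sJ, sO⟩, -, -, hal⟩ := hAlg v hv ha
  have hφs := hφ.sm
  have hM0 : 0 < M := by linarith
  obtain ⟨Λ, hΛ⟩ : ∃ Λ : ℝ, Λ = Real.log M ^ (2 - 2 * α') := ⟨_, rfl⟩
  have hlM := logM hM
  have hΛ0 : 0 ≤ Λ := by rw [hΛ]; exact Real.rpow_nonneg (by linarith) _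
  have hΛ1 : Λ ≤ 1 := by
    rw [hΛ]
    exact Real.rpow_le_one_of_one_le_of_nonpos hlM (by linarith)
  obtain ⟨m, hm⟩ : ∃ m : ℝ, m = M ^ (3 / 8 : ℝ) := ⟨_, rfl⟩
  have hm1 : 1 ≤ m := by rw [hm]; exact Real.one_le_rpow (by linarith) (by norm_num)
  obtain ⟨m8, hm8⟩ : ∃ m8 : ℝ, m8 = M ^ (1 / 8 : ℝ) := ⟨_, rfl⟩
  have hm81 : 1 ≤ m8 := by rw [hm8]; exact Real.one_le_rpow (by linarith) (by norm_num)
  have hm3 : m8 * m8 ^ 2 = m := by
    rw [hm8, hm, ← Real.rpow_natCast, ← Real.rpow_mul hM0.le, ← Real.rpow_add hM0]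
    norm_num
  have hm8m : m8 ≤ m := by
    rw [← hm3]
    nlinarith [one_le_pow₀ (n := 2) hm81]
  obtain ⟨A, hA⟩ : ∃ A : V → ℝ, A = fun y => φ y * JJ v y := ⟨_, rfl⟩
  obtain ⟨B, hB⟩ : ∃ B : V → ℝ, B = fun y => φ y * UU v y := ⟨_, rfl⟩
  obtain ⟨P, hP⟩ : ∃ P : V → ℝ, P = fun y => φ y * OO v y := ⟨_, rfl⟩
  have sA : ContDiff ℝ ∞ A := by rw [hA]; exact hφs.mul sJ
  have sB : ContDiff ℝ ∞ B := by rw [hB]; exact hφs.mul sU
  have cA : HasCompactSupport A := by rw [hA]; exact hφ.cs.mul_right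
  have cB : HasCompactSupport B := by rw [hB]; exact hφ.cs.mul_right
  rw [← hB, ← hP] at hU1
  rw [← hA, ← hP, ← hΛ, ← hm]
  -- Hardy inequality
  have hsupB : ∀ i x, pd i B x ≠ 0 → sg x ≤ Real.exp (-2) := by
    intro i x hx
    by_contra hcon
    push Not at hcon
    apply hx
    have h2 : x ∉ tsupport φ := by
      apply cut_out hφ
      intro h3
      exact absurd (h3.1.le.trans hr2) (not_le.2 hcon)
    have h3 : B =ᶠ[𝓝 x] fun _ => 0 := by
      filter_upwards [cs_zero h2] with y hy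
      rw [hB]
      show φ y * _ = 0
      rw [hy, zero_mul]
    rw [pd_ev h3, pd_const']
  have hHB : Integrable (fun x => wt x * gr2 B x) ∧ ∫ x, wt x * gr2 B x ≤ HD B := by
    have hi := fun i => har_wt hHar (sm_pd sB i) (cs_pd cB i) (hsupB i)
    have e : (fun x => wt x * gr2 B x) = fun x => ∑ i, wt x * pd i B x ^ 2 := by
      funext x
      unfold gr2
      rw [Finset.mul_sum]
    rw [e]
    refine ⟨integrable_finsetSum _ fun i _ => (hi i).1, ?_⟩
    rw [integral_finsetSum _ fun i _ => (hi i).1]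
    refine (Finset.sum_le_sum fun i _ => (hi i).2).trans (le_of_eq ?_)
    unfold GD HD
    rw [← integral_finsetSum _ fun i _ => gr2_int (sm_pd sB i) (cs_pd cB i)]
    refine integral_congr_ae (Eventually.of_forall fun x => ?_)
    show ∑ i, gr2 (pd i B) x = hs2 B x
    unfold gr2 hs2
    exact Finset.sum_comm
  -- integration by parts
  obtain ⟨g, hg⟩ : ∃ g : V → ℝ, g = fun y => φ y * A y := ⟨_, rfl⟩
  have sg' : ContDiff ℝ ∞ g := by rw [hg]; exact hφs.mul sA
  have cg : HasCompactSupport g := by rw [hg]; exact hφ.cs.mul_right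
  have hZ := SS_ibp sU sW sg' cg
  have hg2 : ∀ x, φ x ^ 2 * JJ v x = g x := by
    intro x
    rw [hg, hA]
    ring
  obtain ⟨I, hI⟩ : ∃ I : V → ℝ, I = fun x => RR g x * (WW v x * pd 2 (UU v) x)
      - pd 2 g x * (WW v x * RR (UU v) x) := ⟨_, rfl⟩
  have cgp : ∀ x ∉ tsupport g, RR g x = 0 ∧ pd 2 g x = 0 := fun x hx =>
    ⟨by rw [RR_ev (cs_zero hx), RR_const], by rw [pd_ev (cs_zero hx), pd_const']⟩
  have iI : Integrable I := by
    rw [hI]
    refine int_cs (((RR_sm sg').mul (sW.mul (sm_pd sU 2))).sub ((sm_pd sg' 2).mul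
      (sW.mul (RR_sm sU)))).continuous (cs_of cg fun x hx => ?_)
    rw [(cgp x hx).1, (cgp x hx).2]
    ring
  have hS : ContDiff ℝ ∞ (SS v) := by
    unfold SS
    exact (((RR_sm sU).mul (sm_pd sW 2)).neg.add ((RR_sm sW).mul (sm_pd sU 2))).add
      ((contDiff_const.mul sW).mul (sm_pd sU 2))
  have iS : Integrable (fun x => g x * SS v x) := int_cs (sg'.mul hS).continuous cg.mul_right
  have hint : ∫ x, φ x ^ 2 * JJ v x * SS v x = -∫ x, I x := by
    have e : ∀ x, φ x ^ 2 * JJ v x * SS v x = g x * SS v x := fun x => by rw [hg2]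
    rw [integral_congr_ae (Eventually.of_forall e)]
    have h2 := hZ.2
    rw [hI] at iI ⊢
    rw [integral_add iS iI] at h2
    linarith
  -- pointwise bound
  obtain ⟨G, hG⟩ : ∃ G : V → ℝ, G = (Co c r h).indicator (fun x => 192 * C' ^ 2
      * (W221.NS.gsq v x + W221.NS.nsq v x) + 48 * C' ^ 2 * K ^ 4) := ⟨_, rfl⟩
  have hG0 : ∀ x, 0 ≤ G x := by
    intro x
    rw [hG]
    refine indicator_nonneg (fun y _ => ?_) _
    have := gsq_nn v y
    have := nsq_nn v y
    positivity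
  have hpt : ∀ x, sg x ≠ 0 → |I x| ≤ ((1 / 32) * gr2 A x + 512 * C' ^ 2 * Λ * (wt x * gr2 B x))
      + (m * G x + (Co c r h).indicator (fun _ : V => D1) x) := by
    intro x hs
    have hsp : 0 < sg x := lt_of_le_of_ne (sg_nn x) (Ne.symm hs)
    obtain ⟨Er, hEr⟩ : ∃ Er : ℝ, Er = WW v x * (-(RR A x * pd 2 φ x * UU v x)
        + pd 2 A x * UU v x * RR φ x + A x * RR φ x * pd 2 (UU v) x
        - A x * pd 2 φ x * RR (UU v) x) := ⟨_, rfl⟩
    have e1 : I x = WW v x * (RR A x * pd 2 B x - pd 2 A x * RR B x) + Er := by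
      rw [hI, hEr]
      show RR g x * (WW v x * pd 2 (UU v) x) - pd 2 g x * (WW v x * RR (UU v) x) = _
      have r1 : RR g x = φ x * RR A x + A x * RR φ x := by rw [hg]; exact RR_mul hφs sA x
      have r2 : pd 2 g x = φ x * pd 2 A x + pd 2 φ x * A x := by rw [hg, pd_mulf hφs sA]
      have r3 : RR B x = φ x * RR (UU v) x + UU v x * RR φ x := by rw [hB]; exact RR_mul hφs sU x
      have r4 : pd 2 B x = φ x * pd 2 (UU v) x + pd 2 φ x * UU v x := by
        rw [hB, pd_mulf hφs sU]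
      rw [r1, r2, r3, r4]
      ring
    have hErb : |Er| ≤ (Co c r h).indicator (fun _ : V => D1) x := by
      rcases cut_dich hφ x with ⟨ho, hc⟩ | ⟨k, hk⟩
      · rw [indicator_of_mem hc]
        obtain ⟨b1, b2, b3, b4, b5, b6⟩ := hb x ho
        obtain ⟨c1, c2, c3⟩ := hφ.bd x
        obtain ⟨x0, x1, -⟩ := Cy_coord hr0 (Co_sub_Cy _ _ _ hc)
        have hφ1 : |φ x| ≤ 1 := by
          rw [abs_of_nonneg (hφ.nn x)]
          exact hφ.le x
        have hsg1 : sg x ≤ 1 := hc.1.le.trans (hr2.trans exp2_lt.le)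
        have tR : |RR φ x| ≤ K := c3.trans (by nlinarith)
        have tA : |A x| ≤ K := by
          rw [hA]
          show |φ x * JJ v x| ≤ K
          rw [abs_mul]
          calc |φ x| * |JJ v x| ≤ 1 * K := mul_le_mul hφ1 b4 (abs_nonneg _) zero_le_one
            _ = K := one_mul K
        have tdA : ∀ i, |pd i A x| ≤ K + K ^ 2 := by
          intro i
          rw [hA, pd_mulf hφs sJ]
          calc |φ x * pd i (JJ v) x + pd i φ x * JJ v x|
              ≤ |φ x * pd i (JJ v) x| + |pd i φ x * JJ v x| := abs_add_le _ _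
            _ = |φ x| * |pd i (JJ v) x| + |pd i φ x| * |JJ v x| := by rw [abs_mul, abs_mul]
            _ ≤ 1 * K + K * K := add_le_add
                (mul_le_mul hφ1 (b6 i).2.2.1 (abs_nonneg _) zero_le_one)
                (mul_le_mul (c1 i) b4 (abs_nonneg _) hK)
            _ = K + K ^ 2 := by ring
        have hxr : ∀ (f : V → ℝ) (k : ℝ), 0 ≤ k → (∀ i, |pd i f x| ≤ k) → |RR f x| ≤ 2 * k := by
          intro f k hk0 hk
          unfold RR
          calc |x 0 * pd 0 f x + x 1 * pd 1 f x| ≤ |x 0 * pd 0 f x| + |x 1 * pd 1 f x| :=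
                abs_add_le _ _
            _ = |x 0| * |pd 0 f x| + |x 1| * |pd 1 f x| := by rw [abs_mul, abs_mul]
            _ ≤ 1 * k + 1 * k := add_le_add
                (mul_le_mul (x0.trans hrle) (hk 0) (abs_nonneg _) zero_le_one)
                (mul_le_mul (x1.trans hrle) (hk 1) (abs_nonneg _) zero_le_one)
            _ = 2 * k := by ring
        have tRA := hxr A (K + K ^ 2) (by positivity) tdA
        have tRU := hxr (UU v) K hK (fun i => (b6 i).1)
        have tdU : |pd 2 (UU v) x| ≤ K := (b6 2).1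
        have u1 : |RR A x * pd 2 φ x * UU v x| ≤ 2 * (K + K ^ 2) * K * K := by
          rw [abs_mul, abs_mul]
          gcongr
          exact c1 2
        have u2 : |pd 2 A x * UU v x * RR φ x| ≤ (K + K ^ 2) * K * K := by
          rw [abs_mul, abs_mul]
          gcongr
          exact tdA 2
        have u3 : |A x * RR φ x * pd 2 (UU v) x| ≤ K * K * K := by
          rw [abs_mul, abs_mul]
          gcongr
        have u4 : |A x * pd 2 φ x * RR (UU v) x| ≤ K * K * (2 * K) := by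
          rw [abs_mul, abs_mul]
          gcongr
          exact c1 2
        have u5 : |-(RR A x * pd 2 φ x * UU v x)
            + pd 2 A x * UU v x * RR φ x + A x * RR φ x * pd 2 (UU v) x
            - A x * pd 2 φ x * RR (UU v) x| ≤ 3 * (K + K ^ 2) * K ^ 2 + 3 * K ^ 3 := by
          have v1 := abs_le.1 u1
          have v2 := abs_le.1 u2
          have v3 := abs_le.1 u3
          have v4 := abs_le.1 u4
          rw [abs_le]
          constructor <;> linarith [v1.1, v1.2, v2.1, v2.2, v3.1, v3.2, v4.1, v4.2]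
        rw [hEr, abs_mul, hD1]
        calc |WW v x| * _ ≤ K * (3 * (K + K ^ 2) * K ^ 2 + 3 * K ^ 3) :=
              mul_le_mul b3 u5 (abs_nonneg _) hK
          _ = 3 * K ^ 3 * (K + K ^ 2) + 3 * K ^ 4 := by ring
      · obtain ⟨q1, q2, q3⟩ := const_pd hk
        have : Er = 0 := by
          rw [hEr, q1, q3]
          ring
        rw [this, abs_zero]
        exact indicator_nonneg (fun _ _ => hD10) _
    -- the main term
    have hgB0 := gr2_nn B x
    have hmain : |WW v x * (RR A x * pd 2 B x - pd 2 A x * RR B x)|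
        ≤ (1 / 32) * gr2 A x + 8 * (WW v x ^ 2 * sg x * gr2 B x) := by
      have h2 := det_le A B x hsp
      have h3 : (WW v x * (RR A x * pd 2 B x - pd 2 A x * RR B x)) ^ 2
          ≤ gr2 A x * (WW v x ^ 2 * sg x * gr2 B x) := by
        rw [mul_pow]
        calc WW v x ^ 2 * (RR A x * pd 2 B x - pd 2 A x * RR B x) ^ 2
            ≤ WW v x ^ 2 * (sg x * gr2 A x * gr2 B x) :=
              mul_le_mul_of_nonneg_left h2 (sq_nonneg _)
          _ = _ := by ring
      have h4 := amgm (gr2_nn A x) (by positivity) h3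
      linarith
    have hrest : 8 * (WW v x ^ 2 * sg x * gr2 B x)
        ≤ 512 * C' ^ 2 * Λ * (wt x * gr2 B x) + m * G x := by
      have hw0 : 0 ≤ 512 * C' ^ 2 * Λ * (wt x * gr2 B x) := by
        have := wt_nn x
        positivity
      have hmG : 0 ≤ m * G x := mul_nonneg (by linarith) (hG0 x)
      by_cases hx : x ∈ Co c r h
      · have hsx : sg x ≤ Real.exp (-2) := hx.1.le.trans hr2
        obtain ⟨l1, l2, l3⟩ := log_ge hsp hsx
        have hc := hcirc x hx hs
        obtain ⟨-, -, -, -, -, -, -, -, hcW, -⟩ := hal x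
        rw [hcW, abs_mul, abs_of_pos hsp] at hc
        obtain ⟨l, hl⟩ : ∃ l, l = |Real.log (sg x)| := ⟨_, rfl⟩
        rw [← hl] at hc l2 l3
        have hl0 : 0 < l := by linarith
        have hWs : WW v x ^ 2 * sg x ≤ C' ^ 2 * (l ^ (-α')) ^ 2 * (1 / sg x) := by
          rw [mul_one_div, le_div_iff₀ hsp]
          have h5 : (sg x * |WW v x|) ^ 2 ≤ (C' * l ^ (-α')) ^ 2 :=
            pow_le_pow_left₀ (by positivity) hc 2
          rw [mul_pow, sq_abs, mul_pow] at h5
          nlinarith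
        by_cases hreg : sg x ≤ M ^ (-(1 / 8) : ℝ)
        · have h5 : Real.log M / 8 ≤ l := by
            have h6 := Real.log_le_log hsp hreg
            rw [Real.log_rpow hM0] at h6
            rw [l2]
            linarith
          have h7 : (l ^ (-α')) ^ 2 ≤ 64 * Λ * (1 / l ^ 2) := by
            have e2 : (l ^ (-α')) ^ 2 = l ^ (2 - 2 * α') * (1 / l ^ 2) := by
              rw [← Real.rpow_natCast l 2, ← Real.rpow_natCast (l ^ (-α')) 2,
                ← Real.rpow_mul hl0.le, one_div, ← Real.rpow_neg hl0.le, ← Real.rpow_add hl0]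
              congr 1
              push_cast
              ring
            rw [e2]
            refine mul_le_mul_of_nonneg_right ?_ (by positivity)
            calc l ^ (2 - 2 * α') ≤ (Real.log M / 8) ^ (2 - 2 * α') :=
                  Real.rpow_le_rpow_of_nonpos (by linarith) h5 (by linarith)
              _ = Λ * 8 ^ (-(2 - 2 * α')) := by
                  rw [Real.div_rpow (by linarith) (by norm_num), ← hΛ, div_eq_mul_inv,
                    ← Real.rpow_neg (by norm_num)]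
              _ ≤ Λ * 8 ^ (2 : ℝ) := by
                  refine mul_le_mul_of_nonneg_left ?_ hΛ0
                  exact Real.rpow_le_rpow_of_exponent_le (by norm_num) (by linarith)
              _ = 64 * Λ := by
                  norm_num
                  ring
          have h8 : WW v x ^ 2 * sg x ≤ 64 * C' ^ 2 * Λ * wt x := by
            refine hWs.trans ?_
            have e3 : wt x = 1 / l ^ 2 * (1 / sg x) := by
              unfold wt
              rw [hl, sq_abs]
              field_simp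
            rw [e3]
            calc C' ^ 2 * (l ^ (-α')) ^ 2 * (1 / sg x)
                ≤ C' ^ 2 * (64 * Λ * (1 / l ^ 2)) * (1 / sg x) := by gcongr
              _ = _ := by ring
          have h9 := mul_le_mul_of_nonneg_right h8 hgB0
          have h10 : 64 * C' ^ 2 * Λ * wt x * gr2 B x * 8
              = 512 * C' ^ 2 * Λ * (wt x * gr2 B x) := by ring
          linarith
        · push Not at hreg
          have h3 := inv_far hM hreg
          rw [← hm8] at h3
          have h5 : l ^ (-α') ≤ 1 :=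
            Real.rpow_le_one_of_one_le_of_nonpos (by linarith) (by linarith)
          have h50 : 0 ≤ l ^ (-α') := Real.rpow_nonneg hl0.le _
          have h6 : WW v x ^ 2 * sg x ≤ C' ^ 2 * m8 := by
            refine hWs.trans ?_
            have h7 : (l ^ (-α')) ^ 2 ≤ 1 := pow_le_one₀ h50 h5
            calc C' ^ 2 * (l ^ (-α')) ^ 2 * (1 / sg x) ≤ C' ^ 2 * 1 * m8 := by gcongr
              _ = C' ^ 2 * m8 := by ring
          have hgsq := gsq_nn v x
          have hnsq := nsq_nn v x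
          have hgU : gr2 (UU v) x ≤ 12 * m8 ^ 2 * (W221.NS.gsq v x + W221.NS.nsq v x) := by
            have h7 := gU_far hAlg hv ha hsp
            have hi0 : 0 ≤ 1 / sg x := by positivity
            have h8 : (1 / sg x) ^ 2 * W221.NS.nsq v x ≤ m8 ^ 2 * W221.NS.nsq v x := by gcongr
            have h9 : 1 / sg x * W221.NS.gsq v x ≤ m8 ^ 2 * W221.NS.gsq v x := by
              refine mul_le_mul_of_nonneg_right (h3.trans ?_) hgsq
              nlinarith
            nlinarith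
          have hgB : gr2 B x ≤ 2 * gr2 (UU v) x + 6 * K ^ 4 := by
            have hφ0 := hφ.nn x
            have hφ1 := hφ.le x
            have hi : ∀ i, pd i B x ^ 2 ≤ 2 * pd i (UU v) x ^ 2 + 2 * K ^ 4 := by
              intro i
              rw [hB, pd_mulf hφs sU]
              show (φ x * pd i (UU v) x + pd i φ x * UU v x) ^ 2 ≤ _
              have t1 : (φ x * pd i (UU v) x) ^ 2 ≤ pd i (UU v) x ^ 2 := by
                rw [mul_pow]
                have : φ x ^ 2 ≤ 1 := pow_le_one₀ hφ0 hφ1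
                nlinarith [sq_nonneg (pd i (UU v) x)]
              have t2 : (pd i φ x * UU v x) ^ 2 ≤ K ^ 4 := by
                rcases cut_dich hφ x with ⟨ho, -⟩ | ⟨k, hk⟩
                · obtain ⟨b1, b2, -⟩ := hb x ho
                  obtain ⟨c1, -⟩ := hφ.bd x
                  have : |pd i φ x * UU v x| ≤ K * K := by
                    rw [abs_mul]
                    exact mul_le_mul (c1 i) b2 (abs_nonneg _) hK
                  have h2 := sq_le_sq' (abs_le.1 this).1 (abs_le.1 this).2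
                  refine h2.trans (le_of_eq ?_)
                  ring
                · rw [(const_pd hk).1 i, zero_mul, zero_pow (by norm_num)]
                  positivity
              nlinarith [sq_nonneg (φ x * pd i (UU v) x - pd i φ x * UU v x)]
            unfold gr2
            simp only [Fin.sum_univ_three]
            linarith [hi 0, hi 1, hi 2]
          have hGx : G x = 192 * C' ^ 2 * (W221.NS.gsq v x + W221.NS.nsq v x)
              + 48 * C' ^ 2 * K ^ 4 := by
            rw [hG, indicator_of_mem hx]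
          have hm80 : 0 ≤ m8 := by linarith
          have h11 : WW v x ^ 2 * sg x * gr2 B x ≤ C' ^ 2 * m8 * (24 * m8 ^ 2
              * (W221.NS.gsq v x + W221.NS.nsq v x) + 6 * K ^ 4) := by
            refine mul_le_mul h6 ?_ hgB0 (by positivity)
            linarith
          have h12 : 8 * (C' ^ 2 * m8 * (24 * m8 ^ 2
              * (W221.NS.gsq v x + W221.NS.nsq v x) + 6 * K ^ 4)) ≤ m * G x := by
            rw [hGx]
            have e4 : 8 * (C' ^ 2 * m8 * (24 * m8 ^ 2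
              * (W221.NS.gsq v x + W221.NS.nsq v x) + 6 * K ^ 4))
              = 192 * C' ^ 2 * (m8 * m8 ^ 2) * (W221.NS.gsq v x + W221.NS.nsq v x)
                + m8 * (48 * C' ^ 2 * K ^ 4) := by ring
            rw [e4, hm3]
            have e5 : m8 * (48 * C' ^ 2 * K ^ 4) ≤ m * (48 * C' ^ 2 * K ^ 4) :=
              mul_le_mul_of_nonneg_right hm8m (by positivity)
            linarith
          linarith
      · have h2 : gr2 B x = 0 := by
          have h3 : B =ᶠ[𝓝 x] fun _ => 0 := by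
            filter_upwards [cs_zero (cut_out hφ hx)] with y hy
            rw [hB]
            show φ y * _ = 0
            rw [hy, zero_mul]
          unfold gr2
          refine Finset.sum_eq_zero fun i _ => ?_
          rw [pd_ev h3, pd_const']
          simp
        rw [h2]
        rw [h2] at hw0
        simp only [mul_zero] at hw0 ⊢
        linarith
    rw [e1]
    refine (abs_add_le _ _).trans ?_
    linarith
  -- integration
  have iG : Integrable G := by
    rw [hG]
    refine (integrable_indicator_iff (Co_meas c r h)).2 (on_Co ?_ hr0)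
    exact (continuous_const.mul ((gsq_cont hv).add (nsq_cont hv))).add continuous_const
  have hGv : ∫ x, G x = 192 * C' ^ 2 * (∫ x in Co c r h, (W221.NS.gsq v x + W221.NS.nsq v x))
      + 48 * C' ^ 2 * K ^ 4 * vol := by
    rw [hG, integral_indicator (Co_meas c r h)]
    have i1 : IntegrableOn (fun x => 192 * C' ^ 2 * (W221.NS.gsq v x + W221.NS.nsq v x))
        (Co c r h) := on_Co (continuous_const.mul ((gsq_cont hv).add (nsq_cont hv))) hr0
    have i2 : IntegrableOn (fun _ : V => 48 * C' ^ 2 * K ^ 4) (Co c r h) :=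
      on_Co continuous_const hr0
    rw [integral_add i1 i2, integral_const_mul, setIntegral_const, hvol]
    show _ + (volume (Co c r h)).toReal • (48 * C' ^ 2 * K ^ 4) = _
    rw [smul_eq_mul]
    ring
  have j1 := ((gr2_int sA cA).const_mul (1 / 32)).add (hHB.1.const_mul (512 * C' ^ 2 * Λ))
  have j2 := (iG.const_mul m).add (ind_int (c := c) (h := h) hr0 D1)
  have hfin : |∫ x, I x| ≤ ((1 / 32) * GD A + 512 * C' ^ 2 * Λ * (∫ x, wt x * gr2 B x))
      + (m * (∫ x, G x) + vol * D1) := by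
    refine abs_integral_le_integral_abs.trans ?_
    have h2 : ∫ x, |I x| ≤ ∫ x, (((1 / 32) * gr2 A x + 512 * C' ^ 2 * Λ * (wt x * gr2 B x))
      + (m * G x + (Co c r h).indicator (fun _ : V => D1) x)) := by
      refine integral_mono_ae iI.abs (j1.add j2) ?_
      filter_upwards [axis_ae] with x hx
      exact hpt x hx
    have k1 := integral_add j1 j2
    have k2 := integral_add ((gr2_int sA cA).const_mul (1 / 32))
      (hHB.1.const_mul (512 * C' ^ 2 * Λ))
    have k3 := integral_add (iG.const_mul m) (ind_int (c := c) (h := h) hr0 D1)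
    simp only [Pi.add_apply] at k1 k2 k3
    rw [k1, k2, k3, integral_const_mul, integral_const_mul, integral_const_mul, ind_val,
      ← hvol] at h2
    exact h2
  rw [hint, abs_neg]
  have hX0 : 0 ≤ ∫ x in Co c r h, (W221.NS.gsq v x + W221.NS.nsq v x) :=
    integral_nonneg fun x => add_nonneg (gsq_nn v x) (nsq_nn v x)
  obtain ⟨X, hX⟩ : ∃ X : ℝ, X = ∫ x in Co c r h, (W221.NS.gsq v x + W221.NS.nsq v x) := ⟨_, rfl⟩
  rw [← hX] at hX0 hGv ⊢
  rw [hGv] at hfin
  have hGA := GD_nn A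
  have hGP := GD_nn P
  have f1 : 512 * C' ^ 2 * Λ * (∫ x, wt x * gr2 B x) ≤ 512 * C' ^ 2 * Λ * (2 * GD P + CU) :=
    mul_le_mul_of_nonneg_left (hHB.2.trans hU1) (by positivity)
  have f2 : 512 * C' ^ 2 * Λ * CU ≤ m * (512 * C' ^ 2 * CU) := by
    have : Λ * (512 * C' ^ 2 * CU) ≤ m * (512 * C' ^ 2 * CU) :=
      mul_le_mul_of_nonneg_right (hΛ1.trans hm1) (by positivity)
    linarith
  have f3 : vol * D1 ≤ m * (vol * D1) := le_mul_of_one_le_left (by positivity) hm1
  have hmX : 0 ≤ m * X := by positivity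
  have f4 : 2 * |∫ x, I x| ≤ (1 / 16) * GD A + 2048 * C' ^ 2 * (Λ * GD P)
      + m * (1024 * C' ^ 2 * CU + 384 * C' ^ 2 * X + 96 * C' ^ 2 * K ^ 4 * vol
        + 2 * D1 * vol) := by
    linarith
  obtain ⟨C, hC⟩ : ∃ C : ℝ, C = 2048 * C' ^ 2 + 1024 * C' ^ 2 * CU + 384 * C' ^ 2
      + 96 * C' ^ 2 * K ^ 4 * vol + 2 * D1 * vol := ⟨_, rfl⟩
  rw [← hC]
  have g1 : 2048 * C' ^ 2 * (Λ * GD P) ≤ C * (Λ * GD P) := by
    refine mul_le_mul_of_nonneg_right ?_ (by positivity)
    rw [hC]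
    have : 0 ≤ 1024 * C' ^ 2 * CU + 384 * C' ^ 2 + 96 * C' ^ 2 * K ^ 4 * vol + 2 * D1 * vol := by
      positivity
    linarith
  have g2 : m * (1024 * C' ^ 2 * CU + 384 * C' ^ 2 * X + 96 * C' ^ 2 * K ^ 4 * vol
        + 2 * D1 * vol) ≤ m * (C * (1 + X)) := by
    refine mul_le_mul_of_nonneg_left ?_ (by linarith)
    have q1 : 0 ≤ 2048 * C' ^ 2 * (1 + X) := by positivity
    have q2 : 0 ≤ 1024 * C' ^ 2 * CU * X := by positivity
    have q3 : 0 ≤ 384 * C' ^ 2 := by positivity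
    have q4 : 0 ≤ 96 * C' ^ 2 * K ^ 4 * vol * X := by positivity
    have q5 : 0 ≤ 2 * D1 * vol * X := by positivity
    rw [hC]
    linarith
  have hC0 : 0 ≤ C * (Λ * GD P) + m * (C * (1 + X)) - C * (Λ * GD P) - m * (C * (1 + X)) := by
    linarith
  linarith

end Pool.Agent.Q175.AX
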