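import Pool.Agent.Q175.AX.UU

/-! AXI-T2 (helper175). -/

set_option autoImplicit false

open MeasureTheory Set Metric Filter Topology
open scoped ContDiff
open H459R3.NS Pool.Agent.W268.NS Pool.Agent.Q67.VD

namespace Pool.Agent.Q175.AX

open Pool.Agent.Q85.CC Pool.Agent.Q85.CL Pool.Agent.TH305.AX Pool.Agent.Q67.AXI
open Pool.Agent.W583.MD (sm_pd cs_pd pd_mul' Z Z.add Z.sub Z.smul Z.sum int_cs Z_pd)
open Pool.Agent.TH305.DR (pd_add' pd_sub' pd_neg' pd_cmul pd_const')

/-- Weighted Cauchy-Schwarz inequality. -/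
lemma cs_int {f g w : V → ℝ} (hw : ∀ x, 0 ≤ w x) (hf : Integrable (fun x => w x * f x ^ 2))
    (hg : Integrable (fun x => w x * g x ^ 2))
    (hm : AEStronglyMeasurable (fun x => w x * (f x * g x)) volume) :
    Integrable (fun x => w x * (f x * g x)) ∧
    ∫ x, w x * (f x * g x) ≤ √((∫ x, w x * f x ^ 2) * ∫ x, w x * g x ^ 2) := by
  have hi : Integrable (fun x => w x * (f x * g x)) := by
    refine (hf.add hg).mono' hm (Eventually.of_forall fun x => ?_)
    show |w x * (f x * g x)| ≤ w x * f x ^ 2 + w x * g x ^ 2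
    have h0 := hw x
    rw [abs_mul, abs_of_nonneg h0, ← mul_add]
    refine mul_le_mul_of_nonneg_left ?_ h0
    rw [abs_le]
    constructor <;> nlinarith [sq_nonneg (f x - g x), sq_nonneg (f x + g x)]
  refine ⟨hi, ?_⟩
  have hd : discrim (∫ x, w x * f x ^ 2) (-(2 * ∫ x, w x * (f x * g x)))
      (∫ x, w x * g x ^ 2) ≤ 0 := by
    refine discrim_le_zero fun t => ?_
    have e1 : (∫ x, w x * f x ^ 2) * (t * t) + -(2 * ∫ x, w x * (f x * g x)) * t
        + ∫ x, w x * g x ^ 2 = ∫ x, w x * (t * f x - g x) ^ 2 := by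
      have k1 := integral_add ((hf.const_mul (t * t)).add (hi.const_mul (-(2 * t)))) hg
      have k2 := integral_add (hf.const_mul (t * t)) (hi.const_mul (-(2 * t)))
      simp only [Pi.add_apply] at k1 k2
      rw [k2, integral_const_mul, integral_const_mul] at k1
      have e2 : ∀ x, w x * (t * f x - g x) ^ 2 = t * t * (w x * f x ^ 2)
          + -(2 * t) * (w x * (f x * g x)) + w x * g x ^ 2 := by
        intro x
        ring
      rw [integral_congr_ae (Eventually.of_forall e2), k1]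
      ring
    rw [e1]
    exact integral_nonneg fun x => mul_nonneg (hw x) (sq_nonneg _)
  unfold discrim at hd
  apply Real.le_sqrt_of_sq_le
  nlinarith

lemma logM {M : ℝ} (hM : 3 ≤ M) : 1 ≤ Real.log M := by
  have h1 := Real.exp_one_lt_d9
  rw [Real.le_log_iff_exp_le (by linarith)]
  linarith

lemma exp2_lt : Real.exp (-2) < 1 := by
  rw [Real.exp_lt_one_iff]
  norm_num

/-- The logarithm is large in the cylinder. -/
lemma log_ge {s : ℝ} (h0 : 0 < s) (h1 : s ≤ Real.exp (-2)) :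
    Real.log s ≤ -2 ∧ |Real.log s| = -Real.log s ∧ 2 ≤ |Real.log s| := by
  have h2 : Real.log s ≤ -2 := by
    have := Real.log_le_log h0 h1
    rwa [Real.log_exp] at this
  have h3 : |Real.log s| = -Real.log s := abs_of_nonpos (by linarith)
  exact ⟨h2, h3, by rw [h3]; linarith⟩

/-- Bound of `W` near the axis. -/
lemma W_near {s w M C' α' : ℝ} (hs : 0 < s) (hs1 : s ≤ Real.exp (-2)) (hM : 3 ≤ M) (hC : 0 ≤ C')
    (h1 : 1 < α') (h2 : α' ≤ 2) (hw : s * |w| ≤ C' * |Real.log s| ^ (-α')) (hwM : |w| ≤ M) :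
    |w| ≤ (2 * C' + 8) * Real.log M ^ (2 - α') * (1 / (s * Real.log s ^ 2)) := by
  obtain ⟨l1, l2, l3⟩ := log_ge hs hs1
  obtain ⟨l, hl⟩ : ∃ l, l = |Real.log s| := ⟨_, rfl⟩
  have hlM := logM hM
  have hsq : Real.log s ^ 2 = l ^ 2 := by rw [hl, sq_abs]
  rw [← hl] at hw l2 l3
  rw [hsq, mul_one_div, le_div_iff₀ (by positivity)]
  have hp1 : 1 ≤ Real.log M ^ (2 - α') := Real.one_le_rpow hlM (by linarith)
  by_cases hc : M ^ (-2 : ℝ) ≤ s
  · -- logarithm at most `2 log M`
    have hM0 : 0 < M := by linarith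
    have h5 : l ≤ 2 * Real.log M := by
      have h6 := Real.log_le_log (Real.rpow_pos_of_pos hM0 _) hc
      rw [Real.log_rpow hM0] at h6
      rw [l2]
      linarith
    have h7 : l ^ (-α') * l ^ 2 = l ^ (2 - α') := by
      rw [← Real.rpow_natCast l 2, ← Real.rpow_add (by linarith)]
      congr 1
      push_cast
      ring
    have h8 : l ^ (2 - α') ≤ 2 * Real.log M ^ (2 - α') := by
      calc l ^ (2 - α') ≤ (2 * Real.log M) ^ (2 - α') :=
            Real.rpow_le_rpow (by linarith) h5 (by linarith)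
        _ = 2 ^ (2 - α') * Real.log M ^ (2 - α') := Real.mul_rpow (by norm_num) (by linarith)
        _ ≤ 2 * Real.log M ^ (2 - α') := by
            refine mul_le_mul_of_nonneg_right ?_ (by linarith)
            calc (2 : ℝ) ^ (2 - α') ≤ 2 ^ (1 : ℝ) :=
                  Real.rpow_le_rpow_of_exponent_le (by norm_num) (by linarith)
              _ = 2 := Real.rpow_one 2
    calc |w| * (s * l ^ 2) = (s * |w|) * l ^ 2 := by ring
      _ ≤ (C' * l ^ (-α')) * l ^ 2 := mul_le_mul_of_nonneg_right hw (sq_nonneg _)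
      _ = C' * l ^ (2 - α') := by rw [← h7]; ring
      _ ≤ C' * (2 * Real.log M ^ (2 - α')) := mul_le_mul_of_nonneg_left h8 hC
      _ ≤ (2 * C' + 8) * Real.log M ^ (2 - α') := by nlinarith
  · push Not at hc
    have hM0 : 0 < M := by linarith
    have h5 : M ≤ Real.exp (l / 2) := by
      have h6 := Real.log_le_log hs hc.le
      rw [Real.log_rpow hM0] at h6
      rw [← Real.log_le_iff_le_exp hM0, l2]
      linarith
    have h6 : s = Real.exp (-l) := by
      rw [l2, neg_neg, Real.exp_log hs]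
    have h7 : l ^ 2 ≤ 8 * Real.exp (l / 2) := by
      have := Real.quadratic_le_exp_of_nonneg (x := l / 2) (by linarith)
      nlinarith
    have h8 : Real.exp (l / 2) * Real.exp (-l) * Real.exp (l / 2) = 1 := by
      rw [← Real.exp_add, ← Real.exp_add]
      have : l / 2 + -l + l / 2 = 0 := by ring
      rw [this, Real.exp_zero]
    calc |w| * (s * l ^ 2) ≤ Real.exp (l / 2) * (s * (8 * Real.exp (l / 2))) := by
          gcongr
          exact hwM.trans h5
      _ = 8 * (Real.exp (l / 2) * Real.exp (-l) * Real.exp (l / 2)) := by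
          rw [h6]
          ring
      _ = 8 := by rw [h8, mul_one]
      _ ≤ (2 * C' + 8) * Real.log M ^ (2 - α') := by nlinarith

/-- `1 / s` away from the axis. -/
lemma inv_far {s M : ℝ} (hM : 3 ≤ M) (h : M ^ (-(1 / 8) : ℝ) < s) :
    1 / s ≤ M ^ (1 / 8 : ℝ) := by
  have hM0 : 0 < M := by linarith
  have h1 : 0 < M ^ (-(1 / 8) : ℝ) := Real.rpow_pos_of_pos hM0 _
  have h2 : 1 / s ≤ 1 / M ^ (-(1 / 8) : ℝ) := one_div_le_one_div_of_le h1 h.le
  have h3 : 1 / M ^ (-(1 / 8) : ℝ) = M ^ (1 / 8 : ℝ) := by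
    rw [Real.rpow_neg hM0.le]
    exact (one_div _).trans (inv_inv _)
  rw [h3] at h2
  exact h2

/-- The weight in the Hardy inequality. -/
noncomputable def wt (x : V) : ℝ := 1 / (sg x * Real.log (sg x) ^ 2)

lemma wt_nn (x : V) : 0 ≤ wt x := by
  unfold wt
  have := sg_nn x
  positivity

lemma wt_meas : Measurable wt := by
  unfold wt
  exact measurable_const.div (sg_cd.continuous.measurable.mul
    ((Real.measurable_log.comp sg_cd.continuous.measurable).pow_const 2))

lemma har_wt (hHar : StmHar) {F : V → ℝ} (hF : ContDiff ℝ ∞ F) (hs : HasCompactSupport F)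
    (hsup : ∀ x, F x ≠ 0 → sg x ≤ Real.exp (-2)) :
    Integrable (fun x => wt x * F x ^ 2) ∧ ∫ x, wt x * F x ^ 2 ≤ GD F := by
  obtain ⟨h1, h2⟩ := hHar F (hF.of_le (by norm_cast)) hs hsup
  have e : (fun x => F x ^ 2 / (sg x * Real.log (sg x) ^ 2)) = fun x => wt x * F x ^ 2 := by
    funext x
    unfold wt
    ring
  rw [e] at h1 h2
  refine ⟨h1, h2.trans ?_⟩
  unfold GD
  have i1 : Integrable (fun x => pd 0 F x ^ 2 + pd 1 F x ^ 2) :=
    int_cs (((sm_pd hF 0).pow 2).add ((sm_pd hF 1).pow 2)).continuous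
      ((sq_cs (cs_pd hs 0)).add (sq_cs (cs_pd hs 1)))
  refine integral_mono i1 (gr2_int hF hs) fun x => ?_
  show pd 0 F x ^ 2 + pd 1 F x ^ 2 ≤ gr2 F x
  unfold gr2
  rw [Fin.sum_univ_three]
  nlinarith [sq_nonneg (pd 2 F x)]

lemma gsq_cont {v : V → V} (hv : ContDiff ℝ ∞ v) : Continuous (W221.NS.gsq v) := by
  unfold W221.NS.gsq
  refine continuous_finsetSum _ fun i _ => continuous_finsetSum _ fun j _ => ?_
  exact ((sm_pd (sm_cmp hv i) j).continuous).pow 2

lemma nsq_cont {v : V → V} (hv : ContDiff ℝ ∞ v) : Continuous (W221.NS.nsq v) := by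
  unfold W221.NS.nsq
  exact continuous_finsetSum _ fun i _ => ((sm_cmp hv i).continuous).pow 2

lemma on_Co {g : V → ℝ} (hg : Continuous g) {c r h : ℝ} (hr : 0 ≤ r) :
    IntegrableOn g (Co c r h) :=
  (hg.continuousOn.integrableOn_compact (Cy_compact hr)).mono_set (Co_sub_Cy c r h)

lemma gsq_nn (v : V → V) (x : V) : 0 ≤ W221.NS.gsq v x := by
  unfold W221.NS.gsq
  positivity

lemma nsq_nn (v : V → V) (x : V) : 0 ≤ W221.NS.nsq v x := by
  unfold W221.NS.nsq
  positivity

/-- `J² + Ω²` is bounded by the gradient. -/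
lemma JO_gsq (hAlg : StmAlg) {v : V → V} (hv : ContDiff ℝ ∞ v) (ha : Axi v) (x : V) :
    sg x * (JJ v x ^ 2 + OO v x ^ 2) ≤ 2 * W221.NS.gsq v x := by
  obtain ⟨-, -, -, h⟩ := hAlg v hv ha
  obtain ⟨-, -, h3, h4, -⟩ := h x
  have e : sg x * (JJ v x ^ 2 + OO v x ^ 2) = vort v x 0 ^ 2 + vort v x 1 ^ 2 := by
    rw [h3, h4]
    unfold sg
    ring
  rw [e]
  have e0 : vort v x 0 = pd 1 (fun y => v y 2) x - pd 2 (fun y => v y 1) x := rfl
  have e1 : vort v x 1 = pd 2 (fun y => v y 0) x - pd 0 (fun y => v y 2) x := rfl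
  rw [e0, e1]
  unfold W221.NS.gsq
  simp only [Fin.sum_univ_three]
  nlinarith [sq_nonneg (pd 1 (fun y => v y 2) x + pd 2 (fun y => v y 1) x),
    sq_nonneg (pd 2 (fun y => v y 0) x + pd 0 (fun y => v y 2) x),
    sq_nonneg (pd 0 (fun y => v y 0) x), sq_nonneg (pd 1 (fun y => v y 0) x),
    sq_nonneg (pd 0 (fun y => v y 1) x), sq_nonneg (pd 1 (fun y => v y 1) x),
    sq_nonneg (pd 2 (fun y => v y 2) x)]

theorem stmT2 (hAlg : StmAlg) (hHar : StmHar) : StmT2 := by
  intro K c r h r1 h1 C' α' hK hr1 hr1r hr2 hh1 hh1h hh hC' hα1 hα2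
  have hr0 : 0 ≤ r := (hr1.trans hr1r).le
  refine ⟨4 * (2 * C' + 8) + 4 * C', by positivity, ?_⟩
  intro M v φ hM hv ha hφ hcirc hWM
  obtain ⟨⟨sU, sW, sJ, sO⟩, -, -, hal⟩ := hAlg v hv ha
  have hφs := hφ.sm
  have hM0 : 0 < M := by linarith
  obtain ⟨L, hL⟩ : ∃ L : ℝ, L = Real.log M ^ (2 - α') := ⟨_, rfl⟩
  have hL1 : 1 ≤ L := by
    rw [hL]
    exact Real.one_le_rpow (logM hM) (by linarith)
  obtain ⟨A, hA⟩ : ∃ A : V → ℝ, A = fun y => φ y * JJ v y := ⟨_, rfl⟩
  obtain ⟨P, hP⟩ : ∃ P : V → ℝ, P = fun y => φ y * OO v y := ⟨_, rfl⟩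
  have sA : ContDiff ℝ ∞ A := by rw [hA]; exact hφs.mul sJ
  have sP : ContDiff ℝ ∞ P := by rw [hP]; exact hφs.mul sO
  have cA : HasCompactSupport A := by rw [hA]; exact hφ.cs.mul_right
  have cP : HasCompactSupport P := by rw [hP]; exact hφ.cs.mul_right
  have hsup : ∀ g : V → ℝ, ∀ x, φ x * g x ≠ 0 → sg x ≤ Real.exp (-2) := by
    intro g x hx
    have h2 : φ x ≠ 0 := fun h0 => hx (by rw [h0, zero_mul])
    exact ((cut_mem hφ h2).1.le).trans hr2
  obtain ⟨a1, a2⟩ := har_wt hHar sA cA (by rw [hA]; exact hsup _)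
  obtain ⟨p1, p2⟩ := har_wt hHar sP cP (by rw [hP]; exact hsup _)
  have hAa : ∀ x, wt x * |A x| ^ 2 = wt x * A x ^ 2 := fun x => by rw [sq_abs]
  have hPa : ∀ x, wt x * |P x| ^ 2 = wt x * P x ^ 2 := fun x => by rw [sq_abs]
  have hcs := cs_int (f := fun x => |A x|) (g := fun x => |P x|) wt_nn
    (a1.congr (Eventually.of_forall fun x => (hAa x).symm))
    (p1.congr (Eventually.of_forall fun x => (hPa x).symm))
    (wt_meas.mul (sA.continuous.abs.measurable.mul
      sP.continuous.abs.measurable)).aestronglyMeasurable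
  obtain ⟨q1, q2⟩ := hcs
  simp only [hAa, hPa] at q2
  have q3 : ∫ x, wt x * (|A x| * |P x|) ≤ √(GD A * GD P) := by
    refine q2.trans (Real.sqrt_le_sqrt ?_)
    have h0 : 0 ≤ ∫ x, wt x * P x ^ 2 :=
      integral_nonneg fun x => mul_nonneg (wt_nn x) (sq_nonneg _)
    exact mul_le_mul a2 p2 h0 (GD_nn A)
  obtain ⟨G, hG⟩ : ∃ G : V → ℝ, G = (Co c r h).indicator (W221.NS.gsq v) := ⟨_, rfl⟩
  have iG : Integrable G := by
    rw [hG]
    exact (integrable_indicator_iff (Co_meas c r h)).2 (on_Co (gsq_cont hv) hr0)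
  have hGv : ∫ x, G x = ∫ x in Co c r h, W221.NS.gsq v x := by
    rw [hG, integral_indicator (Co_meas c r h)]
  -- pointwise bound
  have hM38 : M ^ (1 / 8 : ℝ) * M ^ (1 / 8 : ℝ) ≤ M ^ (3 / 8 : ℝ) := by
    rw [← Real.rpow_add hM0]
    exact Real.rpow_le_rpow_of_exponent_le (by linarith) (by norm_num)
  have hpt : ∀ x, sg x ≠ 0 → |φ x ^ 2 * OO v x * (WW v x * JJ v x)|
      ≤ (2 * C' + 8) * L * (wt x * (|A x| * |P x|)) + C' * M ^ (3 / 8 : ℝ) * G x := by
    intro x hs
    have hsp : 0 < sg x := lt_of_le_of_ne (sg_nn x) (Ne.symm hs)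
    have hG0 : 0 ≤ G x := by
      rw [hG]
      exact indicator_nonneg (fun y _ => gsq_nn v y) _
    have hM0' : 0 ≤ M ^ (3 / 8 : ℝ) := Real.rpow_nonneg hM0.le _
    have h1' : 0 ≤ (2 * C' + 8) * L * (wt x * (|A x| * |P x|)) := by
      have := wt_nn x
      positivity
    have h2' : 0 ≤ C' * M ^ (3 / 8 : ℝ) * G x := by positivity
    by_cases hx : x ∈ Co c r h
    · have hsx : sg x ≤ Real.exp (-2) := hx.1.le.trans hr2
      obtain ⟨l1, l2, l3⟩ := log_ge hsp hsx
      have hc := hcirc x hx hs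
      obtain ⟨-, -, -, -, -, -, -, -, hcW, -⟩ := hal x
      rw [hcW, abs_mul, abs_of_pos hsp] at hc
      have hφ0 := hφ.nn x
      have hφ1 := hφ.le x
      have e1 : |φ x ^ 2 * OO v x * (WW v x * JJ v x)| = |WW v x| * (|A x| * |P x|) := by
        rw [hA, hP]
        simp only [abs_mul, abs_pow, abs_of_nonneg hφ0]
        ring
      by_cases hreg : sg x ≤ M ^ (-(1 / 8) : ℝ)
      · have h3 := W_near hsp hsx hM hC' hα1 hα2 hc (hWM x hx)
        rw [e1]
        have h4 : |WW v x| * (|A x| * |P x|) ≤ ((2 * C' + 8) * Real.log M ^ (2 - α')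
            * (1 / (sg x * Real.log (sg x) ^ 2))) * (|A x| * |P x|) :=
          mul_le_mul_of_nonneg_right h3 (by positivity)
        have h5 : ((2 * C' + 8) * Real.log M ^ (2 - α')
            * (1 / (sg x * Real.log (sg x) ^ 2))) * (|A x| * |P x|)
            = (2 * C' + 8) * L * (wt x * (|A x| * |P x|)) := by
          rw [hL]
          unfold wt
          ring
        rw [h5] at h4
        linarith
      · push Not at hreg
        have h3 := inv_far hM hreg
        have h4 : |WW v x| ≤ C' * M ^ (1 / 8 : ℝ) := by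
          have h5 : |Real.log (sg x)| ^ (-α') ≤ 1 :=
            Real.rpow_le_one_of_one_le_of_nonpos (by linarith) (by linarith)
          have h6 : |WW v x| ≤ C' * (1 / sg x) := by
            rw [mul_one_div, le_div_iff₀ hsp]
            nlinarith
          exact h6.trans (mul_le_mul_of_nonneg_left h3 hC')
        have h5 := JO_gsq hAlg hv ha x
        have h6 : |A x| * |P x| ≤ 1 / sg x * W221.NS.gsq v x := by
          have h7 : |A x| * |P x| ≤ |JJ v x| * |OO v x| := by
            rw [hA, hP]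
            simp only [abs_mul, abs_of_nonneg hφ0]
            calc φ x * |JJ v x| * (φ x * |OO v x|) ≤ 1 * |JJ v x| * (1 * |OO v x|) := by
                  gcongr
              _ = |JJ v x| * |OO v x| := by ring
          have h8 : |JJ v x| * |OO v x| ≤ (JJ v x ^ 2 + OO v x ^ 2) / 2 := by
            rw [← sq_abs (JJ v x), ← sq_abs (OO v x)]
            nlinarith [sq_nonneg (|JJ v x| - |OO v x|)]
          have h9 : (JJ v x ^ 2 + OO v x ^ 2) / 2 ≤ 1 / sg x * W221.NS.gsq v x := by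
            rw [one_div_mul_eq_div, le_div_iff₀ hsp]
            linarith
          linarith
        have hg := gsq_nn v x
        have h7 : |WW v x| * (|A x| * |P x|) ≤ C' * M ^ (3 / 8 : ℝ) * G x := by
          rw [hG, indicator_of_mem hx]
          have hq0 : 0 ≤ M ^ (1 / 8 : ℝ) := Real.rpow_nonneg hM0.le _
          calc |WW v x| * (|A x| * |P x|) ≤ (C' * M ^ (1 / 8 : ℝ))
                * (M ^ (1 / 8 : ℝ) * W221.NS.gsq v x) := by
                refine mul_le_mul h4 (h6.trans (mul_le_mul_of_nonneg_right h3 hg))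
                  (by positivity) (by positivity)
            _ = C' * (M ^ (1 / 8 : ℝ) * M ^ (1 / 8 : ℝ)) * W221.NS.gsq v x := by ring
            _ ≤ C' * M ^ (3 / 8 : ℝ) * W221.NS.gsq v x := by gcongr
        rw [e1]
        linarith
    · have h0 : φ x = 0 := by
        by_contra hcon
        exact hx (cut_mem hφ hcon)
      rw [h0]
      simp only [ne_eq, OfNat.ofNat_ne_zero, not_false_eq_true, zero_pow, zero_mul, abs_zero]
      linarith
  have iR : Integrable (fun x => (2 * C' + 8) * L * (wt x * (|A x| * |P x|))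
      + C' * M ^ (3 / 8 : ℝ) * G x) := (q1.const_mul _).add (iG.const_mul _)
  have i0 : Integrable (fun x => φ x ^ 2 * OO v x * (WW v x * JJ v x)) :=
    int_cs (((hφs.pow 2).mul sO).mul (sW.mul sJ)).continuous
      ((sq_cs hφ.cs).mul_right.mul_right)
  have hI : |∫ x, φ x ^ 2 * OO v x * (WW v x * JJ v x)|
      ≤ (2 * C' + 8) * L * (∫ x, wt x * (|A x| * |P x|)) + C' * M ^ (3 / 8 : ℝ) * ∫ x, G x := by
    refine abs_integral_le_integral_abs.trans ?_
    have h2 : ∫ x, |φ x ^ 2 * OO v x * (WW v x * JJ v x)| ≤ ∫ x, ((2 * C' + 8) * L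
        * (wt x * (|A x| * |P x|)) + C' * M ^ (3 / 8 : ℝ) * G x) := by
      refine integral_mono_ae i0.abs iR ?_
      filter_upwards [axis_ae] with x hx
      exact hpt x hx
    rwa [integral_add (q1.const_mul _) (iG.const_mul _), integral_const_mul,
      integral_const_mul] at h2
  have hX0 : 0 ≤ √(GD A * GD P) := Real.sqrt_nonneg _
  have hg0 : 0 ≤ ∫ x in Co c r h, W221.NS.gsq v x := integral_nonneg fun x => gsq_nn v x
  rw [hGv] at hI
  rw [← hA, ← hP, ← hL]
  have hM0' : 0 ≤ M ^ (3 / 8 : ℝ) := Real.rpow_nonneg hM0.le _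
  have hL0 : 0 ≤ L := by linarith
  calc 4 * |∫ x, φ x ^ 2 * OO v x * (WW v x * JJ v x)|
      ≤ 4 * ((2 * C' + 8) * L * √(GD A * GD P)
        + C' * M ^ (3 / 8 : ℝ) * ∫ x in Co c r h, W221.NS.gsq v x) := by
        refine mul_le_mul_of_nonneg_left (hI.trans ?_) (by norm_num)
        have : (2 * C' + 8) * L * (∫ x, wt x * (|A x| * |P x|))
            ≤ (2 * C' + 8) * L * √(GD A * GD P) :=
          mul_le_mul_of_nonneg_left q3 (by positivity)
        linarith
    _ = 4 * (2 * C' + 8) * (L * √(GD A * GD P))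
        + 4 * C' * (M ^ (3 / 8 : ℝ) * ∫ x in Co c r h, W221.NS.gsq v x) := by ring
    _ ≤ (4 * (2 * C' + 8) + 4 * C') * (L * √(GD A * GD P))
        + (4 * (2 * C' + 8) + 4 * C') * (M ^ (3 / 8 : ℝ)
          * ∫ x in Co c r h, W221.NS.gsq v x) := by
        have k1 : 0 ≤ L * √(GD A * GD P) := by positivity
        have k2 : 0 ≤ M ^ (3 / 8 : ℝ) * ∫ x in Co c r h, W221.NS.gsq v x := by positivity
        nlinarith
    _ = _ := by ring

end Pool.Agent.Q175.AX
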