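import Pool.Agent.Q175.AX.CutL

/-! AXI-U (helper175). -/

set_option autoImplicit false

open MeasureTheory Set Metric Filter Topology
open scoped ContDiff
open H459R3.NS Pool.Agent.W268.NS Pool.Agent.Q67.VD

namespace Pool.Agent.Q175.AX

open Pool.Agent.Q85.CC Pool.Agent.Q85.CL Pool.Agent.TH305.AX Pool.Agent.Q67.AXI
open Pool.Agent.W583.MD (sm_pd cs_pd pd_mul' Z Z.add Z.sub Z.smul Z.sum int_cs Z_pd)
open Pool.Agent.TH305.DR (pd_add' pd_sub' pd_neg' pd_cmul pd_const')

/-- The equation of `φ U`. -/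
lemma LL_phiU {K c r h r1 h1 : ℝ} {v : V → V} {φ : V → ℝ} (hK : 0 ≤ K)
    (hU : ContDiff ℝ ∞ (UU v)) (hO : ContDiff ℝ ∞ (OO v))
    (hLL : ∀ x ∈ Co c r h, sg x ≠ 0 → LL (UU v) x = pd 2 (OO v) x)
    (hφ : Cut c r h r1 h1 K φ) (hb : ∀ x ∈ Out c r h r1 h1, BdA K v x) :
    ∃ E : V → ℝ, (∀ x, sg x ≠ 0 → LL (fun y => φ y * UU v y) x
      = pd 2 (fun y => φ y * OO v y) x + E x) ∧
      (∀ x, |E x| ≤ (Co c r h).indicator (fun _ : V => 10 * K ^ 2) x) ∧
      ∀ x, |φ x * UU v x * E x| ≤ (Co c r h).indicator (fun _ : V => 10 * K ^ 3) x := by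
  have hφs := hφ.sm
  obtain ⟨E, hE⟩ : ∃ E : V → ℝ, E = fun x => -(OO v x * pd 2 φ x)
      + 2 * (∑ i, pd i φ x * pd i (UU v) x) + UU v x * LL φ x := ⟨_, rfl⟩
  -- the error term vanishes where the cut-off function is constant
  have hE0 : ∀ x, (∃ k : ℝ, φ =ᶠ[𝓝 x] fun _ => k) → E x = 0 := by
    rintro x ⟨k, hk⟩
    obtain ⟨a1, a2, a3⟩ := const_pd hk
    rw [hE]
    show -(OO v x * pd 2 φ x) + 2 * (∑ i, pd i φ x * pd i (UU v) x) + UU v x * LL φ x = 0
    unfold LL
    rw [a2, a3]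
    simp [a1]
  have hEb : ∀ x, sg x ≠ 0 → x ∈ Out c r h r1 h1 → |E x| ≤ 10 * K ^ 2 := by
    intro x hs hx
    obtain ⟨b1, b2, b3, b4, b5, b6⟩ := hb x hx
    obtain ⟨c1, c2, c3⟩ := hφ.bd x
    have hsp : 0 < sg x := lt_of_le_of_ne (sg_nn x) (Ne.symm hs)
    have t1 : |OO v x * pd 2 φ x| ≤ K * K := by
      rw [abs_mul]
      exact mul_le_mul b5 (c1 2) (abs_nonneg _) hK
    have t2 : ∀ i, |pd i φ x * pd i (UU v) x| ≤ K * K := by
      intro i
      rw [abs_mul]
      exact mul_le_mul (c1 i) (b6 i).1 (abs_nonneg _) hK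
    have t3 : |LL φ x| ≤ 3 * K := by
      unfold LL
      have : |2 / sg x * RR φ x| ≤ 2 * K := by
        rw [abs_mul, abs_div, abs_of_pos hsp, abs_two]
        calc 2 / sg x * |RR φ x| ≤ 2 / sg x * (K * sg x) := by gcongr
          _ = 2 * K := by field_simp
      calc |lap φ x + 2 / sg x * RR φ x| ≤ |lap φ x| + |2 / sg x * RR φ x| := abs_add_le _ _
        _ ≤ K + 2 * K := add_le_add c2 this
        _ = 3 * K := by ring
    have t4 : |UU v x * LL φ x| ≤ K * (3 * K) := by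
      rw [abs_mul]
      exact mul_le_mul b2 t3 (abs_nonneg _) hK
    rw [hE]
    show |-(OO v x * pd 2 φ x) + 2 * (∑ i, pd i φ x * pd i (UU v) x) + UU v x * LL φ x| ≤ _
    rw [Fin.sum_univ_three]
    have h0 := abs_le.1 (t2 0)
    have h1 := abs_le.1 (t2 1)
    have h2 := abs_le.1 (t2 2)
    have h3 := abs_le.1 t1
    have h4 := abs_le.1 t4
    rw [abs_le]
    constructor <;> nlinarith [h0.1, h0.2, h1.1, h1.2, h2.1, h2.2, h3.1, h3.2, h4.1, h4.2]
  have hEeq : ∀ x, sg x ≠ 0 → LL (fun y => φ y * UU v y) x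
      = pd 2 (fun y => φ y * OO v y) x + E x := by
    intro x hs
    rw [LL_mul hφs hU, pd_mulf hφs hO, hE]
    show φ x * LL (UU v) x + 2 * (∑ i, pd i φ x * pd i (UU v) x) + UU v x * LL φ x
      = φ x * pd 2 (OO v) x + pd 2 φ x * OO v x + (-(OO v x * pd 2 φ x)
        + 2 * (∑ i, pd i φ x * pd i (UU v) x) + UU v x * LL φ x)
    by_cases hx : x ∈ Co c r h
    · rw [hLL x hx hs]
      ring
    · have h0 : φ x = 0 := by
        by_contra hcon
        exact hx (cut_mem hφ hcon)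
      rw [h0]
      ring
  -- extension by zero on the axis
  refine ⟨fun x => if sg x = 0 then 0 else E x, ?_, ?_, ?_⟩
  · intro x hs
    beta_reduce
    rw [if_neg hs]
    exact hEeq x hs
  · intro x
    beta_reduce
    by_cases hs : sg x = 0
    · rw [if_pos hs, abs_zero]
      exact indicator_nonneg (fun _ _ => by positivity) _
    · rw [if_neg hs]
      rcases cut_dich hφ x with ⟨ho, hc⟩ | hk
      · rw [indicator_of_mem hc]
        exact hEb x hs ho
      · rw [hE0 x hk, abs_zero]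
        exact indicator_nonneg (fun _ _ => by positivity) _
  · intro x
    beta_reduce
    by_cases hs : sg x = 0
    · rw [if_pos hs, mul_zero, abs_zero]
      exact indicator_nonneg (fun _ _ => by positivity) _
    · rw [if_neg hs]
      rcases cut_dich hφ x with ⟨ho, hc⟩ | hk
      · rw [indicator_of_mem hc, abs_mul, abs_mul]
        obtain ⟨b1, b2, b3, b4, b5, b6⟩ := hb x ho
        have t1 : |φ x| ≤ 1 := by
          rw [abs_of_nonneg (hφ.nn x)]
          exact hφ.le x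
        calc |φ x| * |UU v x| * |E x| ≤ 1 * K * (10 * K ^ 2) := by
              gcongr
              exact hEb x hs ho
          _ = 10 * K ^ 3 := by ring
      · rw [hE0 x hk, mul_zero, abs_zero]
        exact indicator_nonneg (fun _ _ => by positivity) _

theorem stmU (hAlg : StmAlg) (hAxF : StmAxF) (hDiv : StmDiv) (hEll : StmEll) (hSob : StmSob) :
    StmU := by
  intro K c r h r1 h1 hK hr1 hr1r hr hh1 hh1h hh
  obtain ⟨C1, hC1, hDiv⟩ := hDiv
  obtain ⟨C2, hC2, hSob⟩ := hSob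
  have hr0 : 0 ≤ r := (hr1.trans hr1r).le
  obtain ⟨vol, hvol⟩ : ∃ vol : ℝ, vol = (volume (Co c r h)).toReal := ⟨_, rfl⟩
  have hvol0 : 0 ≤ vol := by rw [hvol]; exact ENNReal.toReal_nonneg
  obtain ⟨D, hD⟩ : ∃ D : ℝ, D = vol * (200 * K ^ 4) + vol * (20 * K ^ 3) + 1 := ⟨_, rfl⟩
  have hD1 : vol * (200 * K ^ 4) ≤ D := by
    have : 0 ≤ vol * (20 * K ^ 3) := by positivity
    rw [hD]
    linarith
  have hD2 : vol * (20 * K ^ 3) ≤ D := by
    have : 0 ≤ vol * (200 * K ^ 4) := by positivity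
    rw [hD]
    linarith
  have hD0 : 1 ≤ D := by
    have : 0 ≤ vol * (200 * K ^ 4) := by positivity
    have : 0 ≤ vol * (20 * K ^ 3) := by positivity
    rw [hD]
    linarith
  refine ⟨D + 2 * C2 * D + 2 * C2, by positivity, ?_⟩
  intro v φ hv hva hdf hφ hb
  obtain ⟨⟨sU, sW, sJ, sO⟩, ⟨aU, aW, aJ, aO⟩, -, -⟩ := hAlg v hv hva
  have hLL : ∀ x ∈ Co c r h, sg x ≠ 0 → LL (UU v) x = pd 2 (OO v) x := fun x hx hs =>
    (hDiv (Co c r h) v (Co_open c r h) hv hva hdf x hx hs).1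
  obtain ⟨E, hE1, hE2, hE3⟩ := LL_phiU hK sU sO hLL hφ hb
  have hφs := hφ.sm
  obtain ⟨F, hF⟩ : ∃ F : V → ℝ, F = fun y => φ y * UU v y := ⟨_, rfl⟩
  have sF : ContDiff ℝ ∞ F := by rw [hF]; exact hφs.mul sU
  have cF : HasCompactSupport F := by rw [hF]; exact hφ.cs.mul_right
  have aF : AxF F := by rw [hF]; exact AxF.mul hφ.ax aU
  obtain ⟨P, hP⟩ : ∃ P : V → ℝ, P = fun y => φ y * OO v y := ⟨_, rfl⟩
  have sP : ContDiff ℝ ∞ P := by rw [hP]; exact hφs.mul sO
  have cP : HasCompactSupport P := by rw [hP]; exact hφ.cs.mul_right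
  obtain ⟨e1, e2, e3⟩ := hEll F sF cF aF
  have hE1' : ∀ x, sg x ≠ 0 → LL F x = pd 2 P x + E x := by
    rw [hF, hP]
    exact hE1
  have hE3' : ∀ x, |F x * E x| ≤ (Co c r h).indicator (fun _ : V => 10 * K ^ 3) x := by
    rw [hF]
    exact hE3
  have hgP : ∀ x, pd 2 P x ^ 2 ≤ gr2 P x := by
    intro x
    unfold gr2
    exact Finset.single_le_sum (f := fun i => pd i P x ^ 2) (fun i _ => sq_nonneg _)
      (Finset.mem_univ 2)
  have hgF : ∀ x, pd 2 F x ^ 2 ≤ gr2 F x := by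
    intro x
    unfold gr2
    exact Finset.single_le_sum (f := fun i => pd i F x ^ 2) (fun i _ => sq_nonneg _)
      (Finset.mem_univ 2)
  -- (1)
  have R1 : HD F ≤ 2 * GD P + vol * (200 * K ^ 4) := by
    refine e2.trans ?_
    have i1 : Integrable (fun x => 2 * gr2 P x + (Co c r h).indicator
        (fun _ : V => 200 * K ^ 4) x) :=
      ((gr2_int sP cP).const_mul 2).add (ind_int hr0 _)
    have h2 : ∫ x, LL F x ^ 2 ≤ ∫ x, (2 * gr2 P x + (Co c r h).indicator
        (fun _ : V => 200 * K ^ 4) x) := by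
      refine integral_mono_ae e1 i1 ?_
      filter_upwards [axis_ae] with x hx
      rw [hE1' x hx]
      have h3 := hE2 x
      by_cases hc : x ∈ Co c r h
      · rw [indicator_of_mem hc] at h3 ⊢
        have h4 := sq_le_sq' (abs_le.1 h3).1 (abs_le.1 h3).2
        have h5 := hgP x
        nlinarith [sq_nonneg (pd 2 P x - E x)]
      · rw [indicator_of_notMem hc] at h3 ⊢
        have h4 : E x = 0 := abs_nonpos_iff.1 h3
        rw [h4]
        have h5 := hgP x
        nlinarith [sq_nonneg (pd 2 P x)]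
    rw [integral_add ((gr2_int sP cP).const_mul 2) (ind_int hr0 _), integral_const_mul, ind_val,
      ← hvol] at h2
    exact h2
  -- (2)
  have iP2 : Integrable (fun x => φ x ^ 2 * OO v x ^ 2) :=
    int_cs ((hφs.pow 2).mul (sO.pow 2)).continuous (sq_cs hφ.cs).mul_right
  have R2 : GD F ≤ (∫ x, φ x ^ 2 * OO v x ^ 2) + vol * (20 * K ^ 3) := by
    have iF2 : Integrable (fun x => F x ^ 2) :=
      int_cs (sF.pow 2).continuous (sq_cs cF)
    have iFL : Integrable (fun x => F x * LL F x) := by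
      refine (iF2.add e1).mono'
        (sF.continuous.measurable.mul (LL_meas sF)).aestronglyMeasurable
        (Eventually.of_forall fun x => ?_)
      show |F x * LL F x| ≤ F x ^ 2 + LL F x ^ 2
      rw [abs_le]
      constructor <;> nlinarith [sq_nonneg (F x - LL F x), sq_nonneg (F x + LL F x)]
    have zFP : Z (pd 2 (fun y => F y * P y)) := Z_pd (sF.mul sP) cF.mul_right 2
    have i1 : Integrable (fun x => -(pd 2 (fun y => F y * P y) x)
        + ((1 / 2) * gr2 F x + (1 / 2) * (φ x ^ 2 * OO v x ^ 2)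
          + (Co c r h).indicator (fun _ : V => 10 * K ^ 3) x)) :=
      zFP.1.neg.add ((((gr2_int sF cF).const_mul (1 / 2)).add (iP2.const_mul (1 / 2))).add
        (ind_int hr0 _))
    have h2 : ∫ x, -(F x * LL F x) ≤ ∫ x, (-(pd 2 (fun y => F y * P y) x)
        + ((1 / 2) * gr2 F x + (1 / 2) * (φ x ^ 2 * OO v x ^ 2)
          + (Co c r h).indicator (fun _ : V => 10 * K ^ 3) x)) := by
      refine integral_mono_ae iFL.neg i1 ?_
      filter_upwards [axis_ae] with x hx
      show -(F x * LL F x) ≤ _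
      rw [hE1' x hx, pd_mulf sF sP]
      have h3 := (abs_le.1 (hE3' x)).1
      have h5 := hgF x
      have h6 : P x = φ x * OO v x := by rw [hP]
      have h7 : φ x ^ 2 * OO v x ^ 2 = P x ^ 2 := by rw [h6]; ring
      rw [h7]
      nlinarith [sq_nonneg (pd 2 F x - P x)]
    have k1 := integral_add zFP.1.neg ((((gr2_int sF cF).const_mul (1 / 2)).add
      (iP2.const_mul (1 / 2))).add (ind_int (c := c) (h := h) hr0 (10 * K ^ 3)))
    have k2 := integral_add (((gr2_int sF cF).const_mul (1 / 2)).add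
      (iP2.const_mul (1 / 2))) (ind_int (c := c) (h := h) hr0 (10 * K ^ 3))
    have k3 := integral_add ((gr2_int sF cF).const_mul (1 / 2)) (iP2.const_mul (1 / 2))
    simp only [Pi.add_apply, Pi.neg_apply] at k1 k2 k3
    rw [k1, k2, k3, integral_neg, integral_neg, zFP.2, integral_const_mul, integral_const_mul,
      ind_val, ← hvol] at h2
    have h6 : GD F = ∫ x, gr2 F x := rfl
    rw [← integral_neg, integral_neg] at h2
    rw [← h6] at h2
    linarith
  have hball : ∀ x, F x ≠ 0 → ‖x - ![0, 0, c]‖ ≤ 1 := by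
    intro x hx
    refine cut_ball hφ hr0 hr hh (x := x) ?_
    intro h0
    apply hx
    rw [hF]
    show φ x * _ = 0
    rw [h0, zero_mul]
  obtain ⟨s1, s2⟩ := hSob F ![0, 0, c] sF hball
  have hF' : ∀ x, φ x * UU v x = F x := by
    intro x
    rw [hF]
  have hGP : 0 ≤ GD P := GD_nn P
  have hI : 0 ≤ ∫ x, φ x ^ 2 * OO v x ^ 2 := integral_nonneg fun x => by positivity
  obtain ⟨I, hIe⟩ : ∃ I : ℝ, I = ∫ x, φ x ^ 2 * OO v x ^ 2 := ⟨_, rfl⟩
  rw [← hF, ← hP]
  simp only [hF']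
  rw [← hIe] at hI R2 ⊢
  have hCD : 0 ≤ C2 * D := by positivity
  refine ⟨?_, ?_, ?_, ?_⟩
  · linarith
  · nlinarith
  · intro x
    refine (s1 x).trans ?_
    have : C2 * HD F ≤ C2 * (2 * GD P + D) := by
      refine mul_le_mul_of_nonneg_left ?_ hC2.le
      linarith
    nlinarith
  · refine s2.trans ?_
    have : C2 * GD F ≤ C2 * (I + D) := by
      refine mul_le_mul_of_nonneg_left ?_ hC2.le
      linarith
    nlinarith

end Pool.Agent.Q175.AX
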