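import Pool.Agent.Q175.AX.T2

/-! AXI-YD: the differential inequality (helper175). -/

set_option autoImplicit false

open MeasureTheory Set Metric Filter Topology
open scoped ContDiff
open H459R3.NS Pool.Agent.W268.NS Pool.Agent.Q67.VD

namespace Pool.Agent.Q175.AX

open Pool.Agent.Q85.CC Pool.Agent.Q85.CL Pool.Agent.TH305.AX Pool.Agent.Q67.AXI
open Pool.Agent.W583.MD (sm_pd cs_pd pd_mul' Z Z.add Z.sub Z.smul Z.sum int_cs Z_pd)
open Pool.Agent.TH305.DR (pd_add' pd_sub' pd_neg' pd_cmul pd_const')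

lemma Co_mono {c r h R H : ℝ} (hr0 : 0 ≤ r) (hr : r ≤ R) (hh : h ≤ H) :
    Co c r h ⊆ Co c R H := fun _ hx =>
  ⟨hx.1.trans_le (pow_le_pow_left₀ hr0 hr 2), hx.2.trans_le hh⟩

lemma slice_V {T : ℝ} {u : ℝ → V → V}
    (hu : ContDiffOn ℝ ∞ (fun z : ℝ × V => u z.1 z.2) (Ioo 0 T ×ˢ univ)) {t : ℝ}
    (ht : t ∈ Ioo 0 T) : ContDiff ℝ ∞ (u t) := by
  rw [← contDiffOn_univ]
  exact hu.comp (contDiff_const.prodMk contDiff_id).contDiffOn (fun x _ => ⟨ht, mem_univ _⟩)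

/-- The remainder in the energy inequality. -/
lemma rem_le {K c r h r1 h1 : ℝ} {v : V → V} {φ f : V → ℝ} (hK : 0 ≤ K) (hr0 : 0 ≤ r)
    (hφ : Cut c r h r1 h1 K φ) (hb : ∀ x ∈ Out c r h r1 h1, BdA K v x)
    (hf : ∀ x ∈ Out c r h r1 h1, |f x| ≤ K) :
    ∫ x, f x ^ 2 * (2 * gr2 φ x + W221.NS.adv v (fun y => φ y ^ 2) x
      - 2 / sg x * RR (fun y => φ y ^ 2) x)
      ≤ (volume (Co c r h)).toReal * (K ^ 2 * (12 * K ^ 2 + 4 * K)) := by
  rw [← ind_val]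
  refine (le_abs_self _).trans ?_
  rw [← Real.norm_eq_abs]
  refine norm_integral_le_of_norm_le (ind_int hr0 _) ?_
  filter_upwards [axis_ae] with x hs
  rw [Real.norm_eq_abs]
  have hsp : 0 < sg x := lt_of_le_of_ne (sg_nn x) (Ne.symm hs)
  have e1 : W221.NS.adv v (fun y => φ y ^ 2) x = 2 * φ x * ∑ j, v x j * pd j φ x := by
    unfold W221.NS.adv
    rw [Finset.mul_sum]
    refine Finset.sum_congr rfl fun j _ => ?_
    rw [sq_pd hφ.sm]
    ring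
  have e2 : RR (fun y => φ y ^ 2) x = 2 * φ x * RR φ x := by
    unfold RR
    rw [sq_pd hφ.sm, sq_pd hφ.sm]
    ring
  rw [e1, e2]
  rcases cut_dich hφ x with ⟨ho, hc⟩ | ⟨k, hk⟩
  · rw [indicator_of_mem hc]
    obtain ⟨b1, b2, b3, b4, b5, b6⟩ := hb x ho
    obtain ⟨c1, c2, c3⟩ := hφ.bd x
    have hφ0 := hφ.nn x
    have hφ1 := hφ.le x
    have hf' := hf x ho
    have t1 : f x ^ 2 ≤ K ^ 2 := sq_le_sq' (abs_le.1 hf').1 (abs_le.1 hf').2
    have t2 : |gr2 φ x| ≤ 3 * K ^ 2 := by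
      rw [abs_of_nonneg (gr2_nn φ x)]
      unfold gr2
      rw [Fin.sum_univ_three]
      have hi : ∀ i, pd i φ x ^ 2 ≤ K ^ 2 := fun i =>
        sq_le_sq' (abs_le.1 (c1 i)).1 (abs_le.1 (c1 i)).2
      linarith [hi 0, hi 1, hi 2]
    have t3 : |2 * φ x * ∑ j, v x j * pd j φ x| ≤ 6 * K ^ 2 := by
      have hi : ∀ j, |v x j * pd j φ x| ≤ K * K := fun j => by
        rw [abs_mul]
        exact mul_le_mul (b1 j) (c1 j) (abs_nonneg _) hK
      rw [Fin.sum_univ_three, abs_mul, abs_of_nonneg (by linarith : 0 ≤ 2 * φ x)]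
      have h2 : |v x 0 * pd 0 φ x + v x 1 * pd 1 φ x + v x 2 * pd 2 φ x| ≤ 3 * K ^ 2 := by
        have a0 := abs_le.1 (hi 0)
        have a1 := abs_le.1 (hi 1)
        have a2 := abs_le.1 (hi 2)
        rw [abs_le]
        constructor <;> nlinarith [a0.1, a0.2, a1.1, a1.2, a2.1, a2.2]
      calc 2 * φ x * |v x 0 * pd 0 φ x + v x 1 * pd 1 φ x + v x 2 * pd 2 φ x|
          ≤ 2 * 1 * (3 * K ^ 2) := by gcongr
        _ = 6 * K ^ 2 := by ring
    have t4 : |2 / sg x * (2 * φ x * RR φ x)| ≤ 4 * K := by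
      rw [abs_mul, abs_mul, abs_div, abs_of_pos hsp, abs_two,
        abs_of_nonneg (by linarith : 0 ≤ 2 * φ x)]
      calc 2 / sg x * (2 * φ x * |RR φ x|) ≤ 2 / sg x * (2 * 1 * (K * sg x)) := by gcongr
        _ = 4 * K := by
          field_simp
          ring
    have t5 : |2 * gr2 φ x + 2 * φ x * ∑ j, v x j * pd j φ x - 2 / sg x * (2 * φ x * RR φ x)|
        ≤ 12 * K ^ 2 + 4 * K := by
      have a0 := abs_le.1 t2
      have a1 := abs_le.1 t3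
      have a2 := abs_le.1 t4
      rw [abs_le]
      constructor <;> linarith [a0.1, a0.2, a1.1, a1.2, a2.1, a2.2]
    rw [abs_mul, abs_of_nonneg (sq_nonneg (f x))]
    exact mul_le_mul t1 t5 (abs_nonneg _) (sq_nonneg K)
  · obtain ⟨q1, q2, q3⟩ := const_pd hk
    have h2 : gr2 φ x = 0 := by
      unfold gr2
      simp [q1]
    have : f x ^ 2 * (2 * gr2 φ x + 2 * φ x * ∑ j, v x j * pd j φ x
        - 2 / sg x * (2 * φ x * RR φ x)) = 0 := by
      rw [h2, q3]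
      simp [q1]
    rw [this, abs_zero]
    exact indicator_nonneg (fun _ _ => by positivity) _

/-- Energy inequality for one function. -/
lemma en_one (hEn : Pool.Agent.Q67.AXI.StmEn) {K c r h r1 h1 R H : ℝ} {v : V → V}
    {φ f S ft : V → ℝ}
    (hK : 0 ≤ K) (hr0 : 0 ≤ r) (hr : r ≤ R) (hh : h ≤ H) (hv : ContDiff ℝ ∞ v)
    (hdf : DFO (Co c R H) v) (hf : ContDiff ℝ ∞ f) (hS : ContDiff ℝ ∞ S)
    (hφ : Cut c r h r1 h1 K φ) (hb : ∀ x ∈ Out c r h r1 h1, BdA K v x)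
    (hfb : ∀ x ∈ Out c r h r1 h1, |f x| ≤ K)
    (heq : ∀ x ∈ Co c R H, sg x ≠ 0 → ft x = LL f x - W221.NS.adv v f x + S x) :
    ∫ x, 2 * φ x ^ 2 * f x * ft x ≤ -2 * GD (fun x => φ x * f x)
      + 2 * (∫ x, φ x ^ 2 * f x * S x)
      + (volume (Co c r h)).toReal * (K ^ 2 * (12 * K ^ 2 + 4 * K)) := by
  have h1 := (hEn (Co c r h) v f S φ (Co_open c r h) hv
    (fun x hx => hdf x (Co_mono hr0 hr hh hx)) hf hS hφ.sm hφ.cs hφ.supp).2.2
  have h2 : ∫ x, 2 * φ x ^ 2 * f x * ft x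
      = ∫ x, 2 * φ x ^ 2 * f x * (LL f x - W221.NS.adv v f x + S x) := by
    refine integral_congr_ae ?_
    filter_upwards [axis_ae] with x hs
    by_cases hx : φ x = 0
    · rw [hx]
      ring
    · rw [heq x (Co_mono hr0 hr hh (cut_mem hφ hx)) hs]
  rw [h2]
  have h3 := rem_le hK hr0 hφ hb hfb
  linarith

theorem stmYd (hAlg : StmAlg) (hEqJ : StmEqJ) (hEqO : StmEqO) (hJnt : StmJnt) (hDt : StmDt)
    (hEn : Pool.Agent.Q67.AXI.StmEn) (hT1 : StmT1) (hT2 : StmT2) : StmYd := by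
  intro T E c R H K r h r1 h1 T₁ C' α' u p φ hu hK hr1 hr1r hrR hr2 hh1 hh1h hhH hh hT1' hTT hC'
    hα1 hα2 hφ hb hcirc
  have hr0 : 0 ≤ r := (hr1.trans hr1r).le
  obtain ⟨C1, hC1, hT1⟩ := hT1 K c r h r1 h1 C' α' hK hr1 hr1r hr2 hh1 hh1h hh hC'
    (by linarith) hα2
  obtain ⟨C2, hC2, hT2⟩ := hT2 K c r h r1 h1 C' α' hK hr1 hr1r hr2 hh1 hh1h hh hC'
    (by linarith) hα2
  obtain ⟨Q, hQ⟩ : ∃ Q : ℝ, Q = C1 + C2 + 1 := ⟨_, rfl⟩
  have hQ1 : 1 ≤ Q := by rw [hQ]; linarith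
  have hQC1 : C1 ≤ Q := by rw [hQ]; linarith
  have hQC2 : C2 ≤ Q := by rw [hQ]; linarith
  obtain ⟨D0, hD0⟩ : ∃ D0 : ℝ, D0 = (volume (Co c r h)).toReal * (K ^ 2 * (12 * K ^ 2 + 4 * K)) :=
    ⟨_, rfl⟩
  have hD00 : 0 ≤ D0 := by
    rw [hD0]
    have : 0 ≤ (volume (Co c r h)).toReal := ENNReal.toReal_nonneg
    positivity
  -- large `M`
  have hev : ∀ᶠ M : ℝ in atTop, 3 ≤ M ∧ 8 * Q * Real.log M ^ (2 - 2 * α') ≤ 1 ∧
      16 * Q ^ 3 * Real.log M ^ (6 - 4 * α') ≤ 1 / 8 ∧ Real.log M ≤ M ^ (1 / 32 : ℝ) := by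
    have hlog := Real.tendsto_log_atTop
    have e1 : Tendsto (fun M => 8 * Q * Real.log M ^ (2 - 2 * α')) atTop (𝓝 0) := by
      have h2 : Tendsto (fun y : ℝ => y ^ (-(2 * α' - 2))) atTop (𝓝 0) :=
        tendsto_rpow_neg_atTop (by linarith)
      have h3 := (h2.comp hlog).const_mul (8 * Q)
      rw [mul_zero] at h3
      refine h3.congr fun M => ?_
      show 8 * Q * Real.log M ^ (-(2 * α' - 2)) = _
      congr 2
      ring
    have e2 : Tendsto (fun M => 16 * Q ^ 3 * Real.log M ^ (6 - 4 * α')) atTop (𝓝 0) := by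
      have h2 : Tendsto (fun y : ℝ => y ^ (-(4 * α' - 6))) atTop (𝓝 0) :=
        tendsto_rpow_neg_atTop (by linarith)
      have h3 := (h2.comp hlog).const_mul (16 * Q ^ 3)
      rw [mul_zero] at h3
      refine h3.congr fun M => ?_
      show 16 * Q ^ 3 * Real.log M ^ (-(4 * α' - 6)) = _
      congr 2
      ring
    have e3 := (isLittleO_log_rpow_atTop (r := 1 / 32) (by norm_num)).bound
      (c := 1) (by norm_num)
    filter_upwards [eventually_ge_atTop 3, e1.eventually_le_const (by norm_num : (0 : ℝ) < 1),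
      e2.eventually_le_const (by norm_num : (0 : ℝ) < 1 / 8), e3] with M m1 m2 m3 m4
    refine ⟨m1, m2, m3, ?_⟩
    rw [one_mul, Real.norm_eq_abs, Real.norm_eq_abs,
      abs_of_nonneg (Real.rpow_nonneg (by linarith) _)] at m4
    exact (le_abs_self _).trans m4
  obtain ⟨M₁, hM₁⟩ := eventually_atTop.1 hev
  refine ⟨2 * Q * (1 + |E|) + 2 * D0, max M₁ 3, by positivity, le_max_right _ _, ?_⟩
  intro M hM
  obtain ⟨hM3, hm1, hm2, hm3⟩ := hM₁ M ((le_max_left _ _).trans hM)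
  have hM0 : 0 < M := by linarith
  have hlM := logM hM3
  obtain ⟨Λ, hΛ⟩ : ∃ Λ : ℝ, Λ = Real.log M := ⟨_, rfl⟩
  rw [← hΛ] at hm1 hm2 hm3 hlM
  have hΛ0 : 0 < Λ := by linarith
  have hp1 : 0 < Λ ^ (2 - 2 * α') := Real.rpow_pos_of_pos hΛ0 _
  obtain ⟨l, hl⟩ : ∃ l : ℝ, l = 8 * Q * Λ ^ (2 - 2 * α') := ⟨_, rfl⟩
  have hl0 : 0 < l := by rw [hl]; positivity
  refine ⟨l, ?_, by rw [hl]; exact hm1, ?_⟩
  · have h2 : Λ ^ (-2 : ℝ) ≤ Λ ^ (2 - 2 * α') :=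
      Real.rpow_le_rpow_of_exponent_le hlM (by linarith)
    have h3 : M ^ (-(1 / 16) : ℝ) ≤ Λ ^ (-2 : ℝ) := by
      rw [Real.rpow_neg hM0.le, Real.rpow_neg hΛ0.le]
      refine inv_anti₀ (Real.rpow_pos_of_pos hΛ0 _) ?_
      calc Λ ^ (2 : ℝ) ≤ (M ^ (1 / 32 : ℝ)) ^ (2 : ℝ) :=
            Real.rpow_le_rpow hΛ0.le hm3 (by norm_num)
        _ = M ^ (1 / 16 : ℝ) := by
            rw [← Real.rpow_mul hM0.le]
            norm_num
    rw [hl]
    nlinarith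
  intro t ht hW
  have ht0 : t ∈ Ioo 0 T := ⟨hT1'.trans_le ht.1, ht.2⟩
  have hv : ContDiff ℝ ∞ (u t) := slice_V hu.smooth_u ht0
  have ha : Axi (u t) := hu.axi t ht0
  have hdf : DFO (Co c R H) (u t) := hu.divfree t ht0
  obtain ⟨⟨sU, sW, sJ, sO⟩, -, -, -⟩ := hAlg (u t) hv ha
  obtain ⟨-, -, jJ, jO⟩ := hJnt T u hu.smooth_u
  have hDJ := (hDt T (fun t => JJ (u t)) φ jJ hφ.sm hφ.cs).2 t ht0
  have hDO := (hDt T (fun t => OO (u t)) φ jO hφ.sm hφ.cs).2 t ht0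
  have hbt := hb t ht
  have hSS : ContDiff ℝ ∞ (SS (u t)) := by
    unfold SS
    exact (((RR_sm sU).mul (sm_pd sW 2)).neg.add ((RR_sm sW).mul (sm_pd sU 2))).add
      ((contDiff_const.mul sW).mul (sm_pd sU 2))
  have hEJ := en_one hEn (f := JJ (u t)) (S := SS (u t))
    (ft := fun x => deriv (fun s => JJ (u s) x) t) hK hr0 hrR.le hhH.le hv hdf sJ hSS hφ hbt
    (fun x hx => (hbt x hx).2.2.2.1) (fun x hx hs => (hEqJ T E c R H u p hu t ht0 x hx hs).deriv)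
  have hEO := en_one hEn (f := OO (u t)) (S := fun x => -2 * WW (u t) x * JJ (u t) x)
    (ft := fun x => deriv (fun s => OO (u s) x) t) hK hr0 hrR.le hhH.le hv hdf sO
    ((contDiff_const.mul sW).mul sJ) hφ hbt
    (fun x hx => (hbt x hx).2.2.2.2.1) (fun x hx hs => by
      rw [(hEqO T E c R H u p hu t ht0 x hx hs).deriv]
      ring)
  refine ⟨_, hDJ.add (hDO.const_mul l), ?_⟩
  have k1 := hT1 M (u t) φ hM3 hv ha (fun x hx => hdf x (Co_mono hr0 hrR.le hhH.le hx)) hφ hbt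
    (hcirc t ht)
  have k2 := hT2 M (u t) φ hM3 hv ha hφ (hcirc t ht) hW
  -- the energy
  have hE : ∫ x in Co c r h, W221.NS.nsq (u t) x ≤ |E| := by
    refine le_trans ?_ ((hu.en t ht0).trans (le_abs_self E))
    exact setIntegral_mono_set (hu.en_int t ht0) (Eventually.of_forall fun x => nsq_nn (u t) x)
      (Eventually.of_forall (Co_mono hr0 hrR.le hhH.le))
  have i1 : IntegrableOn (W221.NS.gsq (u t)) (Co c r h) := on_Co (gsq_cont hv) hr0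
  have i2 : IntegrableOn (W221.NS.nsq (u t)) (Co c r h) := on_Co (nsq_cont hv) hr0
  rw [integral_add i1 i2] at k1
  have hg0 : 0 ≤ ∫ x in Co c r h, W221.NS.gsq (u t) x := integral_nonneg fun x => gsq_nn _ x
  obtain ⟨A, hA⟩ : ∃ A : ℝ, A = GD (fun x => φ x * JJ (u t) x) := ⟨_, rfl⟩
  obtain ⟨B, hB⟩ : ∃ B : ℝ, B = GD (fun x => φ x * OO (u t) x) := ⟨_, rfl⟩
  have hA0 : 0 ≤ A := by rw [hA]; exact GD_nn _
  have hB0 : 0 ≤ B := by rw [hB]; exact GD_nn _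
  obtain ⟨g, hg⟩ : ∃ g : ℝ, g = ∫ x in Co c r h, W221.NS.gsq (u t) x := ⟨_, rfl⟩
  obtain ⟨m, hm⟩ : ∃ m : ℝ, m = M ^ (3 / 8 : ℝ) := ⟨_, rfl⟩
  have hm1' : 1 ≤ m := by rw [hm]; exact Real.one_le_rpow (by linarith) (by norm_num)
  obtain ⟨X1, hX1⟩ : ∃ X : ℝ, X = ∫ x, φ x ^ 2 * JJ (u t) x * SS (u t) x := ⟨_, rfl⟩
  obtain ⟨X2, hX2⟩ : ∃ X : ℝ, X = ∫ x, φ x ^ 2 * OO (u t) x * (WW (u t) x * JJ (u t) x) :=
    ⟨_, rfl⟩
  have hX2' : ∫ x, φ x ^ 2 * OO (u t) x * (-2 * WW (u t) x * JJ (u t) x) = -2 * X2 := by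
    rw [hX2, ← integral_const_mul]
    refine integral_congr_ae (Eventually.of_forall fun x => ?_)
    show φ x ^ 2 * OO (u t) x * (-2 * WW (u t) x * JJ (u t) x)
      = -2 * (φ x ^ 2 * OO (u t) x * (WW (u t) x * JJ (u t) x))
    ring
  rw [hX2'] at hEO
  rw [← hA, ← hD0, ← hX1] at hEJ
  rw [← hB, ← hD0] at hEO
  rw [← hA, ← hB, ← hg, ← hm, ← hX1, ← hΛ] at k1
  rw [← hA, ← hB, ← hg, ← hm, ← hX2, ← hΛ] at k2
  rw [← hA, ← hB, ← hg, ← hm]
  rw [← hg] at hg0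
  have hX1a := (abs_le.1 (le_refl |X1|)).2
  have hX2a := (abs_le.1 (le_refl |X2|)).1
  -- first part
  have q1 : C1 * Λ ^ (2 - 2 * α') * B ≤ l / 8 * B := by
    refine mul_le_mul_of_nonneg_right ?_ hB0
    rw [hl]
    have := mul_le_mul_of_nonneg_right hQC1 hp1.le
    linarith
  -- the mixed term
  have q2 : l * (C2 * Λ ^ (2 - α') * √(A * B)) ≤ A / 8 + l / 8 * B := by
    obtain ⟨y, hy⟩ : ∃ y : ℝ, y = Λ ^ (2 - α') := ⟨_, rfl⟩
    have hy0 : 0 < y := by rw [hy]; exact Real.rpow_pos_of_pos hΛ0 _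
    rw [← hy]
    have h1 : √(A * B) ^ 2 = A * B := Real.sq_sqrt (by positivity)
    have h2 : (l * (C2 * y * √(A * B))) ^ 2 ≤ (A / 8) * 4 * (l / 8 * B) := by
      have h3 : (l * (C2 * y * √(A * B))) ^ 2 = l ^ 2 * C2 ^ 2 * y ^ 2 * (A * B) := by
        have h30 : (l * (C2 * y * √(A * B))) ^ 2 = l ^ 2 * C2 ^ 2 * y ^ 2 * (√(A * B) ^ 2) := by
          ring
        rw [h30, h1]
      have h4 : l * C2 ^ 2 * y ^ 2 ≤ 1 / 16 := by
        have h5 : l * Q ^ 2 * y ^ 2 = 1 / 2 * (16 * Q ^ 3 * Λ ^ (6 - 4 * α')) := by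
          have h6 : Λ ^ (2 - 2 * α') * y ^ 2 = Λ ^ (6 - 4 * α') := by
            rw [hy, ← Real.rpow_natCast (Λ ^ (2 - α')) 2, ← Real.rpow_mul hΛ0.le,
              ← Real.rpow_add hΛ0]
            congr 1
            push_cast
            ring
          rw [← h6, hl]
          ring
        have h7 : C2 ^ 2 ≤ Q ^ 2 := pow_le_pow_left₀ hC2 hQC2 2
        have h8 : l * C2 ^ 2 * y ^ 2 ≤ l * Q ^ 2 * y ^ 2 := by gcongr
        linarith
      rw [h3]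
      have h9 : l ^ 2 * C2 ^ 2 * y ^ 2 * (A * B) = (l * C2 ^ 2 * y ^ 2) * (l * (A * B)) := by ring
      rw [h9]
      have h10 : 0 ≤ l * (A * B) := by positivity
      have h11 := mul_le_mul_of_nonneg_right h4 h10
      linarith
    have h3 : 0 ≤ A / 8 + l / 8 * B := by positivity
    have h4 : (l * (C2 * y * √(A * B))) ^ 2 ≤ (A / 8 + l / 8 * B) ^ 2 := by
      refine h2.trans ?_
      nlinarith [sq_nonneg (A / 8 - l / 8 * B)]
    exact (abs_le_of_sq_le_sq h4 h3 |> abs_le.1).2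
  have hl1 : l ≤ 1 := by rw [hl]; exact hm1
  have hm0 : 0 ≤ m := by linarith
  have q3 : C1 * m * (1 + (g + ∫ x in Co c r h, W221.NS.nsq (u t) x))
      ≤ m * (Q * (1 + |E|) * (1 + g)) := by
    have h1 : C1 * m * (1 + (g + ∫ x in Co c r h, W221.NS.nsq (u t) x))
        ≤ Q * m * (1 + (g + |E|)) := by
      have h0 : 0 ≤ ∫ x in Co c r h, W221.NS.nsq (u t) x := integral_nonneg fun x => nsq_nn _ x
      gcongr
    refine h1.trans ?_
    have h2 : 1 + (g + |E|) ≤ (1 + |E|) * (1 + g) := by nlinarith [abs_nonneg E]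
    calc Q * m * (1 + (g + |E|)) ≤ Q * m * ((1 + |E|) * (1 + g)) := by gcongr
      _ = _ := by ring
  have q4 : l * (C2 * m * g) ≤ m * (Q * (1 + |E|) * (1 + g)) := by
    calc l * (C2 * m * g) ≤ 1 * (Q * m * g) := by gcongr
      _ = m * (Q * 1 * g) := by ring
      _ ≤ m * (Q * (1 + |E|) * (1 + g)) := by
        have := abs_nonneg E
        gcongr
        · linarith
        · linarith
  have q5 : D0 + l * D0 ≤ m * (2 * D0 * (1 + g)) := by
    calc D0 + l * D0 ≤ D0 + 1 * D0 := by gcongr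
      _ = 1 * (2 * D0 * 1) := by ring
      _ ≤ m * (2 * D0 * (1 + g)) := by
        gcongr
        linarith
  have hEO' := mul_le_mul_of_nonneg_left hEO hl0.le
  have k2' := mul_le_mul_of_nonneg_left k2 hl0.le
  have hlX := mul_le_mul_of_nonneg_left (neg_abs_le X2) hl0.le
  have hlB : 0 ≤ l * B := by positivity
  have k1' : 2 * X1 ≤ 2 * |X1| := by linarith [le_abs_self X1]
  have hfin : (∫ x, 2 * φ x ^ 2 * JJ (u t) x * deriv (fun s => JJ (u s) x) t)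
      + l * ∫ x, 2 * φ x ^ 2 * OO (u t) x * deriv (fun s => OO (u s) x) t
      ≤ -(A + l * B) + (m * (Q * (1 + |E|) * (1 + g)) + m * (Q * (1 + |E|) * (1 + g))
        + m * (2 * D0 * (1 + g))) := by
    linarith
  refine hfin.trans (le_of_eq ?_)
  ring

end Pool.Agent.Q175.AX
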